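import Pool.Agent.Y197.DP.Sh3

/-! The form of the upper bound which is used for the Hausdorff dimension. -/

set_option autoImplicit false

namespace Pool.Agent.Y197.DP

open H389NS H974 H12S H985T Finset MeasureTheory

theorem co_up_radius (a : ℕ) : ∃ C : ℝ, 0 < C ∧
    ∀ (Ω : Type) [MeasurableSpace Ω] (μ : Measure Ω) [IsProbabilityMeasure μ]
      (ω : ℝ → Ω → Edg → Bool), IsDP μ ω → ∀ R : ℕ, a + 1 ≤ R → ∀ b : ℝ, 0 ≤ b →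
      μ.real {w | ∃ t : ℝ, b ≤ t ∧ t ≤ b + (R:ℝ) ^ (-(3 / 4) : ℝ) ∧
        H985T.AA (a + 1) R (opE ω t w)} ≤ C * (R:ℝ) ^ (-(1/4 : ℝ)) := by
  obtain ⟨C, hC, h⟩ := co_up
  refine ⟨2 * C * ((a:ℝ) + 1) ^ (1/4 : ℝ), by positivity, ?_⟩
  intro Ω _ μ _ ω hdp R hR b hb
  have hR0 : (0:ℝ) < R := by exact_mod_cast (lt_of_lt_of_le (Nat.succ_pos a) hR)
  have h1 := h Ω μ ω hdp (a + 1) R (by omega) hR b ((R:ℝ) ^ (-(3 / 4) : ℝ)) hb
    (Real.rpow_pos_of_pos hR0 _)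
  refine h1.trans (le_of_eq ?_)
  have e1 : (R:ℝ) ^ (-(3 / 4) : ℝ) * (R:ℝ) ^ (3/4 : ℝ) = 1 := by
    rw [← Real.rpow_add hR0]; norm_num
  rw [e1]
  push_cast
  rw [Real.div_rpow (by positivity) hR0.le, Real.rpow_neg hR0.le]
  field_simp
  norm_num

end Pool.Agent.Y197.DP
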