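import Pool.Agent.Y197.DP.Pair
import Pool.Agent.H389R2.NS.D4

/-! Two-layer four-arm probabilities, ratio form. -/

set_option autoImplicit false

namespace Pool.Agent.Y197.DP

open H389NS H974 H12S Finset
open H389NS.D4w

theorem step2 : ∃ (L M : ℕ) (C c : ℝ), 2 ≤ L ∧ 512 ≤ M ∧ 0 < C ∧ 0 < c ∧ ∀ m : ℕ, M ≤ m →
    ∀ x : ℝ, 0 ≤ x → x ≤ 1 → ∀ j : ℕ, 4 * L * m ≤ j → j ≤ 4 * L * (m + 1) →
      gsq x j ≤ C + 3 / 5 * gsq x (m / 8) ∧
      (∀ q : ℕ, Adm q x → q ≤ m → gsq x j ≤ C * ((q:ℝ) / m) ^ c + 3 / 5 * gsq x (m / 8)) := by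
  obtain ⟨L, M1, M2, N, K, hL, hM1, hM2, hK, HX⟩ := two_exit
  obtain ⟨C, c, hC, hc, HP⟩ := pair_bound2
  set Q : ℝ := (2 * (2 * (N:ℝ) + 1)) ^ 2 with hQ
  have hQ0 : 0 < Q := by positivity
  have hLp : (0:ℝ) < L := by exact_mod_cast (by omega : 0 < L)
  refine ⟨L, M2, 80 * (L:ℝ) ^ 2 * K * Q * (4 + C), c, hL, by omega, by positivity, hc, ?_⟩
  intro m hm x h0 h1 j hj1 hj2
  have hm512 : 512 ≤ m := by omega
  have hM2pos : 0 < M2 := by omega
  have hM1pos : 0 < M1 := by omega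
  have hr : 1 ≤ m / M2 := (Nat.one_le_div_iff hM2pos).mpr hm
  have hrρ : 8 * (m / M2) ≤ m / M1 := by
    rw [Nat.le_div_iff_mul_le hM1pos]
    calc 8 * (m / M2) * M1 = (8 * M1) * (m / M2) := by ring
      _ ≤ M2 * (m / M2) := Nat.mul_le_mul_right _ hM2
      _ ≤ m := Nat.mul_div_le m M2
  have hρm : 64 * (m / M1) ≤ m := by
    calc 64 * (m / M1) ≤ M1 * (m / M1) := Nat.mul_le_mul_right _ hM1
      _ ≤ m := Nat.mul_div_le m M1
  -- the sums of the separated events
  set SV : ((Bool × ℤ) × (Bool × ℤ)) → ℝ → ℝ := fun p y =>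
    ∑ e ∈ boxE (m / 4), P2 (fun _ => y) (SR L m)
          (fun F => Sev L m (m / M2) (m / M1) p.1.1 (2 * (m / M2 : ℕ) * p.1.2) p.2.1
            (2 * (m / M2 : ℕ) * p.2.2) e ↑F)
          (fun F => Sev L m (m / M2) (m / M1) p.1.1 (2 * (m / M2 : ℕ) * p.1.2) p.2.1
            (2 * (m / M2 : ℕ) * p.2.2) e ↑F) with hSV
  have hSVc : ∀ p, Continuous (SV p) := by
    intro p
    rw [hSV]
    exact continuous_finsetSum _ (fun e _ => P2_cont (fun y _ => y) (fun _ => continuous_id) _ _ _)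
  set D : ℝ := ((boxE (m / 4)).card : ℝ) * (1 / (4096 * (L:ℝ) ^ 2)) with hD
  have hD0 : 0 ≤ D := by positivity
  have hpt : ∀ y ∈ Set.Icc (0:ℝ) x, (2 * ((m / 4 : ℕ) : ℝ)) ^ 2 * a42 y (4 * L * m) ≤
      K * (∑ p ∈ prs L m (m / M2) N, SV p y) + D * a42 y (m / 8) := by
    intro y hy
    have hy1 : y ≤ 1 := hy.2.trans h1
    refine (a42_sum_ge hy.1 hy1 hL (by omega)).trans ?_
    refine (Finset.sum_le_sum (fun e he => HX m hm y hy.1 hy1 e he)).trans (le_of_eq ?_)
    rw [Finset.sum_add_distrib, Finset.sum_const, nsmul_eq_mul, ← Finset.mul_sum,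
      Finset.sum_comm, hD, hSV]
    ring
  have hint : (2 * ((m / 4 : ℕ) : ℝ)) ^ 2 * (∫ y in (0:ℝ)..x, a42 y (4 * L * m)) ≤
      K * (∑ p ∈ prs L m (m / M2) N, ∫ y in (0:ℝ)..x, SV p y) +
        D * (∫ y in (0:ℝ)..x, a42 y (m / 8)) := by
    have hi1 : IntervalIntegrable (fun y => K * (∑ p ∈ prs L m (m / M2) N, SV p y))
        MeasureTheory.volume 0 x :=
      (continuous_const.mul (continuous_finsetSum _ (fun p _ => hSVc p))).intervalIntegrable _ _
    have hi2 : IntervalIntegrable (fun y => D * a42 y (m / 8)) MeasureTheory.volume 0 x :=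
      (continuous_const.mul (a42_cont _)).intervalIntegrable _ _
    have hi0 : IntervalIntegrable (fun y => (2 * ((m / 4 : ℕ) : ℝ)) ^ 2 * a42 y (4 * L * m))
        MeasureTheory.volume 0 x :=
      (continuous_const.mul (a42_cont (4 * L * m))).intervalIntegrable 0 x
    have h : (∫ y in (0:ℝ)..x, (2 * ((m / 4 : ℕ) : ℝ)) ^ 2 * a42 y (4 * L * m)) ≤
        ∫ y in (0:ℝ)..x, (K * (∑ p ∈ prs L m (m / M2) N, SV p y) + D * a42 y (m / 8)) :=
      intervalIntegral.integral_mono_on h0 hi0 (hi1.add hi2) hpt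
    rw [intervalIntegral.integral_add hi1 hi2, intervalIntegral.integral_const_mul,
      intervalIntegral.integral_const_mul, intervalIntegral.integral_const_mul,
      intervalIntegral.integral_finsetSum
        (fun p _ => (hSVc p).intervalIntegrable _ _)] at h
    exact h
  have main : ∀ H : ℝ, 0 ≤ H → (∀ p ∈ prs L m (m / M2) N, (∫ y in (0:ℝ)..x, SV p y) ≤ H) →
      gsq x j ≤ 80 * (L:ℝ) ^ 2 * K * Q * H + 3 / 5 * gsq x (m / 8) := by
    intro H hH hp
    have hsum : (∑ p ∈ prs L m (m / M2) N, ∫ y in (0:ℝ)..x, SV p y) ≤ Q * H := by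
      calc (∑ p ∈ prs L m (m / M2) N, ∫ y in (0:ℝ)..x, SV p y)
          ≤ ∑ _p ∈ prs L m (m / M2) N, H := Finset.sum_le_sum hp
        _ = ((prs L m (m / M2) N).card : ℝ) * H := by rw [Finset.sum_const, nsmul_eq_mul]
        _ ≤ Q * H := mul_le_mul_of_nonneg_right (card_prs L m (m / M2) N) hH
    set n : ℝ := ((m / 4 : ℕ) : ℝ) with hn
    set i : ℝ := ((m / 8 : ℕ) : ℝ) with hi
    have hn1 : (m:ℝ) ≤ 4 * n + 3 := by
      have : m ≤ 4 * (m / 4) + 3 := by omega
      rw [hn]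
      exact_mod_cast this
    have hn128 : 128 ≤ n := by
      have : 128 ≤ m / 4 := by omega
      rw [hn]
      exact_mod_cast this
    have hi64 : 64 ≤ i := by
      have : 64 ≤ m / 8 := by omega
      rw [hi]
      exact_mod_cast this
    have hi1 : (m:ℝ) + 1 ≤ 8 * (i + 1) := by
      have : m + 1 ≤ 8 * (m / 8 + 1) := by omega
      rw [hi]
      exact_mod_cast this
    have hmR : (512:ℝ) ≤ m := by exact_mod_cast hm512
    set X := ∫ y in (0:ℝ)..x, a42 y (4 * L * m) with hX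
    set Z := ∫ y in (0:ℝ)..x, a42 y (m / 8) with hZ
    have hX0 : 0 ≤ X := int_nonneg h0 h1 _
    have hZ0 : 0 ≤ Z := int_nonneg h0 h1 _
    have hcard : D ≤ 2 * (2 * n + 1) ^ 2 * (1 / (4096 * (L:ℝ) ^ 2)) :=
      mul_le_mul_of_nonneg_right (card_boxE2 (m / 4)) (by positivity)
    have hX1 : (2 * n) ^ 2 * X ≤ K * (Q * H) + 2 * (2 * n + 1) ^ 2 * (1 / (4096 * (L:ℝ) ^ 2)) * Z := by
      refine hint.trans ?_
      exact add_le_add (mul_le_mul_of_nonneg_left hsum hK.le) (mul_le_mul_of_nonneg_right hcard hZ0)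
    have hjR : (j:ℝ) ≤ 4 * L * (m + 1) := by exact_mod_cast hj2
    have h4L : 1 ≤ 4 * L * m := by
      have : 0 < L * m := Nat.mul_pos (by omega) (by omega)
      nlinarith
    have hG : gsq x j ≤ (4 * L * (m + 1)) ^ 2 * X := by
      unfold gsq
      refine mul_le_mul ?_ (int_anti h0 h1 h4L hj1) (int_nonneg h0 h1 j) (by positivity)
      exact pow_le_pow_left₀ (by positivity) hjR 2
    have hn2 : (0:ℝ) < (2 * n) ^ 2 := by positivity
    -- first factor
    have hf1 : ((m:ℝ) + 1) ^ 2 ≤ 5 * (2 * n) ^ 2 := by nlinarith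
    have hf2 : ((m:ℝ) + 1) ^ 2 * (2 * n + 1) ^ 2 ≤ 384 / 5 * ((2 * n) ^ 2 * i ^ 2) := by
      have g1 : (m:ℝ) + 1 ≤ 65 / 8 * i := by linarith
      have g2 : 2 * n + 1 ≤ 257 / 256 * (2 * n) := by linarith
      have g3 : ((m:ℝ) + 1) ^ 2 ≤ (65 / 8 * i) ^ 2 := pow_le_pow_left₀ (by positivity) g1 2
      have g4 : (2 * n + 1) ^ 2 ≤ (257 / 256 * (2 * n)) ^ 2 := pow_le_pow_left₀ (by positivity) g2 2
      calc ((m:ℝ) + 1) ^ 2 * (2 * n + 1) ^ 2 ≤ (65 / 8 * i) ^ 2 * (257 / 256 * (2 * n)) ^ 2 :=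
            mul_le_mul g3 g4 (by positivity) (by positivity)
        _ = (65 / 8) ^ 2 * (257 / 256) ^ 2 * ((2 * n) ^ 2 * i ^ 2) := by ring
        _ ≤ 384 / 5 * ((2 * n) ^ 2 * i ^ 2) :=
            mul_le_mul_of_nonneg_right (by norm_num) (by positivity)
    -- conclusion
    have hfin : (2 * n) ^ 2 * gsq x j ≤ (2 * n) ^ 2 *
        (80 * (L:ℝ) ^ 2 * K * Q * H + 3 / 5 * (i ^ 2 * Z)) := by
      calc (2 * n) ^ 2 * gsq x j ≤ (2 * n) ^ 2 * ((4 * L * (m + 1)) ^ 2 * X) :=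
            mul_le_mul_of_nonneg_left hG hn2.le
        _ = (4 * L * (m + 1)) ^ 2 * ((2 * n) ^ 2 * X) := by ring
        _ ≤ (4 * L * (m + 1)) ^ 2 * (K * (Q * H) +
              2 * (2 * n + 1) ^ 2 * (1 / (4096 * (L:ℝ) ^ 2)) * Z) :=
            mul_le_mul_of_nonneg_left hX1 (by positivity)
        _ = 16 * (L:ℝ) ^ 2 * K * Q * H * ((m:ℝ) + 1) ^ 2 +
              1 / 128 * (((m:ℝ) + 1) ^ 2 * (2 * n + 1) ^ 2) * Z := by
            field_simp
            ring
        _ ≤ 16 * (L:ℝ) ^ 2 * K * Q * H * (5 * (2 * n) ^ 2) +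
              1 / 128 * (384 / 5 * ((2 * n) ^ 2 * i ^ 2)) * Z := by
            apply add_le_add
            · exact mul_le_mul_of_nonneg_left hf1 (by positivity)
            · exact mul_le_mul_of_nonneg_right
                (mul_le_mul_of_nonneg_left hf2 (by norm_num)) hZ0
        _ = (2 * n) ^ 2 * (80 * (L:ℝ) ^ 2 * K * Q * H + 3 / 5 * (i ^ 2 * Z)) := by ring
    have := le_of_mul_le_mul_left hfin hn2
    exact this
  have hmem : ∀ p ∈ prs L m (m / M2) N,
      |2 * ((m / M2 : ℕ):ℤ) * p.1.2| ≤ (L * m : ℕ) + ((m / M2 : ℕ):ℤ) ∧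
      |2 * ((m / M2 : ℕ):ℤ) * p.2.2| ≤ (L * m : ℕ) + ((m / M2 : ℕ):ℤ) := by
    intro p hp
    unfold prs at hp
    rw [Finset.mem_filter] at hp
    exact hp.2
  constructor
  · refine (main 4 (by norm_num) ?_).trans ?_
    · intro p hp
      obtain ⟨p1, p2⟩ := hmem p hp
      exact (HP L m (m / M2) (m / M1) hL hr hrρ hρm p.1.1 p.2.1 p.1.2 p.2.2 p1 p2 x h0 h1).1
    · have : 0 ≤ 80 * (L:ℝ) ^ 2 * K * Q * C := by positivity
      linarith
  · intro q hx hqm
    refine (main (C * ((q:ℝ) / m) ^ c) (by positivity) ?_).trans ?_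
    · intro p hp
      obtain ⟨p1, p2⟩ := hmem p hp
      exact (HP L m (m / M2) (m / M1) hL hr hrρ hρm p.1.1 p.2.1 p.1.2 p.2.2 p1 p2 x h0 h1).2 q hx hqm
    · have : 0 ≤ 80 * (L:ℝ) ^ 2 * K * Q * 4 * ((q:ℝ) / m) ^ c := by positivity
      linarith


/-- The two-layer four-arm probabilities, ratio form. -/
theorem a42_ratio : ∃ C c : ℝ, 0 < C ∧ 0 < c ∧ ∀ k : ℕ, 1 ≤ k → ∀ x : ℝ, 0 ≤ x → x ≤ 1 →
    (k:ℝ) ^ 2 * (∫ y in (0:ℝ)..x, a42 y k) ≤ C ∧
    (∀ q : ℕ, Adm q x → (k:ℝ) ^ 2 * (∫ y in (0:ℝ)..x, a42 y k) ≤ C * ((q:ℝ) / k) ^ c) := by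
  obtain ⟨L, M, C, c, hL, hM, hC, hc, HS⟩ := step2
  have hLp : (0:ℝ) < L := by exact_mod_cast (by omega : 0 < L)
  have hL2 : (2:ℝ) ≤ L := by exact_mod_cast hL
  have hMp : (512:ℝ) ≤ M := by exact_mod_cast hM
  -- first claim
  set J : ℝ := 4 * L * M with hJ
  have hJ1 : 1 ≤ J := by nlinarith
  set B : ℝ := 2 * J ^ 2 + 5 / 2 * C with hB
  have hB0 : 0 < B := by positivity
  have first : ∀ x : ℝ, 0 ≤ x → x ≤ 1 → ∀ j : ℕ, 1 ≤ j → gsq x j ≤ B := by
    intro x h0 h1 j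
    induction j using Nat.strong_induction_on with
    | _ j ih =>
      intro hj
      by_cases hjJ : 4 * L * M ≤ j
      · obtain ⟨s1, s2, s3, s4, s5⟩ := scale hL hM hjJ
        have h2 := (HS _ s1 x h0 h1 j s2 s3).1
        have h3 := ih _ s5 s4
        have : 0 ≤ J ^ 2 := by positivity
        linarith
      · have h2 := gsq_le h0 h1 j
        have h3 : (j:ℝ) ≤ J := by
          have : j ≤ 4 * L * M := by omega
          rw [hJ]
          exact_mod_cast this
        have h4 : (j:ℝ) ^ 2 ≤ J ^ 2 := pow_le_pow_left₀ (by positivity) h3 2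
        linarith
  -- the exponent
  have h64 : (1:ℝ) < 64 * L := by linarith
  obtain ⟨γ0, hγ0, hγ2⟩ : ∃ γ : ℝ, 0 < γ ∧ (64 * (L:ℝ)) ^ γ = 5 / 4 := by
    refine ⟨Real.log (5 / 4) / Real.log (64 * L), div_pos (Real.log_pos (by norm_num))
      (Real.log_pos h64), ?_⟩
    rw [Real.rpow_def_of_pos (by linarith), mul_div_cancel₀ _ (Real.log_pos h64).ne',
      Real.exp_log (by norm_num)]
  obtain ⟨γ, hγd⟩ : ∃ γ : ℝ, γ = min γ0 c := ⟨_, rfl⟩
  have hγ : 0 < γ := by rw [hγd]; exact lt_min hγ0 hc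
  have hγc : γ ≤ c := by rw [hγd]; exact min_le_right _ _
  have hγ3 : (64 * (L:ℝ)) ^ γ ≤ 5 / 4 := by
    rw [← hγ2]
    exact Real.rpow_le_rpow_of_exponent_le h64.le (by rw [hγd]; exact min_le_left _ _)
  set A : ℝ := B * J ^ γ + 5 * C with hA
  have hJγ : 1 ≤ J ^ γ := Real.one_le_rpow hJ1 hγ.le
  have hA0 : 0 < A := by positivity
  have hBA : B ≤ A := by nlinarith
  -- second claim
  have second : ∀ x : ℝ, 0 ≤ x → x ≤ 1 → ∀ q : ℕ, Adm q x →
      ∀ j : ℕ, 1 ≤ j → gsq x j ≤ A * ((q:ℝ) / j) ^ γ := by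
    intro x h0 h1 q hq j
    have hT0 : (0:ℝ) < q := by exact_mod_cast hq.one
    induction j using Nat.strong_induction_on with
    | _ j ih =>
      intro hj
      have hjp : (0:ℝ) < j := by exact_mod_cast hj
      -- the trivial case
      have triv : (j:ℝ) ≤ J * q → gsq x j ≤ A * ((q:ℝ) / j) ^ γ := by
        intro h
        have h2 : (1 / J) ≤ (q:ℝ) / j := by
          rw [div_le_div_iff₀ (by linarith) hjp]
          linarith
        have h3 : (1 / J) ^ γ ≤ ((q:ℝ) / j) ^ γ :=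
          Real.rpow_le_rpow (by positivity) h2 hγ.le
        have h4 : J ^ γ * (1 / J) ^ γ = 1 := by
          rw [← Real.mul_rpow (by linarith) (by positivity), mul_one_div_cancel (by linarith),
            Real.one_rpow]
        calc gsq x j ≤ B := first x h0 h1 j hj
          _ = B * (J ^ γ * (1 / J) ^ γ) := by rw [h4, mul_one]
          _ = (B * J ^ γ) * (1 / J) ^ γ := by ring
          _ ≤ A * ((q:ℝ) / j) ^ γ := mul_le_mul (by linarith) h3 (by positivity) hA0.le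
      by_cases hjJ : 4 * L * M ≤ j
      · obtain ⟨s1, s2, s3, s4, s5⟩ := scale hL hM hjJ
        set m := j / (4 * L) with hm
        have hm512 : 512 ≤ m := by omega
        have hmR : (512:ℝ) ≤ m := by exact_mod_cast hm512
        have s3R : (j:ℝ) ≤ 4 * L * (m + 1) := by exact_mod_cast s3
        by_cases hmT : q ≤ m
        · have h2 := (HS m s1 x h0 h1 j s2 s3).2 q hq hmT
          have h3 := ih _ s5 s4
          set i : ℝ := ((m / 8 : ℕ) : ℝ) with hi
          have hi1 : (1:ℝ) ≤ i := by rw [hi]; exact_mod_cast s4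
          have hi8 : (m:ℝ) + 1 ≤ 16 * i := by
            have : m + 1 ≤ 16 * (m / 8) := by omega
            rw [hi]
            exact_mod_cast this
          have h6 : (j:ℝ) ≤ 64 * L * i := by
            calc (j:ℝ) ≤ 4 * L * (m + 1) := s3R
              _ ≤ 4 * L * (16 * i) := mul_le_mul_of_nonneg_left hi8 (by positivity)
              _ = 64 * L * i := by ring
          have h6m : (j:ℝ) ≤ 64 * L * m := by
            have : 4 * (L:ℝ) * (m + 1) ≤ 64 * L * m := by nlinarith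
            linarith
          have h5 : (q:ℝ) / i ≤ (64 * L) * (q / j) := by
            rw [← mul_div_assoc, div_le_div_iff₀ (by linarith) hjp]
            calc (q:ℝ) * j ≤ q * (64 * L * i) := mul_le_mul_of_nonneg_left h6 hT0.le
              _ = 64 * L * q * i := by ring
          have h5m : (q:ℝ) / m ≤ (64 * L) * (q / j) := by
            rw [← mul_div_assoc, div_le_div_iff₀ (by linarith) hjp]
            calc (q:ℝ) * j ≤ q * (64 * L * m) := mul_le_mul_of_nonneg_left h6m hT0.le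
              _ = 64 * L * q * m := by ring
          have hqj : 0 ≤ ((q:ℝ) / j) ^ γ := by positivity
          have h7 : ((q:ℝ) / i) ^ γ ≤ 5 / 4 * ((q:ℝ) / j) ^ γ := by
            calc ((q:ℝ) / i) ^ γ ≤ ((64 * L) * ((q:ℝ) / j)) ^ γ :=
                  Real.rpow_le_rpow (by positivity) h5 hγ.le
              _ = (64 * (L:ℝ)) ^ γ * ((q:ℝ) / j) ^ γ :=
                  Real.mul_rpow (by positivity) (by positivity)
              _ ≤ 5 / 4 * ((q:ℝ) / j) ^ γ := mul_le_mul_of_nonneg_right hγ3 hqj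
          have h8 : ((q:ℝ) / m) ^ c ≤ 5 / 4 * ((q:ℝ) / j) ^ γ := by
            have hqm1 : (q:ℝ) / m ≤ 1 := by
              rw [div_le_one (by linarith)]
              exact_mod_cast hmT
            calc ((q:ℝ) / m) ^ c ≤ ((q:ℝ) / m) ^ γ :=
                  Real.rpow_le_rpow_of_exponent_ge (by positivity) hqm1 hγc
              _ ≤ ((64 * L) * ((q:ℝ) / j)) ^ γ :=
                  Real.rpow_le_rpow (by positivity) h5m hγ.le
              _ = (64 * (L:ℝ)) ^ γ * ((q:ℝ) / j) ^ γ :=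
                  Real.mul_rpow (by positivity) (by positivity)
              _ ≤ 5 / 4 * ((q:ℝ) / j) ^ γ := mul_le_mul_of_nonneg_right hγ3 hqj
          have h9 : C ≤ A / 5 := by
            have : 0 ≤ B * J ^ γ := by positivity
            linarith
          calc gsq x j ≤ C * ((q:ℝ) / m) ^ c + 3 / 5 * gsq x (m / 8) := h2
            _ ≤ C * (5 / 4 * ((q:ℝ) / j) ^ γ) + 3 / 5 * (A * (5 / 4 * ((q:ℝ) / j) ^ γ)) := by
                have b1 := mul_le_mul_of_nonneg_left h8 hC.le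
                have b2 := mul_le_mul_of_nonneg_left h7 hA0.le
                linarith
            _ = (5 / 4 * C + 3 / 4 * A) * ((q:ℝ) / j) ^ γ := by ring
            _ ≤ A * ((q:ℝ) / j) ^ γ := mul_le_mul_of_nonneg_right (by linarith) hqj
        · apply triv
          have h1 : (m:ℝ) + 1 ≤ q := by
            have : m + 1 ≤ q := by omega
            exact_mod_cast this
          calc (j:ℝ) ≤ 4 * L * (m + 1) := s3R
            _ ≤ 4 * L * q := mul_le_mul_of_nonneg_left h1 (by positivity)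
            _ ≤ J * q := by
                apply mul_le_mul_of_nonneg_right _ hT0.le
                rw [hJ]
                nlinarith
      · apply triv
        have h3 : (j:ℝ) ≤ J := by
          have : j ≤ 4 * L * M := by omega
          rw [hJ]
          exact_mod_cast this
        have h4 : (1:ℝ) ≤ q := by exact_mod_cast hq.one
        nlinarith
  refine ⟨A, γ, hA0, hγ, ?_⟩
  intro k hk x h0 h1
  refine ⟨(first x h0 h1 k hk).trans hBA, fun q hq => second x h0 h1 q hq k hk⟩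

end Pool.Agent.Y197.DP
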