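import Pool.Agent.Y197.DP.A42
import Pool.Agent.H389R2.NS.E2

/-! Sum over an annulus of two-layer four-arm probabilities, ratio form. -/

set_option autoImplicit false

namespace Pool.Agent.Y197.DP

open H389NS H974 H12S H985T Finset
open H389NS.E2x

/-- the exponent bound -/
theorem key_ratio (c1 c3 : ℝ) (h1 : 0 < c1) (h3 : 0 < c3) : ∃ c D : ℝ, 0 < c ∧ 0 < D ∧
    2 * c ≤ 1 / 4 ∧ ∀ (R κ d q : ℕ) (g C3 : ℝ), 64 ≤ R → κ = R / 8 → 1 ≤ d → d ≤ κ → 1 ≤ q →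
      q ≤ R → 0 ≤ g → 0 < C3 → g ≤ C3 → g ≤ C3 * ((q:ℝ) / d) ^ c3 →
      ((d:ℝ) / κ) ^ (1 + c1) * (g / (d:ℝ) ^ 2) ≤
        D * C3 * (((q:ℝ) / R) ^ (2 * c) * ((d:ℝ) / q) ^ c) / (R * d) := by
  refine ⟨min (min (c3 / 4) (c1 / 4)) (1 / 8), 9 * 9 ^ c1, ?_, by positivity, ?_, ?_⟩
  · refine lt_min (lt_min (by positivity) (by positivity)) (by norm_num)
  · have := min_le_right (min (c3 / 4) (c1 / 4)) (1 / 8 : ℝ)
    linarith
  intro R κ d q g C3 hR hκ hd hdκ hq hqR hg hC3 hgC hgc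
  set c := min (min (c3 / 4) (c1 / 4)) (1 / 8 : ℝ) with hc
  have hc0 : 0 < c := lt_min (lt_min (by positivity) (by positivity)) (by norm_num)
  have hca : 4 * c ≤ c3 := by
    have := (min_le_left (min (c3 / 4) (c1 / 4)) (1 / 8 : ℝ)).trans (min_le_left _ _)
    linarith
  have hcb : 4 * c ≤ c1 := by
    have := (min_le_left (min (c3 / 4) (c1 / 4)) (1 / 8 : ℝ)).trans (min_le_right _ _)
    linarith
  have hR1 : (1:ℝ) ≤ R := by exact_mod_cast (by omega : 1 ≤ R)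
  have hR0 : (0:ℝ) < R := by linarith
  have hd1 : (1:ℝ) ≤ d := by exact_mod_cast hd
  have hd0 : (0:ℝ) < d := by linarith
  have hq1 : (1:ℝ) ≤ q := by exact_mod_cast hq
  have hq0 : (0:ℝ) < q := by linarith
  have hqR' : (q:ℝ) ≤ R := by exact_mod_cast hqR
  have hκ1 : 1 ≤ κ := by omega
  have hκ0 : (0:ℝ) < κ := by exact_mod_cast hκ1
  have hdκ' : (d:ℝ) ≤ κ := by exact_mod_cast hdκ
  have hRκ : (R:ℝ) ≤ 9 * κ := by exact_mod_cast (by omega : R ≤ 9 * κ)
  have hκR : (κ:ℝ) ≤ R := by exact_mod_cast (by omega : κ ≤ R)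
  have hdR : (d:ℝ) / R ≤ 1 := by rw [div_le_one hR0]; linarith
  have hdR0 : 0 < (d:ℝ) / R := div_pos hd0 hR0
  have hdk0 : 0 < (d:ℝ) / κ := div_pos hd0 hκ0
  have hqR1 : (q:ℝ) / R ≤ 1 := by rw [div_le_one hR0]; exact hqR'
  have hqR0 : 0 < (q:ℝ) / R := div_pos hq0 hR0
  have hsplit : (d:ℝ) / R = (q / R) * (d / q) := by field_simp
  have hdk : ((d:ℝ) / κ) ^ c1 ≤ 9 ^ c1 * ((d:ℝ) / R) ^ c1 := by
    rw [← Real.mul_rpow (by norm_num) hdR0.le]
    apply Real.rpow_le_rpow hdk0.le _ h1.le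
    rw [← mul_div_assoc, div_le_div_iff₀ hκ0 hR0]
    nlinarith
  have h9 : (1:ℝ) ≤ 9 ^ c1 := Real.one_le_rpow (by norm_num) h1.le
  -- the main claim
  have claim : ((d:ℝ) / R) ^ c1 * g ≤ C3 * (((q:ℝ) / R) ^ (2 * c) * ((d:ℝ) / q) ^ c) := by
    by_cases hA : q ≤ d
    · have hA' : (q:ℝ) ≤ d := by exact_mod_cast hA
      have e1 : ((d:ℝ) / R) ^ c1 ≤ ((d:ℝ) / R) ^ (2 * c) :=
        Real.rpow_le_rpow_of_exponent_ge hdR0 hdR (by linarith)
      have e2 : ((q:ℝ) / d) ^ c3 ≤ ((q:ℝ) / d) ^ (2 * c) :=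
        Real.rpow_le_rpow_of_exponent_ge (by positivity) (by rw [div_le_one hd0]; exact hA')
          (by linarith)
      have e3 : ((d:ℝ) / R) ^ (2 * c) * ((q:ℝ) / d) ^ (2 * c) = ((q:ℝ) / R) ^ (2 * c) := by
        rw [← Real.mul_rpow (by positivity) (by positivity)]
        congr 1
        field_simp
      have e4 : (1:ℝ) ≤ ((d:ℝ) / q) ^ c :=
        Real.one_le_rpow (by rw [one_le_div hq0]; exact hA') hc0.le
      calc ((d:ℝ) / R) ^ c1 * g ≤ ((d:ℝ) / R) ^ (2 * c) * (C3 * ((q:ℝ) / d) ^ (2 * c)) :=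
            mul_le_mul e1 (hgc.trans (mul_le_mul_of_nonneg_left e2 hC3.le)) hg (by positivity)
        _ = C3 * (((d:ℝ) / R) ^ (2 * c) * ((q:ℝ) / d) ^ (2 * c)) := by ring
        _ = C3 * (((q:ℝ) / R) ^ (2 * c) * 1) := by rw [e3, mul_one]
        _ ≤ C3 * (((q:ℝ) / R) ^ (2 * c) * ((d:ℝ) / q) ^ c) :=
            mul_le_mul_of_nonneg_left (mul_le_mul_of_nonneg_left e4 (by positivity)) hC3.le
    · push Not at hA
      have hA' : (d:ℝ) ≤ q := by exact_mod_cast hA.le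
      have hdq1 : (d:ℝ) / q ≤ 1 := by rw [div_le_one hq0]; exact hA'
      have hdq0 : 0 < (d:ℝ) / q := div_pos hd0 hq0
      have e1 : ((d:ℝ) / R) ^ c1 ≤ ((d:ℝ) / R) ^ (2 * c) :=
        Real.rpow_le_rpow_of_exponent_ge hdR0 hdR (by linarith)
      have e2 : ((d:ℝ) / R) ^ (2 * c) = ((q:ℝ) / R) ^ (2 * c) * ((d:ℝ) / q) ^ (2 * c) := by
        rw [← Real.mul_rpow hqR0.le hdq0.le, ← hsplit]
      have e3 : ((d:ℝ) / q) ^ (2 * c) ≤ ((d:ℝ) / q) ^ c :=
        Real.rpow_le_rpow_of_exponent_ge hdq0 hdq1 (by linarith)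
      calc ((d:ℝ) / R) ^ c1 * g ≤
          (((q:ℝ) / R) ^ (2 * c) * ((d:ℝ) / q) ^ (2 * c)) * C3 :=
            mul_le_mul (e1.trans (le_of_eq e2)) hgC hg (by positivity)
        _ ≤ (((q:ℝ) / R) ^ (2 * c) * ((d:ℝ) / q) ^ c) * C3 :=
            mul_le_mul_of_nonneg_right (mul_le_mul_of_nonneg_left e3 (by positivity)) hC3.le
        _ = _ := by ring
  have e1 : ((d:ℝ) / κ) ^ (1 + c1) * (g / (d:ℝ) ^ 2) =
      (((d:ℝ) / κ) ^ c1 * g) * (1 / (κ * d)) := by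
    rw [Real.rpow_add hdk0, Real.rpow_one]
    field_simp
  rw [e1]
  have e2 : 1 / ((κ:ℝ) * d) ≤ 9 / (R * d) := by
    rw [div_le_div_iff₀ (by positivity) (by positivity)]
    nlinarith
  have e3 : ((d:ℝ) / κ) ^ c1 * g ≤
      9 ^ c1 * (C3 * (((q:ℝ) / R) ^ (2 * c) * ((d:ℝ) / q) ^ c)) := by
    calc ((d:ℝ) / κ) ^ c1 * g ≤ (9 ^ c1 * ((d:ℝ) / R) ^ c1) * g :=
          mul_le_mul_of_nonneg_right hdk hg
      _ = 9 ^ c1 * (((d:ℝ) / R) ^ c1 * g) := by ring
      _ ≤ _ := mul_le_mul_of_nonneg_left claim (by positivity)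
  calc (((d:ℝ) / κ) ^ c1 * g) * (1 / (κ * d)) ≤
      (9 ^ c1 * (C3 * (((q:ℝ) / R) ^ (2 * c) * ((d:ℝ) / q) ^ c))) * (9 / (R * d)) :=
        mul_le_mul e3 e2 (by positivity) (by positivity)
    _ = _ := by ring

theorem sum_pow_le {c : ℝ} (hc : 0 < c) (hc1 : c ≤ 1) (n : ℕ) :
    ∑ s ∈ Finset.range n, ((s:ℝ) + 1) ^ (c - 1) ≤ (n:ℝ) ^ c / c := by
  induction n with
  | zero => simp only [Finset.range_zero, Finset.sum_empty, Nat.cast_zero]; positivity
  | succ n ih =>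
    rw [Finset.sum_range_succ]
    have hn : (0:ℝ) < (n:ℝ) + 1 := by positivity
    have h1 : (1 + (-(1 / ((n:ℝ) + 1)))) ^ c ≤ 1 + c * (-(1 / ((n:ℝ) + 1))) :=
      rpow_one_add_le_one_add_mul_self (by
        rw [neg_le_neg_iff, div_le_one hn]; linarith [(Nat.cast_nonneg n : (0:ℝ) ≤ n)]) hc.le hc1
    have h2 : (1 + (-(1 / ((n:ℝ) + 1)))) = n / (n + 1) := by field_simp; ring
    rw [h2, Real.div_rpow (Nat.cast_nonneg n) hn.le, div_le_iff₀ (by positivity)] at h1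
    have h3 : ((n:ℝ) + 1) ^ (c - 1) = ((n:ℝ) + 1) ^ c / (n + 1) := by
      rw [Real.rpow_sub hn, Real.rpow_one]
    push_cast
    rw [h3]
    have h4 : (1 + c * (-(1 / ((n:ℝ) + 1)))) * ((n:ℝ) + 1) ^ c =
        ((n:ℝ) + 1) ^ c - c * (((n:ℝ) + 1) ^ c / (n + 1)) := by field_simp; ring
    rw [h4] at h1
    have h5 : (n:ℝ) ^ c / c ≤ (((n:ℝ) + 1) ^ c - c * (((n:ℝ) + 1) ^ c / (n + 1))) / c :=
      div_le_div_of_nonneg_right h1 hc.le
    have h6 : (((n:ℝ) + 1) ^ c - c * (((n:ℝ) + 1) ^ c / (n + 1))) / c =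
        ((n:ℝ) + 1) ^ c / c - ((n:ℝ) + 1) ^ c / (n + 1) := by field_simp
    rw [h6] at h5
    linarith

/-- summing a bound by the depth -/
theorem sum_depth2 {R : ℕ} (hR : 64 ≤ R) (f : Edg → ℝ) (K c q : ℝ) (hK : 0 ≤ K) (hc : 0 < c)
    (hc1 : c ≤ 1) (hq : 0 < q)
    (hf : ∀ e ∈ An R (2 * R), f e ≤ K * (((tt R e : ℝ) + 1) / q) ^ c / ((tt R e : ℝ) + 1)) :
    ∑ e ∈ An R (2 * R), f e ≤ K * (65 * R) * (2 / c * ((R:ℝ) / q) ^ c) := by
  classical
  have hR1 : (1:ℝ) ≤ R := by exact_mod_cast (by omega : 1 ≤ R)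
  calc ∑ e ∈ An R (2 * R), f e ≤
      ∑ e ∈ An R (2 * R), K * (((tt R e : ℝ) + 1) / q) ^ c / ((tt R e : ℝ) + 1) :=
        Finset.sum_le_sum hf
    _ = ∑ s ∈ Finset.range (R + 1), ∑ e ∈ (An R (2 * R)).filter (fun e => tt R e = s),
          K * (((tt R e : ℝ) + 1) / q) ^ c / ((tt R e : ℝ) + 1) := by
        symm
        apply Finset.sum_fiberwise_of_maps_to
        intro e he
        rw [Finset.mem_range]
        have := tt_le he
        omega
    _ ≤ ∑ s ∈ Finset.range (R + 1), K * (65 * R) * (q ^ (-c) * ((s:ℝ) + 1) ^ (c - 1)) := by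
        apply Finset.sum_le_sum
        intro s _
        have hs0 : (0:ℝ) < (s:ℝ) + 1 := by positivity
        have h0 : K * (((s:ℝ) + 1) / q) ^ c / ((s:ℝ) + 1) =
            K * (q ^ (-c) * ((s:ℝ) + 1) ^ (c - 1)) := by
          rw [Real.div_rpow hs0.le hq.le, Real.rpow_neg hq.le, Real.rpow_sub hs0, Real.rpow_one]
          field_simp
        have h1 : ∑ e ∈ (An R (2 * R)).filter (fun e => tt R e = s),
            K * (((tt R e : ℝ) + 1) / q) ^ c / ((tt R e : ℝ) + 1) =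
            (((An R (2 * R)).filter (fun e => tt R e = s)).card : ℝ) *
              (K * (q ^ (-c) * ((s:ℝ) + 1) ^ (c - 1))) := by
          rw [← nsmul_eq_mul, ← Finset.sum_const]
          apply Finset.sum_congr rfl
          intro e he
          rw [Finset.mem_filter] at he
          rw [he.2, h0]
        rw [h1]
        have h2 : (((An R (2 * R)).filter (fun e => tt R e = s)).card : ℝ) ≤ 65 * R := by
          exact_mod_cast layer_card hR s
        have h3 : 0 ≤ K * (q ^ (-c) * ((s:ℝ) + 1) ^ (c - 1)) := by positivity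
        calc _ ≤ (65 * R) * (K * (q ^ (-c) * ((s:ℝ) + 1) ^ (c - 1))) :=
              mul_le_mul_of_nonneg_right h2 h3
          _ = _ := by ring
    _ = K * (65 * R) * (q ^ (-c) * ∑ s ∈ Finset.range (R + 1), ((s:ℝ) + 1) ^ (c - 1)) := by
        rw [Finset.mul_sum, Finset.mul_sum]
    _ ≤ _ := by
        apply mul_le_mul_of_nonneg_left _ (by positivity)
        have h1 := sum_pow_le hc hc1 (R + 1)
        have h2 : (((R + 1 : ℕ) : ℝ)) ^ c ≤ 2 * (R:ℝ) ^ c := by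
          calc (((R + 1 : ℕ) : ℝ)) ^ c ≤ (2 * (R:ℝ)) ^ c :=
                Real.rpow_le_rpow (by positivity) (by push_cast; linarith) hc.le
            _ = 2 ^ c * (R:ℝ) ^ c := Real.mul_rpow (by norm_num) (by positivity)
            _ ≤ 2 * (R:ℝ) ^ c := by
                apply mul_le_mul_of_nonneg_right _ (by positivity)
                calc (2:ℝ) ^ c ≤ 2 ^ (1:ℝ) :=
                      Real.rpow_le_rpow_of_exponent_le (by norm_num) hc1
                  _ = 2 := Real.rpow_one _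
        calc q ^ (-c) * ∑ s ∈ Finset.range (R + 1), ((s:ℝ) + 1) ^ (c - 1)
            ≤ q ^ (-c) * ((((R + 1 : ℕ) : ℝ)) ^ c / c) :=
              mul_le_mul_of_nonneg_left h1 (by positivity)
          _ ≤ q ^ (-c) * ((2 * (R:ℝ) ^ c) / c) := by
              apply mul_le_mul_of_nonneg_left _ (by positivity)
              exact div_le_div_of_nonneg_right h2 hc.le
          _ = 2 / c * ((R:ℝ) / q) ^ c := by
              rw [Real.div_rpow (by positivity) hq.le, Real.rpow_neg hq.le]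
              field_simp

theorem triv_ratio (C c : ℝ) (hC : 0 < C) (hc0 : 0 < c) (hc : 2 * c ≤ 1 / 4) (R κ t q : ℕ)
    (hR : 64 ≤ R) (hκ : κ = R / 8) (ht : t ≤ 3) (hq : 1 ≤ q) :
    C * (κ:ℝ) ^ (-(5/4) : ℝ) ≤ (4 * 9 ^ (5/4 : ℝ) * C * ((q:ℝ) / R) ^ (2 * c) / R) *
      (((t:ℝ) + 1) / q) ^ c / ((t:ℝ) + 1) := by
  have hR1 : (1:ℝ) ≤ R := by exact_mod_cast (by omega : 1 ≤ R)
  have hR0 : (0:ℝ) < R := by linarith
  have hq1 : (1:ℝ) ≤ q := by exact_mod_cast hq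
  have hq0 : (0:ℝ) < q := by linarith
  have hκ0 : (0:ℝ) < κ := by exact_mod_cast (by omega : 0 < κ)
  have ht0 : (0:ℝ) < (t:ℝ) + 1 := by positivity
  have h1 := triv_real C c hC hc R κ t hR hκ ht
  refine h1.trans ?_
  apply div_le_div_of_nonneg_right _ ht0.le
  have e1 : (R:ℝ) ^ (-(2 * c)) ≤ ((q:ℝ) / R) ^ (2 * c) * (((t:ℝ) + 1) / q) ^ c := by
    have e2 : ((q:ℝ) / R) ^ (2 * c) * (((t:ℝ) + 1) / q) ^ c =
        (q:ℝ) ^ c * ((t:ℝ) + 1) ^ c * (R:ℝ) ^ (-(2 * c)) := by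
      rw [Real.div_rpow hq0.le hR0.le, Real.div_rpow ht0.le hq0.le, Real.rpow_neg hR0.le]
      have : (q:ℝ) ^ (2 * c) = (q:ℝ) ^ c * (q:ℝ) ^ c := by
        rw [← Real.rpow_add hq0]; congr 1; ring
      rw [this]
      have hqc : (q:ℝ) ^ c ≠ 0 := (Real.rpow_pos_of_pos hq0 _).ne'
      field_simp
    rw [e2]
    have e3 : (1:ℝ) ≤ (q:ℝ) ^ c := Real.one_le_rpow hq1 hc0.le
    have e4 : (1:ℝ) ≤ ((t:ℝ) + 1) ^ c := Real.one_le_rpow (by linarith [(Nat.cast_nonneg t : (0:ℝ) ≤ t)]) hc0.le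
    have e5 : 1 ≤ (q:ℝ) ^ c * ((t:ℝ) + 1) ^ c := one_le_mul_of_one_le_of_one_le e3 e4
    exact le_mul_of_one_le_left (by positivity) e5
  calc 4 * 9 ^ (5/4 : ℝ) * C * (R:ℝ) ^ (-(2 * c)) / R
      ≤ 4 * 9 ^ (5/4 : ℝ) * C * (((q:ℝ) / R) ^ (2 * c) * (((t:ℝ) + 1) / q) ^ c) / R := by
        apply div_le_div_of_nonneg_right _ hR0.le
        exact mul_le_mul_of_nonneg_left e1 (by positivity)
    _ = _ := by ring

/-- The sum over an annulus, ratio form. -/
theorem ann_ratio : ∃ C c : ℝ, 0 < C ∧ 0 < c ∧ ∀ (a' R N' : ℕ) (S : Finset Edg), 64 ≤ R →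
    a' ≤ R → 2 * R ≤ N' → (∀ e ∈ An R (2 * R), ebx e (R / 8 + 2) ⊆ S) →
    ∀ (q : ℕ) (x : ℝ), 0 ≤ x → Adm q x → q ≤ R →
      ∑ e ∈ An R (2 * R), (∫ y in (0:ℝ)..x,
        P2 (fun e' => if e' ∈ An a' N' then y else 1) S
          (fun F => A4e (R / 8) e ↑F ∨ A4d (R / 8) e F)
          (fun F => A4e (R / 8) e ↑F ∨ A4d (R / 8) e F)) ≤ C * ((q:ℝ) / R) ^ c := by
  obtain ⟨C1, c1, hC1, hc1, H1⟩ := P2_A4_outer
  obtain ⟨C2, hC2, H2⟩ := P2_A4_triv
  obtain ⟨C3, c3, hC3, hc3, H3⟩ := a42_ratio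
  obtain ⟨c, D, hc, hD, hc8, HR⟩ := key_ratio c1 c3 hc1 hc3
  set K0 : ℝ := 9 * C1 * D * C3 + 4 * 9 ^ (5/4 : ℝ) * C2 with hK0
  have hK00 : 0 < K0 := by positivity
  refine ⟨K0 * 65 * (2 / c), c, by positivity, hc, ?_⟩
  intro a' R N' S hR ha hN hS q x hx0 hx hqR
  have hR1 : (1:ℝ) ≤ R := by exact_mod_cast (by omega : 1 ≤ R)
  have hR0 : (0:ℝ) < R := by linarith
  have hq1 : 1 ≤ q := hx.one
  have hqR1 : (1:ℝ) ≤ q := by exact_mod_cast hq1
  have hq0 : (0:ℝ) < q := by linarith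
  have hx1 : x ≤ 1 := hx.lt_one.le
  obtain ⟨κ, hκ⟩ : ∃ κ, κ = R / 8 := ⟨_, rfl⟩
  have hκ1 : 1 ≤ κ := by omega
  have hprof : ∀ y : ℝ, 0 ≤ y → y ≤ 1 → ∀ e' ∈ S,
      0 ≤ (fun e' : Edg => if e' ∈ An a' N' then y else 1) e' ∧
      (fun e' : Edg => if e' ∈ An a' N' then y else 1) e' ≤ 1 := by
    intro y h0 h1 e' _
    simp only
    split_ifs
    · exact ⟨h0, h1⟩
    · exact ⟨zero_le_one, le_rfl⟩
  have hcont : ∀ e : Edg, Continuous fun y : ℝ =>
      P2 (fun e' => if e' ∈ An a' N' then y else 1) S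
          (fun F => A4e κ e ↑F ∨ A4d κ e F) (fun F => A4e κ e ↑F ∨ A4d κ e F) := by
    intro e
    apply P2_cont (fun (y : ℝ) (e' : Edg) => if e' ∈ An a' N' then y else 1)
    intro e'
    by_cases h : e' ∈ An a' N'
    · simp only [if_pos h]
      exact continuous_id
    · simp only [if_neg h]
      exact continuous_const
  rw [← hκ]
  have main : ∀ e ∈ An R (2 * R), (∫ y in (0:ℝ)..x,
        P2 (fun e' => if e' ∈ An a' N' then y else 1) S
          (fun F => A4e κ e ↑F ∨ A4d κ e F)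
          (fun F => A4e κ e ↑F ∨ A4d κ e F)) ≤
      (K0 * ((q:ℝ) / R) ^ (2 * c) / R) * (((tt R e : ℝ) + 1) / q) ^ c / ((tt R e : ℝ) + 1) := by
    intro e he
    have hSe : ebx e (κ + 2) ⊆ S := by
      rw [hκ]
      exact hS e he
    have ht0 : (0:ℝ) < (tt R e : ℝ) + 1 := by positivity
    by_cases ht : tt R e ≤ 3
    · have h1 : (∫ y in (0:ℝ)..x,
        P2 (fun e' => if e' ∈ An a' N' then y else 1) S
          (fun F => A4e κ e ↑F ∨ A4d κ e F)
          (fun F => A4e κ e ↑F ∨ A4d κ e F)) ≤ ∫ _ in (0:ℝ)..x, C2 * (κ:ℝ) ^ (-(5/4) : ℝ) := by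
        apply intervalIntegral.integral_mono_on hx0 ((hcont e).intervalIntegrable _ _)
          (continuous_const.intervalIntegrable _ _)
        intro y hy
        exact H2 _ S e κ (hprof y hy.1 (hy.2.trans hx1)) hSe hκ1
      have h2 : (∫ _ in (0:ℝ)..x, C2 * (κ:ℝ) ^ (-(5/4) : ℝ)) ≤ C2 * (κ:ℝ) ^ (-(5/4) : ℝ) := by
        rw [intervalIntegral.integral_const, sub_zero, smul_eq_mul]
        have : 0 ≤ C2 * (κ:ℝ) ^ (-(5/4) : ℝ) := by positivity
        exact mul_le_of_le_one_left this hx1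
      have h3 := triv_ratio C2 c hC2 hc hc8 R κ (tt R e) q hR hκ ht hq1
      refine (h1.trans h2).trans (h3.trans ?_)
      apply div_le_div_of_nonneg_right _ ht0.le
      apply mul_le_mul_of_nonneg_right _ (by positivity)
      apply div_le_div_of_nonneg_right _ hR0.le
      apply mul_le_mul_of_nonneg_right _ (by positivity)
      rw [hK0]
      have : 0 < 9 * C1 * D * C3 := by positivity
      linarith
    · obtain ⟨d, hd⟩ : ∃ d, d = min (tt R e - 3) κ := ⟨_, rfl⟩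
      have hd1 : 1 ≤ d := by omega
      have hdκ : d ≤ κ := by omega
      have hg := good (d := d) ha hN he (by omega)
      have hc2 : Continuous (fun y : ℝ => (C1 * ((d:ℝ) / κ) ^ (1 + c1)) * a42 y d) :=
        continuous_const.mul (a42_cont d)
      have h1 : (∫ y in (0:ℝ)..x,
        P2 (fun e' => if e' ∈ An a' N' then y else 1) S
          (fun F => A4e κ e ↑F ∨ A4d κ e F)
          (fun F => A4e κ e ↑F ∨ A4d κ e F)) ≤
          ∫ y in (0:ℝ)..x, (C1 * ((d:ℝ) / κ) ^ (1 + c1)) * a42 y d := by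
        apply intervalIntegral.integral_mono_on hx0 ((hcont e).intervalIntegrable _ _)
          (hc2.intervalIntegrable _ _)
        intro y hy
        have h2 := H1 (fun e' => if e' ∈ An a' N' then y else 1) S e d κ y
          (hprof y hy.1 (hy.2.trans hx1)) hy.1 (hy.2.trans hx1) hSe hd1 hdκ
          (fun e' he' => by simp only [if_pos (hg e' he')])
        refine h2.trans (le_of_eq ?_)
        ring
      rw [intervalIntegral.integral_const_mul] at h1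
      have hI0 : 0 ≤ ∫ y in (0:ℝ)..x, a42 y d :=
        intervalIntegral.integral_nonneg hx0 (fun y hy => a42_nonneg hy.1 (hy.2.trans hx1) d)
      obtain ⟨b1, b2⟩ := H3 d hd1 x hx0 hx1
      have hd0 : (0:ℝ) < d := by exact_mod_cast hd1
      have h2 := HR R κ d q ((d:ℝ) ^ 2 * (∫ y in (0:ℝ)..x, a42 y d)) C3 hR hκ hd1 hdκ hq1 hqR
        (by positivity) hC3 b1 (b2 q hx)
      have e1 : (d:ℝ) ^ 2 * (∫ y in (0:ℝ)..x, a42 y d) / (d:ℝ) ^ 2 =
          ∫ y in (0:ℝ)..x, a42 y d := by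
        field_simp
      rw [e1] at h2
      have h3 : (1:ℝ) / d ≤ 9 / ((tt R e : ℝ) + 1) := by
        rw [div_le_div_iff₀ hd0 ht0, one_mul]
        have := mm_bounds he
        have h4 : tt R e + 1 ≤ 9 * d := by
          unfold tt at hd ht ⊢
          omega
        exact_mod_cast h4
      have h5 : ((d:ℝ) / q) ^ c ≤ (((tt R e : ℝ) + 1) / q) ^ c := by
        apply Real.rpow_le_rpow (by positivity) _ hc.le
        apply div_le_div_of_nonneg_right _ hq0.le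
        have : d ≤ tt R e + 1 := by omega
        exact_mod_cast this
      calc _ ≤ C1 * ((d:ℝ) / κ) ^ (1 + c1) * ∫ y in (0:ℝ)..x, a42 y d := h1
        _ = C1 * (((d:ℝ) / κ) ^ (1 + c1) * ∫ y in (0:ℝ)..x, a42 y d) := by ring
        _ ≤ C1 * (D * C3 * (((q:ℝ) / R) ^ (2 * c) * ((d:ℝ) / q) ^ c) / (R * d)) :=
            mul_le_mul_of_nonneg_left h2 hC1.le
        _ = (C1 * D * C3 * (((q:ℝ) / R) ^ (2 * c) * ((d:ℝ) / q) ^ c) / R) * (1 / d) := by
            field_simp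
        _ ≤ (C1 * D * C3 * (((q:ℝ) / R) ^ (2 * c) * (((tt R e : ℝ) + 1) / q) ^ c) / R) *
              (9 / ((tt R e : ℝ) + 1)) := by
            apply mul_le_mul _ h3 (by positivity) (by positivity)
            apply div_le_div_of_nonneg_right _ hR0.le
            apply mul_le_mul_of_nonneg_left _ (by positivity)
            exact mul_le_mul_of_nonneg_left h5 (by positivity)
        _ = (9 * C1 * D * C3 * ((q:ℝ) / R) ^ (2 * c) / R) * (((tt R e : ℝ) + 1) / q) ^ c /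
              ((tt R e : ℝ) + 1) := by
            field_simp
        _ ≤ _ := by
            apply div_le_div_of_nonneg_right _ ht0.le
            apply mul_le_mul_of_nonneg_right _ (by positivity)
            apply div_le_div_of_nonneg_right _ hR0.le
            apply mul_le_mul_of_nonneg_right _ (by positivity)
            rw [hK0]
            have : 0 < 4 * 9 ^ (5/4 : ℝ) * C2 := by positivity
            linarith
  have hsum := sum_depth2 hR _ (K0 * ((q:ℝ) / R) ^ (2 * c) / R) c q (by positivity) hc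
    (by linarith) hq0 main
  refine hsum.trans (le_of_eq ?_)
  have e5 : ((q:ℝ) / R) ^ (2 * c) * ((R:ℝ) / q) ^ c = ((q:ℝ) / R) ^ c := by
    have e6 : ((R:ℝ) / q) ^ c = ((q:ℝ) / R) ^ (-c) := by
      rw [Real.rpow_neg (by positivity), ← Real.inv_rpow (by positivity), inv_div]
    rw [e6, ← Real.rpow_add (by positivity)]
    congr 1
    ring
  rw [← e5]
  field_simp

end Pool.Agent.Y197.DP
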