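import Pool.Agent.H389R2.Dim.Lower

/-! The energy of a random finite set. -/

set_option autoImplicit false

namespace Pool.Agent.Y197.DP

open MeasureTheory Finset

/-- If the energy of the random set `{i | w ∈ E i}` is small in the mean, then with a probability
bounded below the set is nonempty and its energy is at most a constant times the square of its
cardinality. -/
theorem energy_event {Ω ι : Type*} [MeasurableSpace Ω] (μ : Measure Ω) [IsProbabilityMeasure μ]
    (I : Finset ι) (E : ι → Set Ω) (hE : ∀ i, MeasurableSet (E i)) (k : ι → ι → ℝ)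
    (hk : ∀ i ∈ I, ∀ j ∈ I, 1 ≤ k i j) (K : ℝ) (hK : 0 < K)
    (hpos : 0 < ∑ i ∈ I, μ.real (E i))
    (h : ∑ i ∈ I, ∑ j ∈ I, k i j * μ.real (E i ∩ E j) ≤ K * (∑ i ∈ I, μ.real (E i)) ^ 2)
    (G : Set Ω) (hG : MeasurableSet G)
    (hGd : ∀ w, (∃ i ∈ I, w ∈ E i) →
      ∑ i ∈ I, ∑ j ∈ I, k i j * ((E i).indicator 1 w * (E j).indicator 1 w) ≤
        16 * K * (∑ i ∈ I, (E i).indicator (1 : Ω → ℝ) w) ^ 2 → w ∈ G) :
    1 / (2 * K) ≤ μ.real G := by
  classical
  obtain ⟨e, he⟩ : ∃ e : ℝ, e = ∑ i ∈ I, μ.real (E i) := ⟨_, rfl⟩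
  rw [← he] at hpos h
  obtain ⟨X, hX⟩ : ∃ X : Ω → ℝ, X = fun w => ∑ i ∈ I, (E i).indicator (1 : Ω → ℝ) w := ⟨_, rfl⟩
  obtain ⟨N, hN⟩ : ∃ N : Ω → ℝ, N = fun w => ∑ i ∈ I, ∑ j ∈ I,
      k i j * ((E i).indicator (1 : Ω → ℝ) w * (E j).indicator 1 w) := ⟨_, rfl⟩
  have hi1 : ∀ i, Integrable ((E i).indicator (1 : Ω → ℝ)) μ := fun i =>
    (integrable_indicator_iff (hE i)).mpr (integrable_const (1:ℝ)).integrableOn
  have hi2 : ∀ i j, (fun w => (E i).indicator (1 : Ω → ℝ) w * (E j).indicator 1 w) =
      (E i ∩ E j).indicator (1 : Ω → ℝ) := by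
    intro i j
    funext w
    by_cases h1 : w ∈ E i <;> by_cases h2 : w ∈ E j <;> simp [h1, h2]
  have hi3 : ∀ i j, Integrable (fun w => (E i).indicator (1 : Ω → ℝ) w *
      (E j).indicator 1 w) μ := by
    intro i j
    rw [hi2]
    exact (integrable_indicator_iff ((hE i).inter (hE j))).mpr
      (integrable_const (1:ℝ)).integrableOn
  have hXi : Integrable X μ := by
    rw [hX]
    exact integrable_finsetSum _ (fun i _ => hi1 i)
  have hNi : Integrable N μ := by
    rw [hN]
    exact integrable_finsetSum _ (fun i _ => integrable_finsetSum _ (fun j _ =>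
      (hi3 i j).const_mul _))
  have hEX : ∫ w, X w ∂μ = e := by
    rw [hX, integral_finsetSum _ (fun i _ => hi1 i), he]
    refine Finset.sum_congr rfl (fun i _ => ?_)
    rw [integral_indicator_one (hE i)]
  have hEN : ∫ w, N w ∂μ ≤ K * e ^ 2 := by
    rw [hN, integral_finsetSum _ (fun i _ => integrable_finsetSum _ (fun j _ =>
      (hi3 i j).const_mul _))]
    refine (le_of_eq (Finset.sum_congr rfl (fun i _ => ?_))).trans h
    rw [integral_finsetSum _ (fun j _ => (hi3 i j).const_mul _)]
    refine Finset.sum_congr rfl (fun j _ => ?_)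
    rw [integral_const_mul, hi2, integral_indicator_one ((hE i).inter (hE j))]
  have hX0 : ∀ w, 0 ≤ X w := fun w => by
    rw [hX]
    exact Finset.sum_nonneg (fun i _ => Set.indicator_nonneg (fun _ _ => zero_le_one) _)
  have hXN : ∀ w, X w ^ 2 ≤ N w := by
    intro w
    rw [hX, hN]
    simp only
    rw [sq, Finset.sum_mul_sum]
    refine Finset.sum_le_sum (fun i hi => Finset.sum_le_sum (fun j hj => ?_))
    have h1 : 0 ≤ (E i).indicator (1 : Ω → ℝ) w * (E j).indicator 1 w :=
      mul_nonneg (Set.indicator_nonneg (fun _ _ => zero_le_one) _)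
        (Set.indicator_nonneg (fun _ _ => zero_le_one) _)
    exact le_mul_of_one_le_left h1 (hk i hi j hj)
  have hgi : Integrable (G.indicator (1 : Ω → ℝ)) μ :=
    (integrable_indicator_iff hG).mpr (integrable_const (1:ℝ)).integrableOn
  -- pointwise inequality
  have key : ∀ w, X w ≤ (N w / (16 * K) + (e / 4) ^ 2) / (e / 2) + N w / (4 * K * e) +
      K * e * G.indicator (1 : Ω → ℝ) w := by
    intro w
    have hN0 : 0 ≤ N w := (sq_nonneg _).trans (hXN w)
    by_cases hw : w ∈ G
    · rw [Set.indicator_of_mem hw]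
      have h1 : 0 ≤ (N w / (16 * K) + (e / 4) ^ 2) / (e / 2) := by positivity
      have h2 : X w ≤ N w / (4 * K * e) + K * e := by
        have h3 : X w ^ 2 / (4 * K * e) ≤ N w / (4 * K * e) :=
          div_le_div_of_nonneg_right (hXN w) (by positivity)
        have h4 : X w ≤ X w ^ 2 / (4 * K * e) + K * e := by
          have h5 : X w ^ 2 / (4 * K * e) + K * e - X w =
              (X w - 2 * K * e) ^ 2 / (4 * K * e) := by field_simp; ring
          have h6 : 0 ≤ (X w - 2 * K * e) ^ 2 / (4 * K * e) := by positivity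
          linarith
        linarith
      simp only [Pi.one_apply, mul_one]
      linarith
    · rw [Set.indicator_of_notMem hw, mul_zero, add_zero]
      have h2 : 0 ≤ N w / (4 * K * e) := by positivity
      have h1 : X w ≤ (N w / (16 * K) + (e / 4) ^ 2) / (e / 2) := by
        by_cases hne : ∃ i ∈ I, w ∈ E i
        · have h3 : ¬ (N w ≤ 16 * K * X w ^ 2) := by
            intro h4
            apply hw
            refine hGd w hne ?_
            rw [hN, hX] at h4
            exact h4
          push Not at h3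
          have h4 : X w ^ 2 ≤ N w / (16 * K) := by
            rw [le_div_iff₀ (by positivity)]
            linarith
          rw [le_div_iff₀ (by positivity)]
          nlinarith [sq_nonneg (X w - e / 4)]
        · have h3 : X w = 0 := by
            rw [hX]
            refine Finset.sum_eq_zero (fun i hi => ?_)
            rw [Set.indicator_of_notMem (fun h4 => hne ⟨i, hi, h4⟩)]
          rw [h3]
          positivity
      linarith
  have i0 : Integrable (fun w => N w / (16 * K)) μ := hNi.div_const _
  have i01 : Integrable (fun w => N w / (16 * K) + (e / 4) ^ 2) μ := i0.add (integrable_const _)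
  have i1 : Integrable (fun w => (N w / (16 * K) + (e / 4) ^ 2) / (e / 2)) μ := i01.div_const _
  have i2 : Integrable (fun w => N w / (4 * K * e)) μ := hNi.div_const _
  have i3 : Integrable (fun w => K * e * G.indicator (1 : Ω → ℝ) w) μ := hgi.const_mul _
  have i12 : Integrable (fun w => (N w / (16 * K) + (e / 4) ^ 2) / (e / 2) +
      N w / (4 * K * e)) μ := i1.add i2
  have hint : Integrable (fun w => (N w / (16 * K) + (e / 4) ^ 2) / (e / 2) +
      N w / (4 * K * e) + K * e * G.indicator (1 : Ω → ℝ) w) μ := i12.add i3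
  have h1 := integral_mono hXi hint key
  rw [hEX] at h1
  have h2 : ∫ w, ((N w / (16 * K) + (e / 4) ^ 2) / (e / 2) + N w / (4 * K * e) +
      K * e * G.indicator (1 : Ω → ℝ) w) ∂μ =
      ((∫ w, N w ∂μ) / (16 * K) + (e / 4) ^ 2) / (e / 2) + (∫ w, N w ∂μ) / (4 * K * e) +
        K * e * μ.real G := by
    rw [integral_add i12 i3, integral_add i1 i2, integral_div, integral_add i0
      (integrable_const _), integral_div, integral_div, integral_const_mul,
      integral_indicator_one hG, integral_const]
    simp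
  rw [h2] at h1
  have h3 : ((∫ w, N w ∂μ) / (16 * K) + (e / 4) ^ 2) / (e / 2) ≤ e / 4 := by
    rw [div_le_iff₀ (by positivity)]
    have : (∫ w, N w ∂μ) / (16 * K) ≤ e ^ 2 / 16 := by
      rw [div_le_iff₀ (by positivity)]
      linarith
    nlinarith
  have h4 : (∫ w, N w ∂μ) / (4 * K * e) ≤ e / 4 := by
    rw [div_le_iff₀ (by positivity)]
    calc ∫ w, N w ∂μ ≤ K * e ^ 2 := hEN
      _ = e / 4 * (4 * K * e) := by ring
  have h5 : e / 2 ≤ K * e * μ.real G := by linarith
  rw [div_le_iff₀ (by positivity)]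
  have h6 : e * 1 ≤ e * (μ.real G * (2 * K)) := by linarith
  exact le_of_mul_le_mul_left h6 hpos

end Pool.Agent.Y197.DP
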