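import Pool.Agent.Y197.DP.Ann
import Pool.Agent.H389R2.NS.E4a

/-! Two-layer probabilities of an arm event, with the exact scale of the noise. -/

set_option autoImplicit false

namespace Pool.Agent.Y197.DP

open H389NS H974 H12S H985T Finset

/-- An arm event of the annuli of `ℤ²` with its pivotal edges and an upper bound of its
probability. -/
structure ArmEv (A : ℕ → ℕ → Set Edg → Prop) (η : ℝ) : Prop where
  congr : ∀ {a N : ℕ} {F G : Set Edg}, F ∩ ↑(An a N) = G ∩ ↑(An a N) → (A a N F ↔ A a N G)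
  outer : ∀ {a b N : ℕ}, a ≤ b → b ≤ N → ∀ {F : Set Edg}, A a N F → A a b F
  mono : ∀ {a b N : ℕ}, a ≤ b → b ≤ N → ∀ {F : Set Edg}, A a N F → A b N F
  flip : ∀ {a N b1 b2 κ : ℕ} {e : Edg}, 1 ≤ a → a ≤ b1 → b2 ≤ N → 1 ≤ κ →
    Disjoint (ebx e (κ + 3)) (boxE b1) → ebx e (κ + 3) ⊆ boxE b2 → ∀ {F : Finset Edg},
    (¬ (A a N (↑(insert e F) : Set Edg) ↔ A a N (↑(F.erase e) : Set Edg))) →
    (A4e κ e (↑F : Set Edg) ∨ A4d κ e F) ∧ A a b1 (↑F : Set Edg) ∧ A b2 N (↑F : Set Edg)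
  pos : 0 < η
  up : ∃ C : ℝ, 0 < C ∧ ∀ a N : ℕ, 1 ≤ a → a ≤ N →
    Pr hp (An a N) (fun F => A a N (↑F : Set Edg)) ≤ C * ((a:ℝ) / N) ^ η

variable {A : ℕ → ℕ → Set Edg → Prop} {η : ℝ}

/-- The one-layer probability. -/
noncomputable def pA (A : ℕ → ℕ → Set Edg → Prop) (a N : ℕ) : ℝ :=
  Pr hp (An a N) (fun F => A a N (↑F : Set Edg))

/-- The two-layer probability. -/
noncomputable def qA (A : ℕ → ℕ → Set Edg → Prop) (x : ℝ) (a N : ℕ) : ℝ :=
  P2 (fun _ => x) (An a N) (fun F => A a N (↑F : Set Edg)) (fun F => A a N (↑F : Set Edg))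

theorem g_loc (hA : ArmEv A η) {a N : ℕ} {T : Finset Edg} (hT : An a N ⊆ T) (F : Finset Edg) :
    A a N (↑F : Set Edg) ↔ A a N (↑(F ∩ T) : Set Edg) := by
  apply hA.congr
  rw [Finset.coe_inter, Set.inter_assoc, Set.inter_eq_right.2 (Finset.coe_subset.2 hT)]

theorem g_local (hA : ArmEv A η) {ρ : Edg → ℝ} {S : Finset Edg} {a N : ℕ} {z : ℝ}
    (hS : An a N ⊆ S) (hz : ∀ e ∈ An a N, ρ e = z) :
    P2 ρ S (fun F => A a N ↑F) (fun F => A a N ↑F) = qA A z a N := by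
  rw [P2_local hS (fun F _ => g_loc hA (Finset.Subset.refl _) F)
    (fun F _ => g_loc hA (Finset.Subset.refl _) F)]
  exact E4_rho hz _ _

theorem g_mono {z y : ℝ} (h0 : 0 ≤ z) (h : z ≤ y) (a N : ℕ) : qA A z a N ≤ qA A y a N :=
  P2_mono_param (fun _ _ => h0) (fun _ _ => h) _

theorem g_nonneg {x : ℝ} (h0 : 0 ≤ x) (h1 : x ≤ 1) (a k : ℕ) : 0 ≤ qA A x a k :=
  D0.P2_nonneg (fun _ _ => ⟨h0, h1⟩) _ _

theorem g_le {x : ℝ} (h0 : 0 ≤ x) (h1 : x ≤ 1) (a k : ℕ) : qA A x a k ≤ pA A a k :=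
  P2_le_Pr (fun _ _ => ⟨h0, h1⟩) _ _

theorem g_zero (a N : ℕ) : qA A 0 a N = pA A a N ^ 2 := E4_zero _ _

theorem g_cont (a N : ℕ) : Continuous fun y => qA A y a N := by
  unfold qA
  exact P2_cont (fun y _ => y) (fun _ => continuous_id) _ _ _

/-- one edge: independence -/
theorem g_edge (hA : ArmEv A η) {k' N' a0 b0 R : ℕ} (hk : 64 ≤ k') (ha0 : a0 = 4 * k')
    (hb0 : 4 * b0 ≤ N') (hR : a0 ≤ R) (hR2 : 2 * R ≤ b0) {e : Edg} (he : e ∈ An R (2 * R))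
    {z : ℝ} (h0 : 0 ≤ z) (h1 : z ≤ 1) :
    P2 (E4r a0 b0 z) (An k' N')
      (fun F => ¬ (A k' N' (↑(insert e F) : Set Edg) ↔ A k' N' (↑(F.erase e) : Set Edg)))
      (fun F => ¬ (A k' N' (↑(insert e F) : Set Edg) ↔ A k' N' (↑(F.erase e) : Set Edg))) ≤
    P2 (E4r a0 b0 z) (An k' N') (fun F => A4e (R / 8) e ↑F ∨ A4d (R / 8) e F)
      (fun F => A4e (R / 8) e ↑F ∨ A4d (R / 8) e F) *
    (P2 (E4r a0 b0 z) (An k' N') (fun F => A k' (R / 2) ↑F) (fun F => A k' (R / 2) ↑F) *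
    P2 (E4r a0 b0 z) (An k' N') (fun F => A (4 * R) N' ↑F) (fun F => A (4 * R) N' ↑F)) := by
  have hρ := E4r_ok (a0 := a0) (b0 := b0) h0 h1 (An k' N')
  rw [INDI_memAn] at he
  have hd1 : Disjoint (ebx e (R / 8 + 3)) (boxE (R / 2)) := E4_ebx_disj he.2 (by omega)
  have hd2 : Disjoint (ebx e (R / 8 + 2)) (boxE (R / 2)) := E4_ebx_disj he.2 (by omega)
  have hs1 : ebx e (R / 8 + 3) ⊆ boxE (4 * R) := E4_ebx_sub he.1 (by omega)
  have hs2 : ebx e (R / 8 + 2) ⊆ boxE (4 * R) := E4_ebx_sub he.1 (by omega)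
  have hflip : ∀ F : Finset Edg, F ⊆ An k' N' →
      (¬ (A k' N' (↑(insert e F) : Set Edg) ↔ A k' N' (↑(F.erase e) : Set Edg))) →
      (A4e (R / 8) e (↑F : Set Edg) ∨ A4d (R / 8) e F) ∧
        (A k' (R / 2) (↑F : Set Edg) ∧ A (4 * R) N' (↑F : Set Edg)) := by
    intro F _ h
    exact hA.flip (by omega) (by omega) (by omega) (by omega) hd1 hs1 h
  refine (D1_mono hρ hflip hflip).trans (le_of_eq ?_)
  have hS1 : ebx e (R / 8 + 2) ⊆ An k' N' := by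
    intro f hf
    rw [INDI_memAn]
    refine ⟨E4_boxE (by omega) (hs2 hf), fun h => ?_⟩
    exact (Finset.disjoint_left.1 hd2) hf (E4_boxE (by omega) h)
  have hT1 : An k' (R / 2) ⊆ An k' N' \ ebx e (R / 8 + 2) := by
    intro f hf
    rw [Finset.mem_sdiff]
    refine ⟨E4_An_sub le_rfl (by omega) hf, fun h => ?_⟩
    exact (Finset.disjoint_left.1 hd2) h (INDI_memAn.1 hf).1
  have hT2 : An (4 * R) N' ⊆ An k' N' \ ebx e (R / 8 + 2) := by
    intro f hf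
    rw [Finset.mem_sdiff]
    refine ⟨E4_An_sub (by omega) le_rfl hf, fun h => ?_⟩
    exact (INDI_memAn.1 hf).2 (hs2 h)
  have hB : ∀ F, F ⊆ An k' N' →
      ((A k' (R / 2) (↑F : Set Edg) ∧ A (4 * R) N' (↑F : Set Edg)) ↔
      (A k' (R / 2) (↑(F ∩ (An k' N' \ ebx e (R / 8 + 2))) : Set Edg) ∧
        A (4 * R) N' (↑(F ∩ (An k' N' \ ebx e (R / 8 + 2))) : Set Edg))) := by
    intro F _
    exact and_congr (g_loc hA hT1 F) (g_loc hA hT2 F)
  have hA4 : ∀ F, F ⊆ An k' N' →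
      ((A4e (R / 8) e (↑F : Set Edg) ∨ A4d (R / 8) e F) ↔
      (A4e (R / 8) e (↑(F ∩ ebx e (R / 8 + 2)) : Set Edg) ∨
        A4d (R / 8) e (F ∩ ebx e (R / 8 + 2)))) := by
    intro F _
    exact E4_four_local (Finset.Subset.refl _) F
  rw [P2_indep (ρ := E4r a0 b0 z) (U := An k' N') (S := ebx e (R / 8 + 2))
    (T := An k' N' \ ebx e (R / 8 + 2))
    (A := fun F => A4e (R / 8) e (↑F : Set Edg) ∨ A4d (R / 8) e F)
    (A' := fun F => A4e (R / 8) e (↑F : Set Edg) ∨ A4d (R / 8) e F)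
    (B := fun F => A k' (R / 2) (↑F : Set Edg) ∧ A (4 * R) N' (↑F : Set Edg))
    (B' := fun F => A k' (R / 2) (↑F : Set Edg) ∧ A (4 * R) N' (↑F : Set Edg))
    hS1 Finset.sdiff_subset Finset.disjoint_sdiff hA4 hA4 hB hB]
  congr 1
  refine P2_indep (ρ := E4r a0 b0 z) (U := An k' N') (S := An k' (R / 2)) (T := An (4 * R) N')
    (A := fun F => A k' (R / 2) (↑F : Set Edg)) (A' := fun F => A k' (R / 2) (↑F : Set Edg))
    (B := fun F => A (4 * R) N' (↑F : Set Edg)) (B' := fun F => A (4 * R) N' (↑F : Set Edg))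
    (E4_An_sub le_rfl (by omega)) (E4_An_sub (by omega) le_rfl) ?_
    (fun F _ => g_loc hA (Finset.Subset.refl _) F) (fun F _ => g_loc hA (Finset.Subset.refl _) F)
    (fun F _ => g_loc hA (Finset.Subset.refl _) F) (fun F _ => g_loc hA (Finset.Subset.refl _) F)
  rw [Finset.disjoint_left]
  intro f hf hf'
  exact (INDI_memAn.1 hf').2 (E4_boxE (by omega) (INDI_memAn.1 hf).1)

/-- the inner factor -/
theorem g_inner (hA : ArmEv A η) {k k' N' a0 b0 R Rm : ℕ} (hk : 64 ≤ k') (hkk : k ≤ k')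
    (ha0 : a0 = 4 * k') (hb0 : 4 * b0 ≤ N') (hNR : N' ≤ Rm) (hR : a0 ≤ R) (hR2 : 2 * R ≤ b0)
    {y M : ℝ} (hM : 1 ≤ M) (hy1 : y ≤ 1)
    (H : ∀ k' N' : ℕ, k ≤ k' → k' ≤ N' → N' ≤ Rm → qA A y k' N' ≤ M * ((k':ℝ) / N') ^ (2 * η))
    {z : ℝ} (h0 : 0 ≤ z) (h1 : z ≤ y) :
    P2 (E4r a0 b0 z) (An k' N') (fun F => A k' (R / 2) ↑F) (fun F => A k' (R / 2) ↑F) ≤
      M * (16 * (k':ℝ) / R) ^ (2 * η) := by
  have hη := hA.pos
  have hρ := E4r_ok (a0 := a0) (b0 := b0) h0 (h1.trans hy1) (An k' N')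
  have hRp : (0:ℝ) < R := by exact_mod_cast (by omega : 0 < R)
  by_cases hc : a0 ≤ R / 2
  · have hm : ∀ F : Finset Edg, F ⊆ An k' N' → A k' (R / 2) (↑F : Set Edg) →
        A a0 (R / 2) (↑F : Set Edg) := fun F _ h => hA.mono (by omega) hc h
    refine (D1_mono hρ hm hm).trans ?_
    rw [g_local hA (z := z) (E4_An_sub (by omega) (by omega)) ?_]
    · refine (g_mono h0 h1 _ _).trans ((H a0 (R / 2) (by omega) hc (by omega)).trans ?_)
      refine mul_le_mul_of_nonneg_left ?_ (by linarith)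
      refine Real.rpow_le_rpow (by positivity) ?_ (by linarith)
      have h2 : 1 ≤ R / 2 := by omega
      have h3 : (1:ℝ) ≤ ((R / 2 : ℕ) : ℝ) := by exact_mod_cast h2
      rw [div_le_div_iff₀ (by linarith) hRp]
      have h4 : R ≤ 4 * (R / 2) := by omega
      have h5 : (R:ℝ) ≤ 4 * ((R / 2 : ℕ) : ℝ) := by exact_mod_cast h4
      have h6 : (a0:ℝ) = 4 * k' := by rw [ha0]; push_cast; ring
      rw [h6]
      nlinarith [Nat.cast_nonneg (α := ℝ) k']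
    · intro e he
      unfold E4r
      rw [if_pos (E4_An_sub le_rfl (by omega) he)]
  · refine (E4_le_one hρ _ _).trans ?_
    have h2 : (1:ℝ) ≤ 16 * (k':ℝ) / R := by
      rw [le_div_iff₀ hRp, one_mul]
      have h3 : R ≤ 16 * k' := by omega
      exact_mod_cast h3
    have h3 : (1:ℝ) ≤ (16 * (k':ℝ) / R) ^ (2 * η) := Real.one_le_rpow h2 (by linarith)
    nlinarith

/-- the outer factor -/
theorem g_outer (hA : ArmEv A η) {k k' N' a0 b0 R Rm : ℕ} (hk : 64 ≤ k') (hkk : k ≤ k')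
    (ha0 : a0 = 4 * k') (hb0 : 4 * b0 ≤ N') (hb1 : N' < 8 * b0) (hNR : N' ≤ Rm) (hR : a0 ≤ R)
    (hR2 : 2 * R ≤ b0) {y M : ℝ} (hM : 1 ≤ M) (hy1 : y ≤ 1)
    (H : ∀ k' N' : ℕ, k ≤ k' → k' ≤ N' → N' ≤ Rm → qA A y k' N' ≤ M * ((k':ℝ) / N') ^ (2 * η))
    {z : ℝ} (h0 : 0 ≤ z) (h1 : z ≤ y) :
    P2 (E4r a0 b0 z) (An k' N') (fun F => A (4 * R) N' ↑F) (fun F => A (4 * R) N' ↑F) ≤
      M * (32 * (R:ℝ) / N') ^ (2 * η) := by
  have hη := hA.pos
  have hρ := E4r_ok (a0 := a0) (b0 := b0) h0 (h1.trans hy1) (An k' N')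
  have hNp : (0:ℝ) < N' := by exact_mod_cast (by omega : 0 < N')
  have hbp : (0:ℝ) < b0 := by exact_mod_cast (by omega : 0 < b0)
  by_cases hc : 4 * R ≤ b0
  · have hm : ∀ F : Finset Edg, F ⊆ An k' N' → A (4 * R) N' (↑F : Set Edg) →
        A (4 * R) b0 (↑F : Set Edg) := fun F _ h => hA.outer hc (by omega) h
    refine (D1_mono hρ hm hm).trans ?_
    rw [g_local hA (z := z) (E4_An_sub (by omega) (by omega)) ?_]
    · refine (g_mono h0 h1 _ _).trans ((H (4 * R) b0 (by omega) hc (by omega)).trans ?_)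
      refine mul_le_mul_of_nonneg_left ?_ (by linarith)
      refine Real.rpow_le_rpow (by positivity) ?_ (by linarith)
      rw [div_le_div_iff₀ hbp hNp]
      have h5 : (N':ℝ) ≤ 8 * b0 := by exact_mod_cast hb1.le
      push_cast
      nlinarith [Nat.cast_nonneg (α := ℝ) R]
    · intro e he
      unfold E4r
      rw [if_pos (E4_An_sub (by omega) le_rfl he)]
  · refine (E4_le_one hρ _ _).trans ?_
    have h2 : (1:ℝ) ≤ 32 * (R:ℝ) / N' := by
      rw [le_div_iff₀ hNp, one_mul]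
      have h3 : N' ≤ 32 * R := by omega
      exact_mod_cast h3
    have h3 : (1:ℝ) ≤ (32 * (R:ℝ) / N') ^ (2 * η) := Real.one_le_rpow h2 (by linarith)
    nlinarith

/-- one step -/
theorem g_step (hA : ArmEv A η) : ∃ (C1 C c : ℝ), 1 ≤ C1 ∧ 0 < C ∧ 0 < c ∧
    ∀ (q k R : ℕ) (y M : ℝ), 64 ≤ k → q ≤ k → Adm q y → 0 ≤ y → 1 ≤ M →
      (∀ k' N' : ℕ, k ≤ k' → k' ≤ N' → N' ≤ R → qA A y k' N' ≤ M * ((k':ℝ) / N') ^ (2 * η)) →
      ∀ k' N' : ℕ, k ≤ k' → k' ≤ N' → N' ≤ R →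
        qA A y k' N' ≤ (C1 + C * ((q:ℝ) / k) ^ c * M ^ 2) * ((k':ℝ) / N') ^ (2 * η) := by
  have hη := hA.pos
  obtain ⟨CA, hCA, HA⟩ := hA.up
  obtain ⟨C0, c, hC0, hc, HS⟩ := ann_ratio
  have hr0 : 0 < (2:ℝ) ^ (-c) := Real.rpow_pos_of_pos (by norm_num) _
  have hr1 : (2:ℝ) ^ (-c) < 1 := Real.rpow_lt_one_of_one_lt_of_neg (by norm_num) (by linarith)
  have h1r : 0 < 1 - (2:ℝ) ^ (-c) := by linarith
  obtain ⟨B, hB⟩ : ∃ B : ℝ, B = (4096:ℝ) ^ (2 * η) := ⟨_, rfl⟩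
  have hB1 : 1 ≤ B := by rw [hB]; exact Real.one_le_rpow (by norm_num) (by linarith)
  refine ⟨B + CA ^ 2 * 32 ^ (2 * η), 512 ^ (2 * η) * (C0 * (1 / (1 - (2:ℝ) ^ (-c)))), c,
    ?_, by positivity, hc, ?_⟩
  · have : 0 ≤ CA ^ 2 * (32:ℝ) ^ (2 * η) := by positivity
    linarith
  intro q k Rm y M hk hqk hadm hy0 hM H k' N' hkk hkN hNR
  have hq1 := hadm.one
  have hqp : (0:ℝ) < q := by exact_mod_cast hq1
  have hkp : (0:ℝ) < k := by exact_mod_cast (by omega : 0 < k)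
  have hk'p : (0:ℝ) < k' := by exact_mod_cast (by omega : 0 < k')
  have hN'p : (0:ℝ) < N' := by exact_mod_cast (by omega : 0 < N')
  have hy1' : y ≤ 1 := hadm.lt_one.le
  have hM2 : 0 ≤ M ^ 2 := by positivity
  have hCk : 0 ≤ 512 ^ (2 * η) * (C0 * (1 / (1 - (2:ℝ) ^ (-c)))) * ((q:ℝ) / k) ^ c * M ^ 2 := by
    positivity
  have ht0 : 0 ≤ ((k':ℝ) / N') ^ (2 * η) := by positivity
  by_cases hbig : N' < 4096 * k'
  · have h1 : qA A y k' N' ≤ 1 := E4_le_one (fun _ _ => ⟨hy0, hy1'⟩) _ _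
    have h3 : 1 ≤ B * ((k':ℝ) / N') ^ (2 * η) := by
      rw [hB, ← Real.mul_rpow (by norm_num) (by positivity)]
      refine Real.one_le_rpow ?_ (by linarith)
      rw [← mul_div_assoc, le_div_iff₀ hN'p, one_mul]
      exact_mod_cast hbig.le
    have h4 : 0 ≤ CA ^ 2 * (32:ℝ) ^ (2 * η) := by positivity
    calc qA A y k' N' ≤ 1 := h1
      _ ≤ B * ((k':ℝ) / N') ^ (2 * η) := h3
      _ ≤ _ := mul_le_mul_of_nonneg_right (by linarith) ht0
  push Not at hbig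
  -- scales
  obtain ⟨u, hu⟩ : ∃ u : ℕ, u = N' / (16 * k') := ⟨_, rfl⟩
  have hu1 : 1 ≤ u := by
    rw [hu, Nat.one_le_div_iff (by omega)]
    omega
  obtain ⟨I, hI⟩ : ∃ I : ℕ, I = Nat.log 2 u := ⟨_, rfl⟩
  have hI1 : 2 ^ I ≤ u := by rw [hI]; exact Nat.pow_log_le_self 2 (by omega)
  have hI2 : u < 2 ^ (I + 1) := by rw [hI]; exact Nat.lt_pow_succ_log_self (by norm_num) u
  obtain ⟨a0, ha0⟩ : ∃ a0 : ℕ, a0 = 4 * k' := ⟨_, rfl⟩
  obtain ⟨b0, hb0⟩ : ∃ b0 : ℕ, b0 = a0 * 2 ^ I := ⟨_, rfl⟩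
  have hb4 : 4 * b0 ≤ N' := by
    calc 4 * b0 = 16 * k' * 2 ^ I := by rw [hb0, ha0]; ring
      _ ≤ 16 * k' * u := Nat.mul_le_mul_left _ hI1
      _ ≤ N' := by rw [hu]; exact Nat.mul_div_le _ _
  have hb8 : N' < 8 * b0 := by
    have h1 : N' < 16 * k' * (u + 1) := by
      rw [hu]
      exact Nat.lt_mul_div_succ _ (by omega)
    calc N' < 16 * k' * (u + 1) := h1
      _ ≤ 16 * k' * 2 ^ (I + 1) := Nat.mul_le_mul_left _ hI2
      _ = 8 * b0 := by rw [hb0, ha0]; ring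
  have hab : a0 ≤ b0 := by rw [hb0]; exact Nat.le_mul_of_pos_right _ (by positivity)
  have hb0p : (0:ℝ) < b0 := by exact_mod_cast (by omega : 0 < b0)
  have hZS : An a0 b0 ⊆ An k' N' := E4_An_sub (by omega) (by omega)
  -- decrease of the correlation
  have s1 : qA A y k' N' ≤ P2 (E4r a0 b0 y) (An k' N') (fun F => A k' N' ↑F)
      (fun F => A k' N' ↑F) := by
    refine P2_mono_param (fun _ _ => hy0) (fun e _ => ?_) _
    unfold E4r
    split_ifs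
    · exact le_rfl
    · exact hy1'
  have s2 := P2_deriv (ρ := fun _ => (1:ℝ)) (S := An k' N') (N := An a0 b0) hZS
    (fun _ _ => ⟨zero_le_one, le_rfl⟩) (fun F => A k' N' (↑F : Set Edg)) hy0 hy1'
  -- the first term
  have s3 : P2 (E4r a0 b0 0) (An k' N') (fun F => A k' N' ↑F) (fun F => A k' N' ↑F) ≤
      CA ^ 2 * 32 ^ (2 * η) * ((k':ℝ) / N') ^ (2 * η) := by
    have hρ := E4r_ok (a0 := a0) (b0 := b0) le_rfl zero_le_one (An k' N')
    have hm : ∀ F : Finset Edg, F ⊆ An k' N' → A k' N' (↑F : Set Edg) →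
        A a0 b0 (↑F : Set Edg) :=
      fun F _ h => hA.outer hab (by omega) (hA.mono (by omega) (by omega) h)
    refine (D1_mono hρ hm hm).trans ?_
    rw [g_local hA (z := 0) hZS (fun e he => by unfold E4r; rw [if_pos he])]
    rw [g_zero]
    have h1 : pA A a0 b0 ≤ CA * ((a0:ℝ) / b0) ^ η := HA a0 b0 (by omega) hab
    have h2 : 0 ≤ pA A a0 b0 := Pr_nonneg E4_ok _ _
    have h3 : (CA * ((a0:ℝ) / b0) ^ η) ^ 2 = CA ^ 2 * ((a0:ℝ) / b0) ^ (2 * η) := by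
      rw [mul_pow, ← Real.rpow_natCast (((a0:ℝ) / b0) ^ η) 2,
        ← Real.rpow_mul (by positivity)]
      congr 2
      push_cast
      ring
    have h4 : ((a0:ℝ) / b0) ^ (2 * η) ≤ 32 ^ (2 * η) * ((k':ℝ) / N') ^ (2 * η) := by
      rw [← Real.mul_rpow (by norm_num) (by positivity)]
      refine Real.rpow_le_rpow (by positivity) ?_ (by linarith)
      rw [← mul_div_assoc, div_le_div_iff₀ hb0p hN'p]
      have h5 : (N':ℝ) ≤ 8 * b0 := by exact_mod_cast hb8.le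
      have h6 : (a0:ℝ) = 4 * k' := by rw [ha0]; push_cast; ring
      rw [h6]
      nlinarith
    calc (pA A a0 b0) ^ 2
        ≤ (CA * ((a0:ℝ) / b0) ^ η) ^ 2 := pow_le_pow_left₀ h2 h1 2
      _ = CA ^ 2 * ((a0:ℝ) / b0) ^ (2 * η) := h3
      _ ≤ CA ^ 2 * (32 ^ (2 * η) * ((k':ℝ) / N') ^ (2 * η)) :=
          mul_le_mul_of_nonneg_left h4 (by positivity)
      _ = _ := by ring
  -- the second term
  obtain ⟨X, hX⟩ : ∃ X : ℝ, X = M ^ 2 * (512 ^ (2 * η) * ((k':ℝ) / N') ^ (2 * η)) := ⟨_, rfl⟩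
  have hX0 : 0 ≤ X := by rw [hX]; positivity
  have s4 : ∀ R : ℕ, a0 ≤ R → 2 * R ≤ b0 → ∀ e ∈ An R (2 * R),
      (∫ z in (0:ℝ)..y, P2 (E4r a0 b0 z) (An k' N')
      (fun F => ¬ (A k' N' (↑(insert e F) : Set Edg) ↔ A k' N' (↑(F.erase e) : Set Edg)))
      (fun F => ¬ (A k' N' (↑(insert e F) : Set Edg) ↔ A k' N' (↑(F.erase e) : Set Edg)))) ≤
      X * ∫ z in (0:ℝ)..y, P2 (E4r a0 b0 z) (An k' N')
        (fun F => A4e (R / 8) e ↑F ∨ A4d (R / 8) e F) (fun F => A4e (R / 8) e ↑F ∨ A4d (R / 8) e F) := by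
    intro R hR hR2 e he
    have hRp : (0:ℝ) < R := by exact_mod_cast (by omega : 0 < R)
    rw [← intervalIntegral.integral_const_mul]
    have hcont : ∀ B : Finset Edg → Prop, Continuous fun z => P2 (E4r a0 b0 z) (An k' N') B B := by
      intro B
      refine P2_cont _ (fun e => ?_) _ _ _
      unfold E4r
      split_ifs
      · exact continuous_id
      · exact continuous_const
    refine intervalIntegral.integral_mono_on hy0 ((hcont _).intervalIntegrable _ _)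
      (((hcont _).const_mul _).intervalIntegrable _ _) fun z hz => ?_
    have hz1 : z ≤ 1 := hz.2.trans hy1'
    refine (g_edge hA (by omega) ha0 hb4 hR hR2 he hz.1 hz1).trans ?_
    have i1 := g_inner hA (k := k) (k' := k') (Rm := Rm) (by omega) hkk ha0 hb4 hNR hR hR2 hM
      hy1' H hz.1 hz.2
    have i2 := g_outer hA (k := k) (k' := k') (Rm := Rm) (by omega) hkk ha0 hb4 hb8 hNR hR hR2 hM
      hy1' H hz.1 hz.2
    have hρ := E4r_ok (a0 := a0) (b0 := b0) hz.1 hz1 (An k' N')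
    have n1 := D1_nonneg hρ (fun F => A4e (R / 8) e (↑F : Set Edg) ∨ A4d (R / 8) e F)
      (fun F => A4e (R / 8) e (↑F : Set Edg) ∨ A4d (R / 8) e F)
    have n3 := D1_nonneg hρ (fun F => A (4 * R) N' (↑F : Set Edg))
      (fun F => A (4 * R) N' (↑F : Set Edg))
    rw [mul_comm X]
    refine mul_le_mul_of_nonneg_left ?_ n1
    refine (mul_le_mul i1 i2 n3 (by positivity)).trans (le_of_eq ?_)
    rw [hX]
    have h5 : (16 * (k':ℝ) / R) ^ (2 * η) * (32 * (R:ℝ) / N') ^ (2 * η) =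
        512 ^ (2 * η) * ((k':ℝ) / N') ^ (2 * η) := by
      rw [← Real.mul_rpow (by positivity) (by positivity),
        ← Real.mul_rpow (by norm_num) (by positivity)]
      congr 1
      field_simp
      norm_num
    calc M * (16 * (k':ℝ) / R) ^ (2 * η) * (M * (32 * (R:ℝ) / N') ^ (2 * η))
        = M ^ 2 * ((16 * (k':ℝ) / R) ^ (2 * η) * (32 * (R:ℝ) / N') ^ (2 * η)) := by ring
      _ = _ := by rw [h5]
  have s5 : ∑ e ∈ An a0 b0, (∫ z in (0:ℝ)..y, P2 (E4r a0 b0 z) (An k' N')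
      (fun F => ¬ (A k' N' (↑(insert e F) : Set Edg) ↔ A k' N' (↑(F.erase e) : Set Edg)))
      (fun F => ¬ (A k' N' (↑(insert e F) : Set Edg) ↔ A k' N' (↑(F.erase e) : Set Edg)))) ≤
      X * (C0 * (((q:ℝ) / k) ^ c * (1 / (1 - (2:ℝ) ^ (-c))))) := by
    have e1 : An a0 b0 = An a0 (a0 * 2 ^ I) := by rw [hb0]
    rw [e1, E4_sum]
    have hterm : ∀ i ∈ Finset.range I, ∑ e ∈ An (a0 * 2 ^ i) (2 * (a0 * 2 ^ i)),
        (∫ z in (0:ℝ)..y, P2 (E4r a0 b0 z) (An k' N')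
      (fun F => ¬ (A k' N' (↑(insert e F) : Set Edg) ↔ A k' N' (↑(F.erase e) : Set Edg)))
      (fun F => ¬ (A k' N' (↑(insert e F) : Set Edg) ↔ A k' N' (↑(F.erase e) : Set Edg)))) ≤
      X * (C0 * ((q:ℝ) ^ c * ((a0 * 2 ^ i : ℕ) : ℝ) ^ (-c))) := by
      intro i hi
      rw [Finset.mem_range] at hi
      obtain ⟨R, hR⟩ : ∃ R : ℕ, R = a0 * 2 ^ i := ⟨_, rfl⟩
      rw [← hR]
      have hR1 : a0 ≤ R := by rw [hR]; exact Nat.le_mul_of_pos_right _ (by positivity)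
      have hR2 : 2 * R ≤ b0 := by
        calc 2 * R = a0 * 2 ^ (i + 1) := by rw [hR]; ring
          _ ≤ a0 * 2 ^ I := Nat.mul_le_mul_left _ (Nat.pow_le_pow_right (by norm_num) (by omega))
          _ = b0 := hb0.symm
      refine (Finset.sum_le_sum (s4 R hR1 hR2)).trans ?_
      rw [← Finset.mul_sum]
      refine mul_le_mul_of_nonneg_left ?_ hX0
      refine (HS a0 R b0 (An k' N') (by omega) hR1 hR2 ?_ q y hy0 hadm (by omega)).trans
        (le_of_eq ?_)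
      · intro e he
        rw [INDI_memAn] at he
        intro f hf
        rw [INDI_memAn]
        refine ⟨E4_boxE (by omega) (E4_ebx_sub (N := 4 * R) he.1 (by omega) hf), fun h => ?_⟩
        have hd2 : Disjoint (ebx e (R / 8 + 2)) (boxE (R / 2)) := E4_ebx_disj he.2 (by omega)
        exact (Finset.disjoint_left.1 hd2) hf (E4_boxE (by omega) h)
      · rw [Real.div_rpow hqp.le (Nat.cast_nonneg _), Real.rpow_neg (Nat.cast_nonneg _),
          div_eq_mul_inv]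
    refine (Finset.sum_le_sum hterm).trans ?_
    rw [← Finset.mul_sum, ← Finset.mul_sum, ← Finset.mul_sum]
    refine mul_le_mul_of_nonneg_left (mul_le_mul_of_nonneg_left ?_ hC0.le) hX0
    have h6 := E4_geom c hc (k := k) (a0 := a0) (by omega) (by omega) I
    refine (mul_le_mul_of_nonneg_left h6 (by positivity)).trans (le_of_eq ?_)
    rw [Real.div_rpow hqp.le hkp.le, Real.rpow_neg hkp.le]
    ring
  have s6 : qA A y k' N' ≤ CA ^ 2 * 32 ^ (2 * η) * ((k':ℝ) / N') ^ (2 * η) +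
      X * (C0 * (((q:ℝ) / k) ^ c * (1 / (1 - (2:ℝ) ^ (-c))))) :=
    s1.trans (s2.trans (add_le_add s3 s5))
  refine s6.trans ?_
  rw [hX]
  have h64 : 0 ≤ B * ((k':ℝ) / N') ^ (2 * η) := by positivity
  calc CA ^ 2 * 32 ^ (2 * η) * ((k':ℝ) / N') ^ (2 * η) +
      M ^ 2 * (512 ^ (2 * η) * ((k':ℝ) / N') ^ (2 * η)) *
        (C0 * (((q:ℝ) / k) ^ c * (1 / (1 - (2:ℝ) ^ (-c)))))
      ≤ B * ((k':ℝ) / N') ^ (2 * η) + (CA ^ 2 * 32 ^ (2 * η) * ((k':ℝ) / N') ^ (2 * η) +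
      M ^ 2 * (512 ^ (2 * η) * ((k':ℝ) / N') ^ (2 * η)) *
        (C0 * (((q:ℝ) / k) ^ c * (1 / (1 - (2:ℝ) ^ (-c)))))) := by linarith
    _ = _ := by ring

/-- Above the scale of the noise the two layers are independent, up to a constant. -/
theorem g_far (hA : ArmEv A η) : ∃ (C1 : ℝ) (A0 : ℕ), 1 ≤ C1 ∧ 64 ≤ A0 ∧
    ∀ (q k R : ℕ) (y : ℝ), Adm q y → A0 * q ≤ k → k ≤ R → 0 ≤ y →
      qA A y k R ≤ C1 * ((k:ℝ) / R) ^ (2 * η) := by
  have hη := hA.pos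
  obtain ⟨C0, hC0, hup⟩ := hA.up
  obtain ⟨C1, C, c, hC1, hC, hc, hstep⟩ := g_step hA
  obtain ⟨D, hD⟩ : ∃ D : ℝ, D = max C1 (C0 ^ 2) := ⟨_, rfl⟩
  have hD1 : C1 ≤ D := by rw [hD]; exact le_max_left _ _
  have hD0 : C0 ^ 2 ≤ D := by rw [hD]; exact le_max_right _ _
  have hDpos : 0 < D := by linarith
  -- choice of the constant
  have hlim : Filter.Tendsto (fun k : ℕ => (4 * C * D) * (k:ℝ) ^ (-c)) Filter.atTop (nhds 0) := by
    have h1 := (tendsto_rpow_neg_atTop hc).comp (tendsto_natCast_atTop_atTop (R := ℝ))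
    have h2 := h1.const_mul (4 * C * D)
    rw [mul_zero] at h2
    exact h2
  obtain ⟨K2, hK2⟩ := Filter.eventually_atTop.1
    (hlim.eventually_lt_const (show (0:ℝ) < 1 by norm_num))
  refine ⟨2 * D, max 64 K2, by linarith, le_max_left _ _, ?_⟩
  intro q k R y hadm hk hkR hy0
  have hq1 := hadm.one
  have hqp : (0:ℝ) < q := by exact_mod_cast hq1
  obtain ⟨A0, hA0⟩ : ∃ A0 : ℕ, A0 = max 64 K2 := ⟨_, rfl⟩
  rw [← hA0] at hk
  have hA064 : 64 ≤ A0 := by rw [hA0]; exact le_max_left _ _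
  have hA0K : K2 ≤ A0 := by rw [hA0]; exact le_max_right _ _
  have hk64 : 64 ≤ k := le_trans (by nlinarith) hk
  have hqk : q ≤ k := le_trans (by nlinarith) hk
  have hk2 := hK2 A0 hA0K
  have hkpos : (0:ℝ) < k := by exact_mod_cast (by omega : 0 < k)
  have hA0p : (0:ℝ) < A0 := by exact_mod_cast (by omega : 0 < A0)
  have hratio : ((q:ℝ) / k) ^ c ≤ (A0:ℝ) ^ (-c) := by
    rw [Real.rpow_neg hA0p.le, ← Real.inv_rpow hA0p.le]
    refine Real.rpow_le_rpow (by positivity) ?_ hc.le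
    rw [div_le_iff₀ hkpos, inv_mul_eq_div, le_div_iff₀ hA0p]
    have h1 : ((A0 * q : ℕ) : ℝ) ≤ k := by exact_mod_cast hk
    push_cast at h1
    linarith
  have hgain : C1 + C * ((q:ℝ) / k) ^ c * (2 * D) ^ 2 < 2 * D := by
    have h1 : C * ((q:ℝ) / k) ^ c * (2 * D) ^ 2 = (4 * C * D * ((q:ℝ) / k) ^ c) * D := by ring
    rw [h1]
    have h2 : 4 * C * D * ((q:ℝ) / k) ^ c < 1 :=
      lt_of_le_of_lt (mul_le_mul_of_nonneg_left hratio (by positivity)) hk2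
    have := mul_lt_mul_of_pos_right h2 hDpos
    linarith
  obtain ⟨s, hs⟩ : ∃ s : Set ℝ, s = {y | ∀ k' N' : ℕ, k ≤ k' → k' ≤ N' → N' ≤ R →
    qA A y k' N' ≤ (2 * D) * ((k':ℝ) / N') ^ (2 * η)} := ⟨_, rfl⟩
  have hclosed : IsClosed s := by
    rw [hs]
    simp only [Set.ofPred_forall]
    refine isClosed_iInter fun k' => isClosed_iInter fun N' => isClosed_iInter fun _ =>
      isClosed_iInter fun _ => isClosed_iInter fun _ => ?_
    exact isClosed_le (g_cont k' N') continuous_const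
  have h0 : (0:ℝ) ∈ s := by
    rw [hs]
    intro k' N' h1 h2 h3
    rw [g_zero]
    have hk' : (0:ℝ) < k' := by exact_mod_cast (by omega : 0 < k')
    have hN' : (0:ℝ) < N' := by exact_mod_cast (by omega : 0 < N')
    have h4 : pA A k' N' ≤ C0 * ((k':ℝ) / N') ^ η := hup k' N' (by omega) h2
    have h5 : 0 ≤ pA A k' N' := Pr_nonneg E4_ok _ _
    have h6 : (((k':ℝ) / N') ^ η) ^ 2 = ((k':ℝ) / N') ^ (2 * η) := by
      rw [← Real.rpow_natCast, ← Real.rpow_mul (by positivity)]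
      congr 1
      push_cast
      ring
    calc pA A k' N' ^ 2 ≤ (C0 * ((k':ℝ) / N') ^ η) ^ 2 := pow_le_pow_left₀ h5 h4 2
      _ = C0 ^ 2 * ((k':ℝ) / N') ^ (2 * η) := by rw [mul_pow, h6]
      _ ≤ (2 * D) * ((k':ℝ) / N') ^ (2 * η) :=
          mul_le_mul_of_nonneg_right (by linarith) (by positivity)
  have hsub : Set.Icc 0 y ⊆ s := by
    apply IsClosed.Icc_subset_of_forall_mem_nhdsWithin (hclosed.inter isClosed_Icc) h0
    rintro x ⟨hx, hx0, hxY⟩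
    apply mem_nhdsWithin_of_mem_nhds
    rw [hs] at hx
    have h1 := hstep q k R x (2 * D) hk64 hqk (hadm.le hxY.le) hx0 (by linarith) hx
    have h2 : ∀ k' ∈ Finset.range (R + 1), ∀ᶠ z in nhds x, ∀ N' ∈ Finset.range (R + 1),
        (k ≤ k' → k' ≤ N' → N' ≤ R → qA A z k' N' ≤ (2 * D) * ((k':ℝ) / N') ^ (2 * η)) := by
      intro k' _
      rw [Filter.eventually_all_finset]
      intro N' _
      by_cases hkk : k ≤ k' ∧ k' ≤ N' ∧ N' ≤ R
      · obtain ⟨a1, a2, a3⟩ := hkk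
        have hk' : (0:ℝ) < k' := by exact_mod_cast (by omega : 0 < k')
        have hN' : (0:ℝ) < N' := by exact_mod_cast (by omega : 0 < N')
        have h3 : qA A x k' N' < (2 * D) * ((k':ℝ) / N') ^ (2 * η) := by
          refine (h1 k' N' a1 a2 a3).trans_lt ?_
          exact mul_lt_mul_of_pos_right hgain (by positivity)
        have h4 : ∀ᶠ z in nhds x, qA A z k' N' < (2 * D) * ((k':ℝ) / N') ^ (2 * η) :=
          (g_cont k' N').continuousAt.eventually (gt_mem_nhds h3)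
        filter_upwards [h4] with z hz _ _ _
        exact hz.le
      · filter_upwards with z a1 a2 a3
        exact absurd ⟨a1, a2, a3⟩ hkk
    rw [← Filter.eventually_all_finset] at h2
    filter_upwards [h2] with z hz
    rw [hs]
    intro k' N' a1 a2 a3
    exact hz k' (Finset.mem_range.2 (by omega)) N' (Finset.mem_range.2 (by omega)) a1 a2 a3
  have hy := hsub ⟨hy0, le_rfl⟩
  rw [hs] at hy
  exact hy k R le_rfl hkR le_rfl

/-- submultiplicativity -/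
theorem g_submul (hA : ArmEv A η) {x : ℝ} (h0 : 0 ≤ x) (h1 : x ≤ 1) {a k R : ℕ} (hak : a ≤ k)
    (hkR : k ≤ R) : qA A x a R ≤ qA A x a k * qA A x k R := by
  have hS : An a k ⊆ An a R := E4_An_sub le_rfl hkR
  have hT : An k R ⊆ An a R := E4_An_sub hak le_rfl
  have hST : Disjoint (An a k) (An k R) := by
    rw [Finset.disjoint_left]
    intro e he he'
    exact (INDI_memAn.1 he').2 (INDI_memAn.1 he).1
  have hρ : ∀ e ∈ An a R, 0 ≤ (fun _ : Edg => x) e ∧ (fun _ : Edg => x) e ≤ 1 :=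
    fun _ _ => ⟨h0, h1⟩
  have l1 : ∀ F : Finset Edg, F ⊆ An a R → (A a k (↑F : Set Edg) ↔
      A a k (↑(F ∩ An a k) : Set Edg)) := fun F _ => g_loc hA (Finset.Subset.refl _) F
  have l2 : ∀ F : Finset Edg, F ⊆ An a R → (A k R (↑F : Set Edg) ↔
      A k R (↑(F ∩ An k R) : Set Edg)) := fun F _ => g_loc hA (Finset.Subset.refl _) F
  calc qA A x a R = P2 (fun _ => x) (An a R) (fun F => A a R ↑F) (fun F => A a R ↑F) := rfl
    _ ≤ P2 (fun _ => x) (An a R) (fun F => A a k ↑F ∧ A k R ↑F)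
          (fun F => A a k ↑F ∧ A k R ↑F) :=
        D0.P2_mono hρ (fun F _ h => ⟨hA.outer hak hkR h, hA.mono hak hkR h⟩)
          (fun F _ h => ⟨hA.outer hak hkR h, hA.mono hak hkR h⟩)
    _ = P2 (fun _ => x) (An a R) (fun F => A a k ↑F) (fun F => A a k ↑F) *
          P2 (fun _ => x) (An a R) (fun F => A k R ↑F) (fun F => A k R ↑F) :=
        P2_indep hS hT hST l1 l1 l2 l2
    _ = qA A x a k * qA A x k R := by
        rw [g_local hA hS (fun _ _ => rfl), g_local hA hT (fun _ _ => rfl)]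

theorem pow_split {a R η : ℝ} (ha : 0 < a) (hR : 0 < R) :
    (a / R) ^ η = (a / R) ^ (2 * η) * (R / a) ^ η := by
  have h : R / a = (a / R)⁻¹ := by rw [inv_div]
  have hp : 0 < a / R := div_pos ha hR
  rw [h, Real.inv_rpow hp.le, ← Real.rpow_neg hp.le, ← Real.rpow_add hp]
  congr 1
  ring

/-- **The two-layer bound.** -/
theorem g_bound (hA : ArmEv A η) : ∃ C : ℝ, 0 < C ∧ ∀ (a R : ℕ) (x : ℝ), 1 ≤ a → a ≤ R → 0 ≤ x →
    x < 1 → qA A x a R ≤ C * (1 - x) ^ (-(4/3 * η) : ℝ) * ((a:ℝ) / R) ^ (2 * η) := by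
  have hη := hA.pos
  obtain ⟨C1, A0, hC1, hA0, hfar⟩ := g_far hA
  obtain ⟨C0, hC0, hup⟩ := hA.up
  obtain ⟨Cs, hCs, hsc⟩ := adm_scale
  obtain ⟨B, hB⟩ : ∃ B : ℝ, B = ((A0:ℝ) * Cs) ^ η := ⟨_, rfl⟩
  have hA0r : (64:ℝ) ≤ A0 := by exact_mod_cast hA0
  have hACs : (1:ℝ) ≤ (A0:ℝ) * Cs := by nlinarith
  have hB1 : 1 ≤ B := by rw [hB]; exact Real.one_le_rpow hACs hη.le
  refine ⟨(C0 + C0 * C1 + C1) * B, by positivity, ?_⟩
  intro a R x ha haR hx0 hx1
  obtain ⟨q, hadm, hq⟩ := hsc x hx0 hx1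
  have h1x : 0 < 1 - x := by linarith
  have h1x1 : 1 - x ≤ 1 := by linarith
  have ha0 : (0:ℝ) < a := by exact_mod_cast ha
  have ha1 : (1:ℝ) ≤ a := by exact_mod_cast ha
  have hR0 : (0:ℝ) < R := by exact_mod_cast (ha.trans haR)
  obtain ⟨s, hs⟩ : ∃ s : ℝ, s = (1 - x) ^ (-(4/3 * η) : ℝ) := ⟨_, rfl⟩
  have hs1 : 1 ≤ s := by
    rw [hs]; exact Real.one_le_rpow_of_pos_of_le_one_of_nonpos h1x h1x1 (by linarith)
  obtain ⟨k, hk⟩ : ∃ k : ℕ, k = A0 * q := ⟨_, rfl⟩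
  have hq1 := hadm.one
  have hk1 : 1 ≤ k := by rw [hk]; exact Nat.one_le_iff_ne_zero.mpr (by positivity)
  have hk0 : (0:ℝ) < k := by exact_mod_cast hk1
  have hkη : (k:ℝ) ^ η ≤ B * s := by
    have h1 : (k:ℝ) ≤ (A0 * Cs) * (1 - x) ^ (-(4/3) : ℝ) := by
      rw [hk]
      push_cast
      calc (A0:ℝ) * q ≤ A0 * (Cs * (1 - x) ^ (-(4/3) : ℝ)) :=
            mul_le_mul_of_nonneg_left hq (by linarith)
        _ = _ := by ring
    have h2 := Real.rpow_le_rpow hk0.le h1 hη.le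
    rw [Real.mul_rpow (by linarith) (by positivity), ← Real.rpow_mul h1x.le] at h2
    rw [hB, hs]
    refine h2.trans (le_of_eq ?_)
    congr 2
    ring
  have hhalf : 0 ≤ ((a:ℝ) / R) ^ (2 * η) := by positivity
  have hC01 : 0 ≤ C0 * C1 := by positivity
  have fin : ∀ D : ℝ, 0 ≤ D → D ≤ C0 + C0 * C1 + C1 →
      qA A x a R ≤ D * (B * s) * ((a:ℝ) / R) ^ (2 * η) →
      qA A x a R ≤ (C0 + C0 * C1 + C1) * B * s * ((a:ℝ) / R) ^ (2 * η) := by
    intro D hD hD' h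
    refine h.trans ?_
    have : D * (B * s) ≤ (C0 + C0 * C1 + C1) * (B * s) :=
      mul_le_mul_of_nonneg_right hD' (by positivity)
    have h2 := mul_le_mul_of_nonneg_right this hhalf
    linarith [h2]
  rw [← hs]
  by_cases hRk : R ≤ k
  · apply fin C0 hC0.le (by linarith)
    have h1 : qA A x a R ≤ C0 * ((a:ℝ) / R) ^ η := (g_le hx0 hx1.le a R).trans (hup a R ha haR)
    rw [pow_split ha0 hR0] at h1
    have h2 : ((R:ℝ) / a) ^ η ≤ B * s := by
      refine le_trans ?_ hkη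
      apply Real.rpow_le_rpow (by positivity) _ hη.le
      have h3 : (R:ℝ) ≤ k := by exact_mod_cast hRk
      rw [div_le_iff₀ ha0]
      nlinarith
    calc qA A x a R ≤ C0 * (((a:ℝ) / R) ^ (2 * η) * ((R:ℝ) / a) ^ η) := h1
      _ ≤ C0 * (((a:ℝ) / R) ^ (2 * η) * (B * s)) :=
          mul_le_mul_of_nonneg_left (mul_le_mul_of_nonneg_left h2 hhalf) hC0.le
      _ = _ := by ring
  · push Not at hRk
    by_cases hak : a ≤ k
    · apply fin (C0 * C1) hC01 (by linarith)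
      have h1 := g_submul hA hx0 hx1.le hak hRk.le
      have h2 : qA A x a k ≤ C0 * ((a:ℝ) / k) ^ η :=
        (g_le hx0 hx1.le a k).trans (hup a k ha hak)
      have h3 := hfar q k R x hadm (by rw [hk]) hRk.le hx0
      rw [pow_split ha0 hk0] at h2
      have h4 : ((k:ℝ) / a) ^ η ≤ B * s := by
        refine le_trans ?_ hkη
        apply Real.rpow_le_rpow (by positivity) _ hη.le
        rw [div_le_iff₀ ha0]
        nlinarith
      have h5 : ((a:ℝ) / k) ^ (2 * η) * ((k:ℝ) / R) ^ (2 * η) = ((a:ℝ) / R) ^ (2 * η) := by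
        rw [← Real.mul_rpow (by positivity) (by positivity)]
        congr 1
        field_simp
      calc qA A x a R ≤ qA A x a k * qA A x k R := h1
        _ ≤ (C0 * (((a:ℝ) / k) ^ (2 * η) * ((k:ℝ) / a) ^ η)) *
            (C1 * ((k:ℝ) / R) ^ (2 * η)) :=
            mul_le_mul h2 h3 (g_nonneg hx0 hx1.le _ _) (by positivity)
        _ = C0 * C1 * ((k:ℝ) / a) ^ η *
            (((a:ℝ) / k) ^ (2 * η) * ((k:ℝ) / R) ^ (2 * η)) := by ring
        _ = C0 * C1 * ((k:ℝ) / a) ^ η * ((a:ℝ) / R) ^ (2 * η) := by rw [h5]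
        _ ≤ C0 * C1 * (B * s) * ((a:ℝ) / R) ^ (2 * η) :=
            mul_le_mul_of_nonneg_right (mul_le_mul_of_nonneg_left h4 hC01) hhalf
    · push Not at hak
      apply fin C1 (by linarith) (by linarith)
      have h3 := hfar q a R x hadm (by omega) haR hx0
      refine h3.trans ?_
      apply mul_le_mul_of_nonneg_right _ hhalf
      have h8 : 1 ≤ B * s := by nlinarith
      nlinarith

end Pool.Agent.Y197.DP
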