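import Pool.Agent.Y197.NW.Ratio

/-! The scale of the noise. -/

set_option autoImplicit false

namespace Pool.Agent.Y197.DP

open H389NS H974 H12S Finset

theorem ns_ex : ∃ (κ : ℝ) (r0 : ℕ), (0 < κ ∧ 1 ≤ r0 ∧ 1 ≤ κ * (r0:ℝ) ^ (3/4 : ℝ)) ∧
    ∃ C c : ℝ, 0 < C ∧ 0 < c ∧ ∀ n r : ℕ, r0 ≤ r → r ≤ n →
    ∀ (p : Edg → ℝ) (S : Finset Edg) (I J I' J' : Set Vtx), DomN p S I J I' J' n →
    ∀ x : ℝ, 0 ≤ x → x ≤ 1 - 1 / (κ * (r:ℝ) ^ (3/4 : ℝ)) →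
      ∑ T ∈ (boxE n).powerset.filter (fun T => ¬ Disjoint T (boxE (n / 2))),
        sp p S (boxE n) (fC I J) T * x ^ T.card ≤ C * ((r:ℝ) / n) ^ c := by
  obtain ⟨C, c, κ, r0, h1, h2, h3, h4, h5, h6⟩ := NW.ns_ratio
  exact ⟨κ, r0, ⟨h3, h4, h5⟩, C, c, h1, h2, h6⟩

/-- The constant in the scale of the noise. -/
noncomputable def kap : ℝ := Classical.choose ns_ex

/-- The smallest admissible scale. -/
noncomputable def rz : ℕ := Classical.choose (Classical.choose_spec ns_ex)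

theorem kap_pos : 0 < kap := (Classical.choose_spec (Classical.choose_spec ns_ex)).1.1

theorem rz_one : 1 ≤ rz := (Classical.choose_spec (Classical.choose_spec ns_ex)).1.2.1

theorem kap_rz : 1 ≤ kap * (rz:ℝ) ^ (3/4 : ℝ) :=
  (Classical.choose_spec (Classical.choose_spec ns_ex)).1.2.2

/-- The correlation `x` is destroyed above the scale `r`. -/
def Adm (r : ℕ) (x : ℝ) : Prop := rz ≤ r ∧ x ≤ 1 - 1 / (kap * (r:ℝ) ^ (3/4 : ℝ))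

theorem Adm.one {r : ℕ} {x : ℝ} (h : Adm r x) : 1 ≤ r := rz_one.trans h.1

theorem Adm.le {r : ℕ} {x y : ℝ} (h : Adm r x) (hy : y ≤ x) : Adm r y := ⟨h.1, hy.trans h.2⟩

theorem Adm.lt_one {r : ℕ} {x : ℝ} (h : Adm r x) : x < 1 := by
  have h1 : (0:ℝ) < r := by exact_mod_cast h.one
  have h2 : 0 < 1 / (kap * (r:ℝ) ^ (3/4 : ℝ)) := by
    have := kap_pos
    positivity
  linarith [h.2]

theorem ns_adm : ∃ C c : ℝ, 0 < C ∧ 0 < c ∧ ∀ (n r : ℕ) (x : ℝ), Adm r x → r ≤ n → 0 ≤ x →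
    ∀ (p : Edg → ℝ) (S : Finset Edg) (I J I' J' : Set Vtx), DomN p S I J I' J' n →
      ∑ T ∈ (boxE n).powerset.filter (fun T => ¬ Disjoint T (boxE (n / 2))),
        sp p S (boxE n) (fC I J) T * x ^ T.card ≤ C * ((r:ℝ) / n) ^ c := by
  obtain ⟨C, c, hC, hc, h⟩ := (Classical.choose_spec (Classical.choose_spec ns_ex)).2
  exact ⟨C, c, hC, hc, fun n r x hx hrn h0 p S I J I' J' D =>
    h n r hx.1 hrn p S I J I' J' D x h0 hx.2⟩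

/-- The scale of the noise is at most `C (1 - x) ^ (-4/3)`. -/
theorem adm_scale : ∃ C : ℝ, 1 ≤ C ∧ ∀ x : ℝ, 0 ≤ x → x < 1 →
    ∃ r : ℕ, Adm r x ∧ (r:ℝ) ≤ C * (1 - x) ^ (-(4/3) : ℝ) := by
  have hk := kap_pos
  have hz : (1:ℝ) ≤ rz := by exact_mod_cast rz_one
  refine ⟨rz + (1 / kap) ^ (4/3 : ℝ) + 1, by
    have : 0 < (1 / kap) ^ (4/3 : ℝ) := by positivity
    linarith, ?_⟩
  intro x hx0 hx1
  obtain ⟨y, hy⟩ : ∃ y : ℝ, y = 1 - x := ⟨_, rfl⟩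
  have hy0 : 0 < y := by rw [hy]; linarith
  have hy1 : y ≤ 1 := by rw [hy]; linarith
  obtain ⟨z, hz'⟩ : ∃ z : ℝ, z = (1 / (kap * y)) ^ (4/3 : ℝ) := ⟨_, rfl⟩
  have hz0 : 0 < z := by rw [hz']; positivity
  have hyp : 1 ≤ y ^ (-(4/3) : ℝ) :=
    Real.one_le_rpow_of_pos_of_le_one_of_nonpos hy0 hy1 (by norm_num)
  refine ⟨rz + ⌈z⌉₊, ⟨Nat.le_add_right _ _, ?_⟩, ?_⟩
  · have h1 : z ≤ ((rz + ⌈z⌉₊ : ℕ) : ℝ) := by
      push_cast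
      have := Nat.le_ceil z
      linarith
    have h2 := Real.rpow_le_rpow hz0.le h1 (show (0:ℝ) ≤ 3/4 by norm_num)
    have h2' : z ^ (3/4 : ℝ) = y⁻¹ * kap⁻¹ := by
      rw [hz', ← Real.rpow_mul (by positivity), show (4/3 : ℝ) * (3/4) = 1 by norm_num,
        Real.rpow_one]
      field_simp
    rw [h2'] at h2
    have h3 : 1 / (kap * (((rz + ⌈z⌉₊ : ℕ) : ℝ)) ^ (3/4 : ℝ)) ≤ y := by
      rw [div_le_iff₀ (by positivity)]
      have h4 : kap * (y⁻¹ * kap⁻¹) ≤ kap * (((rz + ⌈z⌉₊ : ℕ) : ℝ)) ^ (3/4 : ℝ) :=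
        mul_le_mul_of_nonneg_left h2 hk.le
      have h5 : kap * (y⁻¹ * kap⁻¹) = y⁻¹ := by field_simp
      rw [h5] at h4
      calc (1:ℝ) = y * y⁻¹ := (mul_inv_cancel₀ hy0.ne').symm
        _ ≤ y * (kap * (((rz + ⌈z⌉₊ : ℕ) : ℝ)) ^ (3/4 : ℝ)) :=
            mul_le_mul_of_nonneg_left h4 hy0.le
    have h6 : x = 1 - y := by rw [hy]; ring
    rw [h6]
    linarith
  · push_cast
    have h1 : (⌈z⌉₊ : ℝ) < z + 1 := Nat.ceil_lt_add_one hz0.le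
    have h2 : z = (1 / kap) ^ (4/3 : ℝ) * y ^ (-(4/3) : ℝ) := by
      rw [hz', Real.rpow_neg hy0.le, ← Real.inv_rpow hy0.le,
        ← Real.mul_rpow (by positivity) (by positivity)]
      congr 1
      field_simp
    rw [← hy]
    calc (rz:ℝ) + ⌈z⌉₊ ≤ rz + (z + 1) := by linarith
      _ = rz * 1 + (1 / kap) ^ (4/3 : ℝ) * y ^ (-(4/3) : ℝ) + 1 * 1 := by rw [h2]; ring
      _ ≤ rz * y ^ (-(4/3) : ℝ) + (1 / kap) ^ (4/3 : ℝ) * y ^ (-(4/3) : ℝ) +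
          1 * y ^ (-(4/3) : ℝ) := by
          have := mul_le_mul_of_nonneg_left hyp (show (0:ℝ) ≤ rz by positivity)
          linarith
      _ = (rz + (1 / kap) ^ (4/3 : ℝ) + 1) * y ^ (-(4/3) : ℝ) := by ring

end Pool.Agent.Y197.DP
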