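import Pool.Agent.Y197.DP.Sec
import Pool.Agent.H389R2.NS.F2x

/-! Lower bound of the dimension of the set of exceptional times of an arm event. -/

set_option autoImplicit false

namespace Pool.Agent.Y197.DP

open H389NS H974 H12S H985T Finset MeasureTheory Pool.Agent.H389R2.Dim

variable {A : ℕ → ℕ → Set Edg → Prop} {η : ℝ}

/-! ### Measurability -/

theorem l_meas {Ω : Type*} [MeasurableSpace Ω] {ω : ℝ → Ω → Edg → Bool} (hA : ArmEv A η)
    (a N : ℕ) (t : ℝ) (h : ∀ e ∈ An a N, Measurable (fun w => ω t w e)) :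
    MeasurableSet {w | A a N (opE ω t w)} := by
  classical
  have h1 : {w | A a N (opE ω t w)} =
      (fun w => fun e : {e // e ∈ An a N} => ω t w e) ⁻¹'
        {g | A a N (↑((An a N).filter (fun e => ∃ hx : e ∈ An a N, g ⟨e, hx⟩ = true)) :
          Set Edg)} := by
    ext w
    rw [Set.mem_preimage]
    show A a N (opE ω t w) ↔ A a N _
    rw [s_opE hA]
    have : (An a N).filter (fun e => ω t w e = true) =
        (An a N).filter (fun e => ∃ _ : e ∈ An a N, ω t w e = true) :=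
      Finset.filter_congr (fun e he => ⟨fun h => ⟨he, h⟩, fun ⟨_, h⟩ => h⟩)
    rw [this]
  rw [h1]
  have hm : Measurable (fun w => fun e : {e // e ∈ An a N} => ω t w e) :=
    measurable_pi_iff.2 fun e => h e e.2
  exact hm (Set.Finite.measurableSet (Set.toFinite _))

theorem l_grid {Ω : Type*} [MeasurableSpace Ω] {ω : ℝ → Ω → Edg → Bool}
    (hA : ArmEv A η) (a N m : ℕ) (h : ∀ e ∈ An a N, ∀ t : ℝ, 0 ≤ t → Measurable (fun w => ω t w e))
    (Q : Set ℝ → Prop) : MeasurableSet {w | Q (gridT A ω a N m w)} := by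
  classical
  have h1 : {w | Q (gridT A ω a N m w)} = (fun w => fun i : Fin (2 ^ m) =>
      decide (A a N (opE ω ((i:ℕ) / 2 ^ m : ℝ) w))) ⁻¹' {g | Q {t | ∃ i : Fin (2 ^ m),
        t = ((i:ℕ):ℝ) / 2 ^ m ∧ g i = true}} := by
    ext w
    rw [Set.mem_preimage]
    show Q _ ↔ Q _
    have : gridT A ω a N m w = {t | ∃ i : Fin (2 ^ m), t = ((i:ℕ):ℝ) / 2 ^ m ∧
        decide (A a N (opE ω ((i:ℕ) / 2 ^ m : ℝ) w)) = true} := by
      ext t
      constructor
      · rintro ⟨i, hi, rfl, ht⟩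
        exact ⟨⟨i, hi⟩, rfl, decide_eq_true ht⟩
      · rintro ⟨i, rfl, ht⟩
        exact ⟨i, i.2, rfl, of_decide_eq_true ht⟩
    rw [this]
  rw [h1]
  refine measurable_pi_iff.2 (fun i => ?_) (Set.Finite.measurableSet (Set.toFinite _))
  refine measurable_to_bool ?_
  have h2 : (fun w => decide (A a N (opE ω ((i:ℕ) / 2 ^ m : ℝ) w))) ⁻¹' {true} =
      {w | A a N (opE ω ((i:ℕ) / 2 ^ m : ℝ) w)} := by
    ext w
    simp
  rw [h2]
  exact l_meas hA a N _ (fun e he => h e he _ (by positivity))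

/-- At some order the grid is good. -/
def WW {Ω : Type*} (A : ℕ → ℕ → Set Edg → Prop) (ω : ℝ → Ω → Edg → Bool) (d c : ℝ) (a R : ℕ) :
    Set Ω := {w | ∃ m : ℕ, Good d (1 / ((R:ℝ) + 1)) c (gridT A ω a (a + R) m w)}

theorem WW_meas {Ω : Type*} [MeasurableSpace Ω] {ω : ℝ → Ω → Edg → Bool} (hA : ArmEv A η)
    (d c : ℝ) (a R : ℕ)
    (h : ∀ e ∈ An a (a + R), ∀ t : ℝ, 0 ≤ t → Measurable (fun w => ω t w e)) :
    MeasurableSet (WW A ω d c a R) := by
  have h1 : WW A ω d c a R = ⋃ m : ℕ, {w | (fun T : Set ℝ => Good d (1 / ((R:ℝ) + 1)) c T)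
      (gridT A ω a (a + R) m w)} := by
    ext w
    simp only [WW, Set.mem_iUnion]
    rfl
  rw [h1]
  exact MeasurableSet.iUnion fun m => l_grid hA a (a + R) m h _

section

variable {Ω : Type*} {ω : ℝ → Ω → Edg → Bool}

theorem inv_succ_le (R : ℕ) : 1 / (((R + 1 : ℕ) : ℝ) + 1) ≤ 1 / ((R:ℝ) + 1) := by
  push_cast
  exact div_le_div_of_nonneg_left zero_le_one (by positivity) (by linarith)

theorem WW_succ (hA : ArmEv A η) (d c : ℝ) (a R : ℕ) :
    WW A ω d c a (R + 1) ⊆ WW A ω d c a R := by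
  rintro w ⟨m, hm⟩
  refine ⟨m, (hm.anti (inv_succ_le R)).mono ?_⟩
  rintro t ⟨i, hi, ht, h⟩
  exact ⟨i, hi, ht, hA.outer (by omega) (by omega) h⟩

theorem WW_inner (hA : ArmEv A η) (d c : ℝ) (a R : ℕ) :
    WW A ω d c a (R + 1) ⊆ WW A ω d c (a + 1) R := by
  rintro w ⟨m, hm⟩
  refine ⟨m, (hm.anti (inv_succ_le R)).mono ?_⟩
  rintro t ⟨i, hi, ht, h⟩
  refine ⟨i, hi, ht, ?_⟩
  have h1 : a + (R + 1) = a + 1 + R := by ring
  rw [h1] at h
  exact hA.mono (by omega) (by omega) h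

theorem WW_anti (hA : ArmEv A η) (d c : ℝ) (a : ℕ) : Antitone (WW A ω d c a) :=
  antitone_nat_of_succ_le (WW_succ hA d c a)

theorem WW_shift (hA : ArmEv A η) (d c : ℝ) (a m : ℕ) :
    (⋂ R : ℕ, WW A ω d c a R) ⊆ ⋂ R : ℕ, WW A ω d c (a + m) R := by
  induction m with
  | zero => exact subset_rfl
  | succ m ih =>
    refine ih.trans ?_
    intro w hw
    rw [Set.mem_iInter] at hw ⊢
    intro R
    exact WW_inner hA d c (a + m) R (hw (R + 1))

end

section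

variable {Ω : Type*} [MeasurableSpace Ω] {μ : Measure Ω} [IsProbabilityMeasure μ]
  {ω : ℝ → Ω → Edg → Bool}

/-- The zero-one law. -/
theorem l_zero_one (hA : ArmEv A η) (h : IsDP μ ω) (d c : ℝ) :
    μ (⋃ a : ℕ, ⋂ R : ℕ, WW A ω d c (a + 1) R) = 0 ∨
      μ (⋃ a : ℕ, ⋂ R : ℕ, WW A ω d c (a + 1) R) = 1 := by
  classical
  set s : Edg → MeasurableSpace Ω := fun e =>
    MeasurableSpace.comap (fun (w : Ω) (t : {t : ℝ // 0 ≤ t}) => ω t w e) MeasurableSpace.pi with hs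
  have hle : ∀ e, s e ≤ ‹MeasurableSpace Ω› := fun e =>
    (measurable_pi_iff.2 fun t : {t : ℝ // 0 ≤ t} => h.meas t e).comap_le
  have hind : ProbabilityTheory.iIndep s μ := dp_indep1 h
  refine ProbabilityTheory.measure_zero_or_one_of_measurableSet_limsup (s := s)
    (f := Filter.cofinite) (p := Set.Finite) (ns := fun u : Finset Edg => (↑u : Set Edg)) hle hind
    (fun t ht => ht.compl_mem_cofinite) ?_ (fun u => u.finite_toSet)
    (fun e => ⟨{e}, by simp⟩) ?_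
  · intro u v
    exact ⟨u ∪ v, by simp, by simp⟩
  · rw [Filter.limsup_eq_iInf_iSup]
    rw [MeasurableSpace.measurableSet_iInf]
    intro u
    rw [MeasurableSpace.measurableSet_iInf]
    intro hu
    have hfin : (uᶜ).Finite := by
      simpa using hu
    obtain ⟨m, hm⟩ := F2x_box hfin.toFinset
    have hE : (⋃ a : ℕ, ⋂ R : ℕ, WW A ω d c (a + 1) R) =
        ⋃ a : ℕ, ⋂ R : ℕ, WW A ω d c (a + 1 + m) R := by
      apply Set.Subset.antisymm
      · intro w hw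
        rw [Set.mem_iUnion] at hw ⊢
        obtain ⟨a, ha⟩ := hw
        exact ⟨a, WW_shift hA d c (a + 1) m ha⟩
      · intro w hw
        rw [Set.mem_iUnion] at hw ⊢
        obtain ⟨a, ha⟩ := hw
        refine ⟨a + m, ?_⟩
        rw [show a + m + 1 = a + 1 + m by ring]
        exact ha
    rw [hE]
    refine @MeasurableSet.iUnion Ω ℕ (⨆ i ∈ u, s i) _ _ fun a => ?_
    refine @MeasurableSet.iInter Ω ℕ (⨆ i ∈ u, s i) _ _ fun R => ?_
    refine @WW_meas A η Ω (⨆ i ∈ u, s i) ω hA _ _ _ _ fun e he t ht => ?_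
    have heu : e ∈ u := by
      by_contra hcon
      have h1 : e ∈ hfin.toFinset := by
        rw [Set.Finite.mem_toFinset]
        exact hcon
      have h2 := hm e h1
      rw [INDI_memAn] at he
      exact he.2 (boxE_mono (by omega) h2)
    have h3 : s e ≤ ⨆ i ∈ u, s i := le_iSup₂ (f := fun i (_ : i ∈ u) => s i) e heu
    refine Measurable.mono ?_ h3 le_rfl
    have h4 : @Measurable Ω ({t : ℝ // 0 ≤ t} → Bool) (s e) MeasurableSpace.pi
        (fun (w : Ω) (t : {t : ℝ // 0 ≤ t}) => ω t w e) := comap_measurable _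
    exact (measurable_pi_apply (⟨t, ht⟩ : {t : ℝ // 0 ≤ t})).comp h4

end

/-- Almost surely the grids are good. -/
theorem l_good (hA : ArmEv A η) (hlow : ∃ c : ℝ, 0 < c ∧ ∀ N : ℕ, 1 ≤ N →
      c * (N:ℝ) ^ (-η) ≤ pA A 1 N) {d : ℝ} (hd0 : 0 < d) (hd : d < 1 - 4/3 * η) :
    ∃ c1 : ℝ, 0 < c1 ∧ ∀ (Ω : Type) [MeasurableSpace Ω] (μ : Measure Ω)
      [IsProbabilityMeasure μ] (ω : ℝ → Ω → Edg → Bool), IsDP μ ω →
      ∀ᵐ w ∂μ, ∃ a : ℕ, 1 ≤ a ∧ ∀ R : ℕ, w ∈ WW A ω d c1 a R := by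
  obtain ⟨c0, c1, hc0, hc1, hg⟩ := grid_event hA hlow hd0 hd
  refine ⟨c1, hc1, ?_⟩
  intro Ω _ μ _ ω h
  have hms : ∀ a R, MeasurableSet (WW A ω d c1 a R) := fun a R =>
    WW_meas hA d c1 a R (fun e _ t _ => h.meas t e)
  have hle : ∀ R, c0 ≤ μ.real (WW A ω d c1 1 R) := by
    intro R
    obtain ⟨m, hm⟩ := hg Ω μ ω h (1 + R) (by omega) (1 / ((R:ℝ) + 1)) (by positivity)
    refine hm.trans (measureReal_mono ?_)
    intro w hw
    exact ⟨m, hw⟩
  have hpos : c0 ≤ μ.real (⋂ R : ℕ, WW A ω d c1 1 R) := by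
    have h1 := tendsto_measure_iInter_atTop (μ := μ) (s := WW A ω d c1 1)
      (fun R => (hms 1 R).nullMeasurableSet) (WW_anti hA d c1 1) ⟨0, measure_ne_top _ _⟩
    have h2 : Filter.Tendsto (fun R => μ.real (WW A ω d c1 1 R)) Filter.atTop
        (nhds (μ.real (⋂ R : ℕ, WW A ω d c1 1 R))) :=
      (ENNReal.tendsto_toReal (measure_ne_top _ _)).comp h1
    exact ge_of_tendsto' h2 hle
  have hU : MeasurableSet (⋃ a : ℕ, ⋂ R : ℕ, WW A ω d c1 (a + 1) R) :=
    MeasurableSet.iUnion fun a => MeasurableSet.iInter fun R => hms _ _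
  have h1 : μ (⋃ a : ℕ, ⋂ R : ℕ, WW A ω d c1 (a + 1) R) = 1 := by
    rcases l_zero_one hA h d c1 with h0 | h1
    · exfalso
      have h3 : μ (⋂ R : ℕ, WW A ω d c1 1 R) = 0 :=
        measure_mono_null (Set.subset_iUnion (fun a : ℕ => ⋂ R : ℕ, WW A ω d c1 (a + 1) R) 0) h0
      rw [Measure.real, h3] at hpos
      simp at hpos
      linarith
    · exact h1
  have h4 : ∀ᵐ w ∂μ, w ∈ (⋃ a : ℕ, ⋂ R : ℕ, WW A ω d c1 (a + 1) R) := by
    rw [← prob_compl_eq_zero_iff hU] at h1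
    exact h1
  filter_upwards [h4] with w hw
  rw [Set.mem_iUnion] at hw
  obtain ⟨a, ha⟩ := hw
  rw [Set.mem_iInter] at ha
  exact ⟨a + 1, by omega, ha⟩

/-! ### The deterministic part -/

/-- The trajectories are right continuous with left limits. -/
def Cad (f : ℝ → Edg → Bool) : Prop := ∀ x : Edg,
  (∀ t : ℝ, 0 ≤ t → ∃ ε > 0, ∀ s : ℝ, t ≤ s → s < t + ε → f s x = f t x) ∧
  (∀ t : ℝ, 0 < t → ∃ ε > 0, ε ≤ t ∧ ∀ s s' : ℝ,
    t - ε < s → s < t → t - ε < s' → s' < t → f s x = f s' x)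

/-- `t` is a continuity time of the edge `e`. -/
def Cont (f : ℝ → Edg → Bool) (e : Edg) (t : ℝ) : Prop :=
  ∃ ε > 0, ∀ s : ℝ, 0 ≤ s → s ≤ 1 → |s - t| < ε → f s e = f t e

theorem jump_countable {f : ℝ → Edg → Bool} (hf : Cad f) :
    {t : ℝ | (0 ≤ t ∧ t ≤ 1) ∧ ∃ e, ¬ Cont f e t}.Countable := by
  have h1 : {t : ℝ | (0 ≤ t ∧ t ≤ 1) ∧ ∃ e, ¬ Cont f e t} =
      ⋃ e : Edg, {t : ℝ | (0 ≤ t ∧ t ≤ 1) ∧ ¬ Cont f e t} := by
    ext t
    simp only [Set.mem_iUnion]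
    constructor
    · rintro ⟨h, e, he⟩
      exact ⟨e, h, he⟩
    · rintro ⟨e, h, he⟩
      exact ⟨h, e, he⟩
  rw [h1]
  refine Set.countable_iUnion (fun e => Set.Finite.countable ?_)
  -- neighbourhoods
  have key : ∀ t : ℝ, 0 ≤ t → ∃ ε > 0, ∀ s : ℝ, 0 ≤ s → |s - t| < ε → s ≠ t → Cont f e s := by
    intro t ht
    obtain ⟨ε1, hε1, h2⟩ := (hf e).1 t ht
    obtain ⟨ε2, hε2, h3⟩ : ∃ ε2 > 0, ∀ s s' : ℝ, 0 ≤ s → 0 ≤ s' →
        t - ε2 < s → s < t → t - ε2 < s' → s' < t → f s e = f s' e := by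
      rcases eq_or_lt_of_le ht with h0 | h0
      · refine ⟨1, one_pos, fun s s' hs _ _ h4 _ _ => ?_⟩
        linarith
      · obtain ⟨ε, hε, -, h4⟩ := (hf e).2 t h0
        exact ⟨ε, hε, fun s s' _ _ => h4 s s'⟩
    refine ⟨min ε1 ε2, lt_min hε1 hε2, ?_⟩
    intro s hs0 hs hst
    rcases lt_or_gt_of_ne hst with h4 | h4
    · have h5 : |s - t| < ε2 := lt_of_lt_of_le hs (min_le_right _ _)
      rw [abs_lt] at h5
      refine ⟨min (t - s) (s - (t - ε2)), lt_min (by linarith) (by linarith), ?_⟩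
      intro s' hs'0 _ hs'
      have h6 : |s' - s| < t - s := lt_of_lt_of_le hs' (min_le_left _ _)
      have h7 : |s' - s| < s - (t - ε2) := lt_of_lt_of_le hs' (min_le_right _ _)
      rw [abs_lt] at h6 h7
      exact h3 s' s hs'0 hs0 (by linarith) (by linarith) (by linarith) (by linarith)
    · have h5 : |s - t| < ε1 := lt_of_lt_of_le hs (min_le_left _ _)
      rw [abs_lt] at h5
      refine ⟨min (s - t) (t + ε1 - s), lt_min (by linarith) (by linarith), ?_⟩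
      intro s' _ _ hs'
      have h6 : |s' - s| < s - t := lt_of_lt_of_le hs' (min_le_left _ _)
      have h7 : |s' - s| < t + ε1 - s := lt_of_lt_of_le hs' (min_le_right _ _)
      rw [abs_lt] at h6 h7
      rw [h2 s' (by linarith) (by linarith), h2 s (by linarith) (by linarith)]
  choose! ε hε hε2 using key
  obtain ⟨F, hF1, hF2⟩ := IsCompact.elim_nhds_subcover (isCompact_Icc (a := (0:ℝ)) (b := 1))
    (fun t => Metric.ball t (ε t)) (fun t ht => Metric.ball_mem_nhds t (hε t ht.1))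
  refine F.finite_toSet.subset ?_
  rintro t ⟨ht, hct⟩
  obtain ⟨u, hu, htu⟩ := Set.mem_iUnion₂.mp (hF2 ht)
  by_contra hcon
  apply hct
  refine hε2 u (hF1 u hu).1 t ht.1 ?_ ?_
  · rw [Metric.mem_ball, Real.dist_eq] at htu
    exact htu
  · rintro rfl
    exact hcon hu

/-- The dimension of the set of the exceptional times. -/
theorem dim_low (hA : ArmEv A η) {Ω : Type*} {ω : ℝ → Ω → Edg → Bool} {w : Ω}
    (hcad : Cad (fun t e => ω t w e)) {d c : ℝ} (hd : 0 < d) (hc : 0 < c) {a : ℕ}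
    (h : ∀ R : ℕ, w ∈ WW A ω d c a R) :
    ENNReal.ofReal d ≤ dimH {t : ℝ | (0 ≤ t ∧ t ≤ 1) ∧ ∀ N, a ≤ N → A a N (opE ω t w)} := by
  obtain ⟨T, hT⟩ : ∃ T : ℕ → Set ℝ, T = fun R =>
    {t : ℝ | (0 ≤ t ∧ t ≤ 1) ∧ A a (a + R) (opE ω t w)} := ⟨_, rfl⟩
  have hTgood : ∀ R : ℕ, Good d (1 / ((R:ℝ) + 1)) c (T R) := by
    intro R
    obtain ⟨m, hm⟩ := h R
    refine hm.mono ?_
    rintro t ⟨i, hi, rfl, ht⟩
    rw [hT]
    refine ⟨⟨by positivity, ?_⟩, ht⟩
    rw [div_le_one (by positivity)]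
    exact_mod_cast hi.le
  have hTanti : ∀ R R' : ℕ, R ≤ R' → T R' ⊆ T R := by
    intro R R' hRR t ht
    rw [hT] at ht ⊢
    exact ⟨ht.1, hA.outer (by omega) (by omega) ht.2⟩
  have hTI : ∀ R, T R ⊆ Set.Icc 0 1 := by
    intro R t ht
    rw [hT] at ht
    exact ht.1
  have hKI : ∀ R, closure (T R) ⊆ Set.Icc 0 1 := fun R =>
    closure_minimal (hTI R) isClosed_Icc
  have hKc : ∀ R, IsCompact (closure (T R)) := fun R =>
    isCompact_Icc.of_isClosed_subset isClosed_closure (hKI R)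
  obtain ⟨K, hK⟩ : ∃ K : Set ℝ, K = ⋂ R, closure (T R) := ⟨_, rfl⟩
  have hKcomp : IsCompact K := by
    rw [hK]
    exact (hKc 0).of_isClosed_subset (isClosed_iInter fun _ => isClosed_closure)
      (Set.iInter_subset _ 0)
  have hgood : ∀ δ : ℝ, 0 < δ → Good d δ c K := by
    intro δ hδ s hs hcov
    have hopen : IsOpen (⋃ p ∈ s, Metric.ball p.1 p.2) :=
      isOpen_biUnion (fun p _ => Metric.isOpen_ball)
    obtain ⟨R0, hR0⟩ := exists_subset_nhds_of_isCompact' (V := fun R => closure (T R))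
      (by
        intro i j
        exact ⟨max i j, closure_mono (hTanti _ _ (le_max_left _ _)),
          closure_mono (hTanti _ _ (le_max_right _ _))⟩)
      hKc (fun _ => isClosed_closure) (U := ⋃ p ∈ s, Metric.ball p.1 p.2) (by
        intro x hx
        rw [← hK] at hx
        exact hopen.mem_nhds (hcov hx))
    obtain ⟨R1, hR1⟩ := exists_nat_one_div_lt hδ
    have hle : 1 / (((max R0 R1 : ℕ) : ℝ) + 1) ≤ δ := by
      refine le_trans ?_ hR1.le
      refine div_le_div_of_nonneg_left zero_le_one (by positivity) ?_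
      have : (R1:ℝ) ≤ ((max R0 R1 : ℕ) : ℝ) := by exact_mod_cast le_max_right _ _
      linarith
    refine hTgood (max R0 R1) s (fun p hp => hle.trans (hs p hp)) ?_
    exact ((hTanti _ _ (le_max_left _ _)).trans subset_closure).trans hR0
  have h1 := le_dimH_of_good hd hc hKcomp hgood
  -- the jumps
  have hJ := jump_countable hcad
  have hsub : K ⊆ {t : ℝ | (0 ≤ t ∧ t ≤ 1) ∧ ∀ N, a ≤ N → A a N (opE ω t w)} ∪
      {t : ℝ | (0 ≤ t ∧ t ≤ 1) ∧ ∃ e, ¬ Cont (fun t e => ω t w e) e t} := by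
    intro t ht
    rw [hK, Set.mem_iInter] at ht
    have htI : 0 ≤ t ∧ t ≤ 1 := hKI 0 (ht 0)
    by_cases hj : ∃ e, ¬ Cont (fun t e => ω t w e) e t
    · exact Or.inr ⟨htI, hj⟩
    · left
      refine ⟨htI, ?_⟩
      intro N hN
      push Not at hj
      have h2 : ∃ ε > 0, ∀ e ∈ An a N, ∀ s : ℝ, 0 ≤ s → s ≤ 1 → |s - t| < ε →
          ω s w e = ω t w e := by
        choose ε hε hε2 using hj
        by_cases hne : (An a N).Nonempty
        · refine ⟨(An a N).inf' hne ε, ?_, ?_⟩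
          · rw [gt_iff_lt, Finset.lt_inf'_iff]
            exact fun e _ => hε e
          · intro e he s h3 h4 h5
            exact hε2 e s h3 h4 (lt_of_lt_of_le h5 (Finset.inf'_le _ he))
        · refine ⟨1, one_pos, fun e he => ?_⟩
          exact absurd ⟨e, he⟩ hne
      obtain ⟨ε, hε, hε2⟩ := h2
      have h3 := ht (N - a)
      rw [Metric.mem_closure_iff] at h3
      obtain ⟨s, hs, hst⟩ := h3 ε hε
      rw [hT] at hs
      obtain ⟨hs1, hs2⟩ := hs
      rw [show a + (N - a) = N by omega] at hs2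
      refine (hA.congr ?_).mp hs2
      rw [Real.dist_eq, abs_sub_comm] at hst
      ext e
      simp only [opE, Set.mem_inter_iff, Finset.mem_coe]
      constructor
      · rintro ⟨h4, h5⟩
        refine ⟨?_, h5⟩
        have := hε2 e h5 s hs1.1 hs1.2 hst
        show ω t w e = true
        rw [← this]
        exact h4
      · rintro ⟨h4, h5⟩
        refine ⟨?_, h5⟩
        have := hε2 e h5 s hs1.1 hs1.2 hst
        show ω s w e = true
        rw [this]
        exact h4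
  have h2 := dimH_mono hsub
  rw [dimH_union, hJ.dimH_zero] at h2
  refine h1.trans (h2.trans ?_)
  simp

/-- **The lower bound of the dimension.** -/
theorem lower_bound (hA : ArmEv A η) (hlow : ∃ c : ℝ, 0 < c ∧ ∀ N : ℕ, 1 ≤ N →
      c * (N:ℝ) ^ (-η) ≤ pA A 1 N) (Ω : Type) [MeasurableSpace Ω] (μ : Measure Ω)
      [IsProbabilityMeasure μ] (ω : ℝ → Ω → Edg → Bool) (h : IsDP μ ω) :
      ∀ᵐ w ∂μ, ENNReal.ofReal (1 - 4/3 * η) ≤ dimH {t : ℝ | (0 ≤ t ∧ t ≤ 1) ∧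
        ∃ a, 1 ≤ a ∧ ∀ N, a ≤ N → A a N (opE ω t w)} := by
  have h1 : ∀ n : ℕ, ∀ᵐ w ∂μ, ENNReal.ofReal ((1 - 4/3 * η) - 1 / ((n:ℝ) + 1)) ≤
      dimH {t : ℝ | (0 ≤ t ∧ t ≤ 1) ∧ ∃ a, 1 ≤ a ∧ ∀ N, a ≤ N → A a N (opE ω t w)} := by
    intro n
    by_cases hd : 0 < (1 - 4/3 * η) - 1 / ((n:ℝ) + 1)
    · have hn : 0 < 1 / ((n:ℝ) + 1) := by positivity
      obtain ⟨c1, hc1, hgood⟩ := l_good hA hlow hd (by linarith)
      filter_upwards [h.cadlag, hgood Ω μ ω h] with w hw1 hw2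
      obtain ⟨a, ha, hw3⟩ := hw2
      refine (dim_low hA hw1 hd hc1 hw3).trans (dimH_mono ?_)
      rintro t ⟨ht, h2⟩
      exact ⟨ht, a, ha, h2⟩
    · push Not at hd
      filter_upwards with w
      rw [ENNReal.ofReal_of_nonpos hd]
      exact bot_le
  rw [← ae_all_iff] at h1
  filter_upwards [h1] with w hw
  have h2 : Filter.Tendsto (fun n : ℕ => ENNReal.ofReal ((1 - 4/3 * η) - 1 / ((n:ℝ) + 1)))
      Filter.atTop (nhds (ENNReal.ofReal ((1 - 4/3 * η) - 0))) :=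
    (ENNReal.continuous_ofReal.tendsto _).comp
      (tendsto_const_nhds.sub tendsto_one_div_add_atTop_nhds_zero_nat)
  rw [sub_zero] at h2
  exact le_of_tendsto' h2 hw

end Pool.Agent.Y197.DP
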