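import Pool.Agent.Y197.DP.Gen
import Pool.Agent.H389R2.NS.E1a
import Pool.Agent.H389R2.CD.Hit
import Pool.Agent.H160R2.SA.Arm
import Pool.Agent.H985R3.TA.STA

/-! The one-arm and the two-arm events of the annuli. -/

set_option autoImplicit false

namespace Pool.Agent.Y197.DP

open H389NS H974 H12S H985T Finset

/-- An open path of the annulus joins its two boundaries. -/
def OA (a N : ℕ) (F : Set Edg) : Prop :=
  ∃ u u', onB a u ∧ onB N u' ∧ Reach (F ∩ ↑(An a N)) u u'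

theorem OA_congr {a N : ℕ} {F G : Set Edg} (h : F ∩ ↑(An a N) = G ∩ ↑(An a N)) :
    OA a N F ↔ OA a N G := by
  unfold OA
  rw [h]

theorem OA_incr {a N : ℕ} {F G : Set Edg} (h : F ⊆ G) (hF : OA a N F) : OA a N G := by
  obtain ⟨u, u', h1, h2, h3⟩ := hF
  exact ⟨u, u', h1, h2, h3.mono (Set.inter_subset_inter_left _ h)⟩

theorem OA_outer {a b N : ℕ} (hab : a ≤ b) (hN : b ≤ N) {F : Set Edg} (h : OA a N F) :
    OA a b F := by
  obtain ⟨u, u', hu, hu', hr⟩ := h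
  have hin : inR (-(b:ℤ)) b (-(b:ℤ)) b u := by
    obtain ⟨h1, _⟩ := hu
    unfold inR at h1 ⊢
    omega
  obtain ⟨z, h1, h2, h3⟩ := first_exit hin hr (by
    obtain ⟨_, h1⟩ := hu'
    omega)
  refine ⟨u, z, hu, ⟨h1, h2⟩, h3.mono ?_⟩
  rintro x ⟨⟨k1, k2⟩, k3⟩
  exact ⟨k1, mem_coe.2 (INDI_memAn.2 ⟨mem_coe.1 k3, (INDI_memAn.1 (mem_coe.1 k2)).2⟩)⟩

theorem OA_mono {a b N : ℕ} (hab : a ≤ b) (hN : b ≤ N) {F : Set Edg} (h : OA a N F) :
    OA b N F := by
  obtain ⟨u, u', hu, hu', hr⟩ := h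
  obtain ⟨v, hv, hv2⟩ := INDI_pexit hN (G := F ∩ ↑(An a N)) (F := F) Set.inter_subset_left
    (fun e he => (INDI_memAn.1 (mem_coe.1 he.2)).1) hu' hr.symm (by
      obtain ⟨h1, _⟩ := hu
      unfold inR at h1 ⊢
      omega)
  exact ⟨v, u', hv, hu', hv2⟩

/-- An edge whose flip changes the one-arm event. -/
theorem OA_flip {a N b1 b2 κ : ℕ} {e : Edg} (ha : 1 ≤ a) (h1 : a ≤ b1) (h2 : b2 ≤ N)
    (hκ : 1 ≤ κ) (he1 : Disjoint (ebx e (κ + 3)) (boxE b1)) (he2 : ebx e (κ + 3) ⊆ boxE b2)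
    {F : Finset Edg}
    (h : ¬ (OA a N (↑(insert e F) : Set Edg) ↔ OA a N (↑(F.erase e) : Set Edg))) :
    (A4e κ e (↑F : Set Edg) ∨ A4d κ e F) ∧ OA a b1 (↑F : Set Edg) ∧ OA b2 N (↑F : Set Edg) := by
  -- geometry
  have heE : e ∈ ebx e (κ + 3) := mem_ebx (by omega)
  have hebx2 : ∀ g : Edg, g ∈ ebx e (κ + 3) → g ∈ boxE b2 := fun g hg => he2 hg
  have hc1 : -(b2:ℤ) ≤ e.1 - (κ + 3) ∧ -(b2:ℤ) ≤ e.2.1 - (κ + 3) := by
    have := hebx2 (e.1 - (κ + 3), e.2.1 - (κ + 3), true) (by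
      unfold ebx
      rw [mem_RE_true]
      push_cast
      omega)
    unfold boxE at this
    rw [mem_RE_true] at this
    omega
  have hc2 : e.1 + (κ + 3) ≤ (b2:ℤ) ∧ e.2.1 + (κ + 3) ≤ (b2:ℤ) := by
    have := hebx2 (e.1 + (κ + 2), e.2.1 + (κ + 3), true) (by
      unfold ebx
      rw [mem_RE_true]
      push_cast
      omega)
    unfold boxE at this
    rw [mem_RE_true] at this
    omega
  have hsep : ∀ v : Vtx, -(b1:ℤ) ≤ v.1 → v.1 ≤ b1 → -(b1:ℤ) ≤ v.2 → v.2 ≤ b1 →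
      ¬ ((e.1 - (κ + 2) ≤ v.1 ∧ v.1 ≤ e.1 + (κ + 2)) ∧
        (e.2.1 - (κ + 3) ≤ v.2 ∧ v.2 ≤ e.2.1 + (κ + 3))) := by
    intro v k1 k2 k3 k4 k5
    have hb1 : 1 ≤ b1 := le_trans ha h1
    by_cases hv : v.1 < b1
    · have m1 : ((v.1, v.2, true) : Edg) ∈ ebx e (κ + 3) := by
        unfold ebx
        rw [mem_RE_true]
        push_cast
        omega
      have m2 : ((v.1, v.2, true) : Edg) ∈ boxE b1 := by
        unfold boxE
        rw [mem_RE_true]
        omega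
      exact (Finset.disjoint_left.mp he1 m1) m2
    · have m1 : ((v.1 - 1, v.2, true) : Edg) ∈ ebx e (κ + 3) := by
        unfold ebx
        rw [mem_RE_true]
        push_cast
        omega
      have m2 : ((v.1 - 1, v.2, true) : Edg) ∈ boxE b1 := by
        unfold boxE
        rw [mem_RE_true]
        omega
      exact (Finset.disjoint_left.mp he1 m1) m2
  have hb12 : b1 < b2 := by
    by_contra hcon
    push Not at hcon
    have hsub : e ∈ boxE b1 := by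
      have := he2 heE
      unfold boxE at this ⊢
      exact RE_subset (by omega) (by omega) (by omega) (by omega) this
    exact (Finset.disjoint_left.mp he1 heE) hsub
  have hboxmono : ∀ {m n : ℕ}, m ≤ n → boxE m ⊆ boxE n := by
    intro m n hmn
    unfold boxE
    exact RE_subset (by omega) (by omega) (by omega) (by omega)
  have hebxmono : ∀ {m : ℕ}, m ≤ κ + 3 → ebx e m ⊆ ebx e (κ + 3) := by
    intro m hm
    unfold ebx
    exact RE_subset (by omega) (by omega) (by omega) (by omega)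
  have hAn : ∀ g ∈ ebx e (κ + 3), g ∈ An a N := by
    intro g hg
    refine INDI_memAn.2 ⟨hboxmono h2 (he2 hg), fun hga => ?_⟩
    exact (Finset.disjoint_left.mp he1 hg) (hboxmono h1 hga)
  have heb1 : e ∉ boxE b1 := Finset.disjoint_left.mp he1 heE
  have heb2 : e ∈ boxE b2 := he2 heE
  have hplus : (↑(insert e F) : Set Edg) = insert e (↑F : Set Edg) := Finset.coe_insert _ _
  have hminus : (↑(F.erase e) : Set Edg) = (↑F : Set Edg) \ {e} := Finset.coe_erase _ _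
  rw [hplus, hminus] at h
  have hM : ¬ OA a N ((↑F : Set Edg) \ {e}) := fun hh => h
    ⟨fun _ => hh, fun _ => OA_incr (fun g hg => Set.mem_insert_of_mem _ hg.1) hh⟩
  have hP : OA a N (insert e (↑F : Set Edg)) := by
    by_contra hh
    exact h ⟨fun h3 => absurd h3 hh, fun h3 => absurd h3 hM⟩
  have hinner : OA a b1 (↑F : Set Edg) := by
    have := OA_outer h1 (by omega) hP
    refine (OA_congr ?_).mp this
    ext g
    simp only [Set.mem_inter_iff, Set.mem_insert_iff, mem_coe, INDI_memAn]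
    constructor
    · rintro ⟨rfl | h3, h4⟩
      · exact absurd h4.1 heb1
      · exact ⟨h3, h4⟩
    · rintro ⟨h3, h4⟩
      exact ⟨Or.inr h3, h4⟩
  have houter : OA b2 N (↑F : Set Edg) := by
    have := OA_mono (show a ≤ b2 by omega) h2 hP
    refine (OA_congr ?_).mp this
    ext g
    simp only [Set.mem_inter_iff, Set.mem_insert_iff, mem_coe, INDI_memAn]
    constructor
    · rintro ⟨rfl | h3, h4⟩
      · exact absurd heb2 h4.2
      · exact ⟨h3, h4⟩
    · rintro ⟨h3, h4⟩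
      exact ⟨Or.inr h3, h4⟩
  refine ⟨Or.inl ?_, hinner, houter⟩
  obtain ⟨u, u', hu, hu', hr⟩ := hP
  have hpv : Pv {v | onB a v} {v | onB N v} e ((↑F : Set Edg) ∩ ↑(An a N)) := by
    refine ⟨⟨u, hu, u', hu', ?_⟩, ?_⟩
    · refine hr.mono ?_
      rintro g ⟨rfl | k1, k2⟩
      · exact Or.inl rfl
      · exact Or.inr ⟨k1, k2⟩
    · rintro ⟨x, hx, y, hy, hxy⟩
      apply hM
      refine ⟨x, y, hx, hy, hxy.mono ?_⟩
      rintro g ⟨⟨k1, k2⟩, k3⟩
      exact ⟨⟨k1, k3⟩, k2⟩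
  have hA : A4e κ e ((↑F : Set Edg) ∩ ↑(An a N)) := by
    unfold A4e
    refine loc_a4 (mem_ebx hκ) ?_ hpv
    rintro v (hv | hv) hin
    · obtain ⟨hv1, _⟩ := (show onB a v from hv)
      unfold inR at hv1
      exact hsep v (by omega) (by omega) (by omega) (by omega) (by omega)
    · obtain ⟨hv1, hv2⟩ := (show onB N v from hv)
      unfold inR at hv1
      omega
  refine (A4e_local ?_).mp hA
  ext g
  simp only [Set.mem_inter_iff, mem_coe]
  constructor
  · rintro ⟨⟨k1, _⟩, k3⟩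
    exact ⟨k1, k3⟩
  · rintro ⟨k1, k3⟩
    exact ⟨⟨k1, hAn g (hebxmono (by omega) k3)⟩, k3⟩

theorem arS : Pool.Agent.H389R2.CD.ArS := Pool.Agent.H160R2.SA.arSharp

theorem OA_barm (a N : ℕ) : Pr hp (An a N) (fun F => OA a N (↑F : Set Edg)) ≤ barm (1/2) a N := by
  have hsub : An a N ⊆ boxE N := fun e he => (INDI_memAn.1 he).1
  have e1 : Pr hp (An a N) (fun F => OA a N (↑F : Set Edg)) =
      Pr hp (boxE N) (fun F => OA a N (↑F : Set Edg)) := by
    symm
    refine Pr_local hsub (fun F _ => OA_congr ?_)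
    rw [Finset.coe_inter, Set.inter_assoc, Set.inter_self]
  rw [e1]
  refine Pr_mono E4_ok (fun F _ hF => ?_)
  obtain ⟨u, u', hu, hu', hr⟩ := hF
  refine ⟨u, u', hu.1, hu', hr.mono ?_⟩
  rintro g ⟨k1, k2⟩
  exact ⟨k1, mem_coe.2 (hsub (mem_coe.1 k2))⟩

theorem OA_up : ∃ C : ℝ, 0 < C ∧ ∀ a N : ℕ, 1 ≤ a → a ≤ N →
    Pr hp (An a N) (fun F => OA a N (↑F : Set Edg)) ≤ C * ((a:ℝ) / N) ^ (5/48 : ℝ) := by
  obtain ⟨C, hC, h⟩ := Pool.Agent.H389R2.CD.barm_le arS
  refine ⟨C + 3, by positivity, ?_⟩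
  intro a N ha haN
  have ha0 : (0:ℝ) < a := by exact_mod_cast ha
  have hN0 : (0:ℝ) < N := by exact_mod_cast (ha.trans haN)
  have ht : 0 ≤ ((a:ℝ) / N) ^ (5/48 : ℝ) := by positivity
  by_cases h3 : 3 * a ≤ N
  · refine (OA_barm a N).trans ((h a N ha h3).trans ?_)
    exact mul_le_mul_of_nonneg_right (by linarith) ht
  · refine (Pr_le_one E4_ok _ _).trans ?_
    have h4 : (1:ℝ) ≤ 3 * ((a:ℝ) / N) ^ (5/48 : ℝ) := by
      have h5 : (1:ℝ) ≤ (3 * ((a:ℝ) / N)) ^ (5/48 : ℝ) := by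
        refine Real.one_le_rpow ?_ (by norm_num)
        rw [← mul_div_assoc, le_div_iff₀ hN0, one_mul]
        exact_mod_cast (by omega : N ≤ 3 * a)
      rw [Real.mul_rpow (by norm_num) (by positivity)] at h5
      have h6 : (3:ℝ) ^ (5/48 : ℝ) ≤ 3 := by
        calc (3:ℝ) ^ (5/48 : ℝ) ≤ 3 ^ (1 : ℝ) :=
              Real.rpow_le_rpow_of_exponent_le (by norm_num) (by norm_num)
          _ = 3 := Real.rpow_one _
      exact h5.trans (mul_le_mul_of_nonneg_right h6 ht)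
    calc (1:ℝ) ≤ 3 * ((a:ℝ) / N) ^ (5/48 : ℝ) := h4
      _ ≤ (C + 3) * ((a:ℝ) / N) ^ (5/48 : ℝ) := mul_le_mul_of_nonneg_right (by linarith) ht

/-- The one-arm event. -/
theorem arm_OA : ArmEv OA (5/48) where
  congr := OA_congr
  outer := fun hab hN _ h => OA_outer hab hN h
  mono := fun hab hN _ h => OA_mono hab hN h
  flip := fun ha h1 h2 hκ he1 he2 _ h => OA_flip ha h1 h2 hκ he1 he2 h
  pos := by norm_num
  up := OA_up

/-- The two-arm event. -/
theorem arm_AA : ArmEv AA (1/4) where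
  congr := AA_congr
  outer := fun hab hN _ h => AA_outerA hab hN h
  mono := fun hab hN _ h => AA_mono hab hN h
  flip := fun ha h1 h2 hκ he1 he2 _ h => AA_flip1 ha h1 h2 hκ he1 he2 h
  pos := by norm_num
  up := AA_upper

/-- The lower bound of the one-arm probability. -/
theorem OA_low : ∃ c : ℝ, 0 < c ∧ ∀ N : ℕ, 1 ≤ N →
    c * (N:ℝ) ^ (-(5/48) : ℝ) ≤ Pr hp (An 1 N) (fun F => OA 1 N (↑F : Set Edg)) := by
  obtain ⟨c, C, hc, hC, h⟩ := Pool.Agent.H160R2.SA.arSharp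
  refine ⟨c, hc, fun N hN => (h N hN).1.trans ?_⟩
  have hsub : An 1 N ⊆ boxE N := fun e he => (INDI_memAn.1 he).1
  have e1 : Pr hp (An 1 N) (fun F => OA 1 N (↑F : Set Edg)) =
      Pr hp (boxE N) (fun F => OA 1 N (↑F : Set Edg)) := by
    symm
    refine Pr_local hsub (fun F _ => OA_congr ?_)
    rw [Finset.coe_inter, Set.inter_assoc, Set.inter_self]
  rw [e1]
  show Pr hp (boxE N) (Arm N) ≤ _
  refine Pr_mono E4_ok (fun F _ hF => ?_)
  obtain ⟨v, hv, hr⟩ := hF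
  -- the last visit of the box of radius one
  obtain ⟨z, hz, hz2⟩ := INDI_pexit hN (G := (↑F : Set Edg) ∩ ↑(boxE N)) (F := (↑F : Set Edg))
    Set.inter_subset_left (fun e he => mem_coe.1 he.2) hv hr.symm (by
      unfold inR
      simp)
  exact ⟨z, v, hz, hv, hz2⟩

end Pool.Agent.Y197.DP
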