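import Pool.Agent.Y197.DP.Kap
import Pool.Agent.H389R2.NS.D3

/-! Pairs of separated arms, ratio form. -/

set_option autoImplicit false

namespace Pool.Agent.Y197.DP

open H389NS H974 H12S Finset

/-- Pairs, ratio form. -/
theorem pair_bound2 : ∃ C c : ℝ, 0 < C ∧ 0 < c ∧ ∀ (L m r ρ : ℕ), 2 ≤ L → 1 ≤ r → 8 * r ≤ ρ →
    64 * ρ ≤ m → ∀ (σ σ' : Bool) (k k' : ℤ), |2 * (r:ℤ) * k| ≤ (L * m : ℕ) + (r:ℤ) →
    |2 * (r:ℤ) * k'| ≤ (L * m : ℕ) + (r:ℤ) → ∀ x : ℝ, 0 ≤ x → x ≤ 1 →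
      (∫ y in (0:ℝ)..x, ∑ e ∈ boxE (m / 4), P2 (fun _ => y) (SR L m)
          (fun F => Sev L m r ρ σ (2 * r * k) σ' (2 * r * k') e ↑F)
          (fun F => Sev L m r ρ σ (2 * r * k) σ' (2 * r * k') e ↑F)) ≤ 4 ∧
      (∀ q : ℕ, Adm q x → q ≤ m →
        (∫ y in (0:ℝ)..x, ∑ e ∈ boxE (m / 4), P2 (fun _ => y) (SR L m)
          (fun F => Sev L m r ρ σ (2 * r * k) σ' (2 * r * k') e ↑F)
          (fun F => Sev L m r ρ σ (2 * r * k) σ' (2 * r * k') e ↑F)) ≤
          C * ((q:ℝ) / m) ^ c) := by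
  obtain ⟨C, c, hC, hc, hNS⟩ := ns_adm
  refine ⟨4 * C, c, by positivity, hc, ?_⟩
  intro L m r ρ hL hr hρ hm σ σ' k k' hk hk' x hx0 hx1
  obtain ⟨p, S, O, I, J, I', J', hD, hSub, hDis, hR, hO, hZ, hPv⟩ :=
    env_rect hL hr hρ hm σ σ' k k' hk hk'
  have hV : boxE m ⊆ SR L m := d3_boxE_sub hL
  have hB : boxE (m / 4) ⊆ boxE m := boxE_mono (Nat.div_le_self _ _)
  have hm1 : 1 ≤ m := by omega
  have main : (∫ y in (0:ℝ)..x, ∑ e ∈ boxE (m / 4), P2 (fun _ => y) (SR L m)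
          (fun F => Sev L m r ρ σ (2 * r * k) σ' (2 * r * k') e ↑F)
          (fun F => Sev L m r ρ σ (2 * r * k) σ' (2 * r * k') e ↑F)) ≤
      4 * ∑ T ∈ (boxE m).powerset.filter (fun T => ¬ Disjoint T (boxE (m / 4))),
        sp p S (boxE m) (fC I J) T * x ^ T.card := by
    refine d3_int (h := fun e y => P2 (fun _ => y) (SR L m)
          (fun F => Sev L m r ρ σ (2 * r * k) σ' (2 * r * k') e ↑F)
          (fun F => Sev L m r ρ σ (2 * r * k) σ' (2 * r * k') e ↑F)) ?_ hx0 ?_ ?_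
    · intro T _
      exact d3_sp_nonneg hD.ok _ _ _ _
    · intro e _
      exact P2_cont (fun y _ => y) (fun _ => continuous_id) _ _ _
    · intro e he y hy0 hy1
      exact d3_point hDis hSub hR hO hZ hV (hB he)
        (fun F hF hS => hPv e (hV (hB he)) F hF hS) hy0 (hy1.trans hx1)
  refine ⟨main.trans ?_, fun q hx hqm => main.trans ?_⟩
  · have h1 : ∑ T ∈ (boxE m).powerset.filter (fun T => ¬ Disjoint T (boxE (m / 4))),
        sp p S (boxE m) (fC I J) T * x ^ T.card ≤ 1 := by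
      refine le_trans ?_ (d3_sum_le_one hD.ok hD.sub hD.fair I J)
      refine le_trans (Finset.sum_le_sum (g := fun T => sp p S (boxE m) (fC I J) T) ?_) ?_
      · intro T _
        have := pow_le_one₀ hx0 hx1 (n := T.card)
        have h2 := d3_sp_nonneg hD.ok S (boxE m) (fC I J) T
        nlinarith
      · exact Finset.sum_le_sum_of_subset_of_nonneg (Finset.filter_subset _ _)
          (fun T _ _ => d3_sp_nonneg hD.ok _ _ _ _)
    linarith
  · have h1 := hNS m q x hx hqm hx0 p S I J I' J' hD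
    have h2 : ∑ T ∈ (boxE m).powerset.filter (fun T => ¬ Disjoint T (boxE (m / 4))),
        sp p S (boxE m) (fC I J) T * x ^ T.card ≤
        ∑ T ∈ (boxE m).powerset.filter (fun T => ¬ Disjoint T (boxE (m / 2))),
        sp p S (boxE m) (fC I J) T * x ^ T.card := by
      apply Finset.sum_le_sum_of_subset_of_nonneg
      · intro T hT
        rw [Finset.mem_filter] at hT ⊢
        refine ⟨hT.1, fun hd => hT.2 ?_⟩
        exact Finset.disjoint_of_subset_right (boxE_mono (by omega)) hd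
      · intro T _ _
        exact mul_nonneg (d3_sp_nonneg hD.ok _ _ _ _) (pow_nonneg hx0 _)
    nlinarith

end Pool.Agent.Y197.DP
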