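import Pool.Agent.Y197.NW.Dyn
import Pool.Agent.H389R2.NS.Pair4

/-!
The number of times at which an event appears is bounded by the expected number of pivotal edges.
-/

set_option autoImplicit false

namespace Pool.Agent.Y197.DP

open H389NS H974 H12S H985T Finset MeasureTheory Pool.Agent.Y197.NW

section Abstract

variable {E : Type*} [DecidableEq E]

/-- `e` is pivotal for `A`. -/
def Pvt (A : Finset E → Prop) (e : E) (F : Finset E) : Prop :=
  ¬ (A (insert e F) ↔ A (F.erase e))

/-- the expected number of pivotal edges -/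
noncomputable def Inf (S : Finset E) (A : Finset E → Prop) : ℝ :=
  ∑ e ∈ S, Pr hp S (Pvt A e)

theorem okhp : Ok (hp : E → ℝ) := fun _ => by unfold hp; norm_num

theorem Inf_nonneg (S : Finset E) (A : Finset E → Prop) : 0 ≤ Inf S A :=
  Finset.sum_nonneg (fun _ _ => Pr_nonneg okhp _ _)

theorem P2_step {x : ℝ} (h0 : 0 ≤ x) (h1 : x ≤ 1) (S : Finset E) (B C : Finset E → Prop) :
    P2 (fun _ => x) S (fun F => ¬ B F) C ≤
      P2 (fun _ => x) S (fun F => ¬ B F) B + Pr hp S (fun F => ¬ (B F ↔ C F)) := by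
  have e1 : Pr hp S (fun F => ¬ (B F ↔ C F)) =
      E2 (fun _ => x) S (fun _ F' => ind (¬ (B F' ↔ C F'))) := by
    have := A6_left (fun _ => x) S (fun F => ind (¬ (B F ↔ C F)))
    unfold Pr
    rw [← this]
    have h2 := P2_comm (fun _ : E => x) S (fun F => ¬ (B F ↔ C F)) (fun _ => True)
    unfold P2 at h2
    have t1 : ind True = 1 := ind_of trivial
    simp only [t1, mul_one, one_mul] at h2
    exact h2
  rw [e1]
  unfold P2
  rw [← A6_add]
  refine E2_mono (fun _ _ => ⟨h0, h1⟩) (fun F F' _ _ => ?_)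
  by_cases hb : B F
  · rw [ind_not_of (not_not.mpr hb)]
    have := ind_nonneg (¬ (B F' ↔ C F'))
    linarith
  · rw [ind_of hb]
    by_cases hc : C F'
    · by_cases hb' : B F'
      · rw [ind_of hc, ind_of hb']
        have := ind_nonneg (¬ (B F' ↔ C F'))
        linarith
      · rw [ind_of hc, ind_not_of hb', ind_of (fun h => hb' (h.mpr hc))]
        norm_num
    · rw [ind_not_of hc]
      have := ind_nonneg (¬ (B F' ↔ C F'))
      have := ind_nonneg (B F')
      linarith

/-- two-time change bound -/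
theorem change_le {x : ℝ} (h0 : 0 ≤ x) (h1 : x ≤ 1) (S : Finset E) (A : Finset E → Prop) :
    P2 (fun _ => x) S (fun F => ¬ A F) A ≤ (1 - x) / 2 * Inf S A := by
  induction S using Finset.induction_on generalizing A with
  | empty =>
    unfold P2 Inf
    rw [E2_empty907, Finset.sum_empty, mul_zero, ← ind_and, ind_not_of (fun h => h.1 h.2)]
  | insert a S ha ih =>
    have i1 := ih (fun F => A (insert a F))
    have i0 := ih A
    have s1 := P2_step h0 h1 S (fun F => A (insert a F)) A
    have s0 := P2_step h0 h1 S A (fun F => A (insert a F))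
    -- the pivotal edges
    have p1 : ∀ e ∈ S, Pr hp (insert a S) (Pvt A e) =
        (Pr hp S (Pvt (fun F => A (insert a F)) e) + Pr hp S (Pvt A e)) / 2 := by
      intro e he
      have hae : a ≠ e := fun h => ha (h ▸ he)
      unfold Pr
      rw [Ex_insert hp ha]
      have e2 : Ex hp S (fun F => ind (Pvt A e (insert a F))) =
          Ex hp S (fun F => ind (Pvt (fun F => A (insert a F)) e F)) := by
        apply Ex_congr
        intro F hF
        apply ind_congr
        unfold Pvt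
        rw [Finset.insert_comm e a F, Finset.erase_insert_of_ne hae]
      rw [e2]
      unfold hp
      ring
    have p0 : Pr hp (insert a S) (Pvt A a) = Pr hp S (fun F => ¬ (A (insert a F) ↔ A F)) := by
      unfold Pr
      rw [Ex_insert hp ha]
      have e2 : Ex hp S (fun F => ind (Pvt A a (insert a F))) =
          Ex hp S (fun F => ind (¬ (A (insert a F) ↔ A F))) := by
        apply Ex_congr
        intro F hF
        have haF : a ∉ F := fun h => ha (hF h)
        apply ind_congr
        unfold Pvt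
        rw [Finset.insert_idem, Finset.erase_insert haF]
      have e3 : Ex hp S (fun F => ind (Pvt A a F)) =
          Ex hp S (fun F => ind (¬ (A (insert a F) ↔ A F))) := by
        apply Ex_congr
        intro F hF
        have haF : a ∉ F := fun h => ha (hF h)
        apply ind_congr
        unfold Pvt
        rw [Finset.erase_eq_of_notMem haF]
      rw [e2, e3]
      unfold hp
      ring
    have p0' : Pr hp S (fun F => ¬ (A F ↔ A (insert a F))) =
        Pr hp S (fun F => ¬ (A (insert a F) ↔ A F)) := by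
      apply Pr_congr
      intro F _
      exact not_congr ⟨fun h => h.symm, fun h => h.symm⟩
    have pI : Inf (insert a S) A = (Inf S (fun F => A (insert a F)) + Inf S A) / 2 +
        Pr hp (insert a S) (Pvt A a) := by
      unfold Inf
      rw [Finset.sum_insert ha, Finset.sum_congr rfl p1, ← Finset.sum_div,
        Finset.sum_add_distrib]
      ring
    have hx0 : 0 ≤ (1 + x) / 4 := by linarith
    have hx1 : 0 ≤ (1 - x) / 4 := by linarith
    have key : P2 (fun _ => x) (insert a S) (fun F => ¬ A F) A =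
        (1 + x) / 4 * (P2 (fun _ => x) S (fun F => ¬ A F) A +
          P2 (fun _ => x) S (fun F => ¬ A (insert a F)) (fun F => A (insert a F))) +
        (1 - x) / 4 * (P2 (fun _ => x) S (fun F => ¬ A F) (fun F => A (insert a F)) +
          P2 (fun _ => x) S (fun F => ¬ A (insert a F)) A) := by
      unfold P2
      rw [E2_insert907 _ ha]
    rw [key, pI, p0]
    rw [p0'] at s0
    have m1 := mul_le_mul_of_nonneg_left i1 hx0
    have m0 := mul_le_mul_of_nonneg_left i0 hx0
    have n1 := mul_le_mul_of_nonneg_left (s1.trans (add_le_add_left i1 _)) hx1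
    have n0 := mul_le_mul_of_nonneg_left (s0.trans (add_le_add_left i0 _)) hx1
    nlinarith [m1, m0, n1, n0]

end Abstract

section Dyn

variable {Ω : Type*} [MeasurableSpace Ω] {μ : Measure Ω} [IsProbabilityMeasure μ]
  {ω : ℝ → Ω → Edg → Bool}

/-- dynamic union bound on a grid -/
theorem grid_up (h : IsDP μ ω) (S : Finset Edg) (A : Finset Edg → Prop) {b s : ℝ} (hb : 0 ≤ b)
    (hs : 0 ≤ s) (n : ℕ) :
    μ.real {w | ∃ i : ℕ, i ≤ n ∧ A (opS S ω (b + s * i) w)} ≤
      Pr hp S A + n * (s / 2 * Inf S A) := by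
  induction n with
  | zero =>
    have e1 : {w | ∃ i : ℕ, i ≤ 0 ∧ A (opS S ω (b + s * i) w)} = {w | A (opS S ω b w)} := by
      ext w
      simp
    rw [e1]
    have h2 := dp_one1 h hb S A
    have h3 : μ.real {w | A (opS S ω b w)} = Pr hp S A := h2
    rw [h3]
    push_cast
    linarith
  | succ n ih =>
    have e1 : {w | ∃ i : ℕ, i ≤ n + 1 ∧ A (opS S ω (b + s * i) w)} ⊆
        {w | ∃ i : ℕ, i ≤ n ∧ A (opS S ω (b + s * i) w)} ∪
        {w | ¬ A (opS S ω (b + s * n) w) ∧ A (opS S ω (b + s * (n + 1 : ℕ)) w)} := by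
      rintro w ⟨i, hi, hA⟩
      by_cases hn : A (opS S ω (b + s * n) w)
      · exact Or.inl ⟨n, le_rfl, hn⟩
      · rcases Nat.lt_or_ge i (n + 1) with h1 | h1
        · exact Or.inl ⟨i, by omega, hA⟩
        · have : i = n + 1 := by omega
          subst this
          exact Or.inr ⟨hn, hA⟩
    have h2 : μ.real {w | ¬ A (opS S ω (b + s * n) w) ∧ A (opS S ω (b + s * (n + 1 : ℕ)) w)} ≤
        s / 2 * Inf S A := by
      have hn0 : (0:ℝ) ≤ n := Nat.cast_nonneg n
      have t1 : 0 ≤ b + s * n := by positivity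
      have t2 : b + s * n ≤ b + s * (n + 1 : ℕ) := by push_cast; nlinarith
      have h3 := dp_two1 h t1 t2 S (fun F => ¬ A F) A
      have h4 : μ.real {w | ¬ A (opS S ω (b + s * n) w) ∧
          A (opS S ω (b + s * (n + 1 : ℕ)) w)} =
          P2 (fun _ => Real.exp (-(b + s * (n + 1 : ℕ) - (b + s * n)))) S (fun F => ¬ A F) A := h3
      rw [h4]
      have e3 : b + s * ((n + 1 : ℕ) : ℝ) - (b + s * n) = s := by push_cast; ring
      rw [e3]
      have hx0 : 0 ≤ Real.exp (-s) := (Real.exp_pos _).le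
      have hx1 : Real.exp (-s) ≤ 1 := Real.exp_le_one_iff.mpr (by linarith)
      refine (change_le hx0 hx1 S A).trans ?_
      refine mul_le_mul_of_nonneg_right ?_ (Inf_nonneg _ _)
      have := Real.add_one_le_exp (-s)
      linarith
    calc μ.real {w | ∃ i : ℕ, i ≤ n + 1 ∧ A (opS S ω (b + s * i) w)}
        ≤ μ.real _ := measureReal_mono e1
      _ ≤ _ := measureReal_union_le _ _
      _ ≤ (Pr hp S A + n * (s / 2 * Inf S A)) + s / 2 * Inf S A := add_le_add ih h2
      _ = Pr hp S A + ((n + 1 : ℕ) : ℝ) * (s / 2 * Inf S A) := by push_cast; ring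

theorem cad_right (h : IsDP μ ω) (S : Finset Edg) :
    ∀ᵐ w ∂μ, ∀ t : ℝ, 0 ≤ t → ∃ δ > 0, ∀ s : ℝ, t ≤ s → s < t + δ → opS S ω s w = opS S ω t w := by
  filter_upwards [h.cadlag] with w hw
  intro t ht
  choose! d hd hd2 using fun x => (hw x).1 t ht
  rcases S.eq_empty_or_nonempty with rfl | hne
  · exact ⟨1, one_pos, fun s _ _ => rfl⟩
  · refine ⟨S.inf' hne d, (Finset.lt_inf'_iff hne).mpr (fun x _ => hd x), ?_⟩
    intro s h1 h2
    unfold opS
    apply Finset.filter_congr
    intro x hx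
    rw [hd2 x s h1 (h2.trans_le (by
      have := Finset.inf'_le d hx
      linarith))]

/-- The dynamic union bound. -/
theorem dyn_up (h : IsDP μ ω) (S : Finset Edg) (A : Finset Edg → Prop) {b ε : ℝ} (hb : 0 ≤ b)
    (hε : 0 < ε) :
    μ.real {w | ∃ t : ℝ, b ≤ t ∧ t ≤ b + ε ∧ A (opS S ω t w)} ≤
      Pr hp S A + ε * Inf S A := by
  classical
  obtain ⟨G, hG⟩ : ∃ G : ℕ → Set Ω, G = fun m : ℕ =>
      {w | ∃ i : ℕ, i ≤ 2 ^ m ∧ A (opS S ω (b + (2 * ε / 2 ^ m) * i) w)} := ⟨_, rfl⟩
  have hG1 : ∀ m, μ.real (G m) ≤ Pr hp S A + ε * Inf S A := by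
    intro m
    rw [hG]
    refine (grid_up h S A hb (by positivity) (2 ^ m)).trans (le_of_eq ?_)
    push_cast
    field_simp
  have hmono : Monotone G := by
    apply monotone_nat_of_le_succ
    intro m
    rw [hG]
    rintro w ⟨i, hi, hA⟩
    refine ⟨2 * i, by rw [pow_succ]; omega, ?_⟩
    have : b + 2 * ε / 2 ^ (m + 1) * ((2 * i : ℕ) : ℝ) = b + 2 * ε / 2 ^ m * (i : ℝ) := by
      push_cast
      rw [pow_succ]
      field_simp
    rw [this]
    exact hA
  have hsub : μ ({w | ∃ t : ℝ, b ≤ t ∧ t ≤ b + ε ∧ A (opS S ω t w)}) ≤ μ (⋃ m, G m) := by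
    apply measure_mono_ae
    filter_upwards [cad_right h S] with w hw hin
    obtain ⟨t, ht1, ht2, hA⟩ := hin
    obtain ⟨δ, hδ, hc⟩ := hw t (hb.trans ht1)
    obtain ⟨m, hm⟩ : ∃ m : ℕ, 2 * ε / 2 ^ m < min δ ε := by
      obtain ⟨m, hm⟩ := pow_unbounded_of_one_lt (2 * ε / min δ ε) (by norm_num : (1:ℝ) < 2)
      refine ⟨m, ?_⟩
      rw [div_lt_iff₀ (by positivity)]
      rw [div_lt_iff₀ (by positivity)] at hm
      linarith [mul_comm (min δ ε) ((2:ℝ) ^ m)]
    have hpos : 0 < 2 * ε / (2:ℝ) ^ m := by positivity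
    show w ∈ ⋃ m, G m
    rw [Set.mem_iUnion]
    refine ⟨m, ?_⟩
    rw [hG]
    show ∃ i : ℕ, i ≤ 2 ^ m ∧ A (opS S ω (b + (2 * ε / 2 ^ m) * i) w)
    refine ⟨⌈(t - b) / (2 * ε / 2 ^ m)⌉₊, ?_, ?_⟩
    · apply Nat.ceil_le.mpr
      rw [div_le_iff₀ hpos]
      push_cast
      have : (2:ℝ) ^ m * (2 * ε / 2 ^ m) = 2 * ε := by field_simp
      rw [this]
      linarith
    · have c1 := Nat.le_ceil ((t - b) / (2 * ε / 2 ^ m))
      have c2 := Nat.ceil_lt_add_one (a := (t - b) / (2 * ε / 2 ^ m))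
        (div_nonneg (by linarith) hpos.le)
      rw [div_le_iff₀ hpos] at c1
      have c3 : (⌈(t - b) / (2 * ε / 2 ^ m)⌉₊ : ℝ) * (2 * ε / 2 ^ m) <
          (t - b) + 2 * ε / 2 ^ m := by
        have := mul_lt_mul_of_pos_right c2 hpos
        rw [add_mul, div_mul_cancel₀ _ hpos.ne', one_mul] at this
        exact this
      have c4 : (2 * ε / (2:ℝ) ^ m) * (⌈(t - b) / (2 * ε / 2 ^ m)⌉₊ : ℝ) =
        (⌈(t - b) / (2 * ε / 2 ^ m)⌉₊ : ℝ) * (2 * ε / 2 ^ m) := mul_comm _ _
      have c5 := min_le_left δ ε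
      rw [hc _ (by linarith) (by linarith)]
      exact hA
  have hlim := tendsto_measure_iUnion_atTop (μ := μ) hmono
  have hle : μ (⋃ m, G m) ≤ ENNReal.ofReal (Pr hp S A + ε * Inf S A) := by
    refine le_of_tendsto' hlim (fun m => ?_)
    have h1 : μ (G m) = ENNReal.ofReal (μ.real (G m)) := by
      rw [ofReal_measureReal]
    show μ (G m) ≤ _
    rw [h1]
    exact ENNReal.ofReal_le_ofReal (hG1 m)
  have h0 : 0 ≤ Pr hp S A + ε * Inf S A :=
    add_nonneg (Pr_nonneg okhp _ _) (mul_nonneg hε.le (Inf_nonneg _ _))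
  exact ENNReal.toReal_le_of_le_ofReal h0 (hsub.trans hle)

end Dyn

end Pool.Agent.Y197.DP
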