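import Pool.Agent.Y197.DP.Gen
import Pool.Agent.Y197.DP.En
import Pool.Agent.H389R2.NS.F1

/-! The energy of the set of dyadic times at which an arm event holds. -/

set_option autoImplicit false

namespace Pool.Agent.Y197.DP

open H389NS H974 H12S H985T Finset MeasureTheory Pool.Agent.H389R2.Dim

variable {A : ℕ → ℕ → Set Edg → Prop} {η : ℝ}

section

variable {Ω : Type*} [MeasurableSpace Ω] {μ : Measure Ω} [IsProbabilityMeasure μ]
  {ω : ℝ → Ω → Edg → Bool}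

omit [MeasurableSpace Ω] in
theorem s_opE (hA : ArmEv A η) (a N : ℕ) (t : ℝ) (w : Ω) :
    A a N (opE ω t w) ↔ A a N (↑((An a N).filter (fun e => ω t w e = true)) : Set Edg) := by
  apply hA.congr
  ext e
  simp only [opE, Set.mem_inter_iff, Finset.coe_filter, Finset.mem_coe]
  constructor
  · rintro ⟨h1, h2⟩
    exact ⟨⟨h2, h1⟩, h2⟩
  · rintro ⟨⟨h1, h2⟩, h3⟩
    exact ⟨h2, h3⟩

omit [IsProbabilityMeasure μ] in
theorem s_meas (hA : ArmEv A η) (h : IsDP μ ω) (a N : ℕ) (t : ℝ) :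
    MeasurableSet {w | A a N (opE ω t w)} := by
  classical
  have h1 : {w | A a N (opE ω t w)} =
      (fun w => fun e : {e // e ∈ An a N} => ω t w e) ⁻¹'
        {g | A a N (↑((An a N).filter (fun e => ∃ hx : e ∈ An a N, g ⟨e, hx⟩ = true)) :
          Set Edg)} := by
    ext w
    rw [Set.mem_preimage]
    show A a N (opE ω t w) ↔ A a N _
    rw [s_opE hA]
    have : (An a N).filter (fun e => ω t w e = true) =
        (An a N).filter (fun e => ∃ _ : e ∈ An a N, ω t w e = true) :=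
      Finset.filter_congr (fun e he => ⟨fun h => ⟨he, h⟩, fun ⟨_, h⟩ => h⟩)
    rw [this]
  rw [h1]
  have hm : Measurable (fun w => fun e : {e // e ∈ An a N} => ω t w e) :=
    measurable_pi_iff.2 fun e => h.meas t e
  exact hm (Set.Finite.measurableSet (Set.toFinite _))

theorem s_one (hA : ArmEv A η) (h : IsDP μ ω) {t : ℝ} (ht : 0 ≤ t) (a N : ℕ) :
    μ.real {w | A a N (opE ω t w)} = pA A a N := by
  have h1 := dp_one h ht (An a N) (fun F => A a N (↑F : Set Edg))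
  have h2 : {w | A a N (opE ω t w)} =
      {w | (fun F : Finset Edg => A a N (↑F : Set Edg)) ((An a N).filter
        (fun e => ω t w e = true))} := by
    ext w
    exact s_opE hA a N t w
  rw [h2, h1]
  rfl

theorem s_two (hA : ArmEv A η) (h : IsDP μ ω) {s t : ℝ} (hs : 0 ≤ s) (hst : s ≤ t) (a N : ℕ) :
    μ.real ({w | A a N (opE ω s w)} ∩ {w | A a N (opE ω t w)}) =
      qA A (Real.exp (-(t - s))) a N := by
  have h1 := dp_two h hs hst (An a N) (fun F => A a N (↑F : Set Edg))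
    (fun F => A a N (↑F : Set Edg))
  have h2 : {w | A a N (opE ω s w)} ∩ {w | A a N (opE ω t w)} =
      {w | (fun F : Finset Edg => A a N (↑F : Set Edg)) ((An a N).filter
          (fun e => ω s w e = true)) ∧
        (fun F : Finset Edg => A a N (↑F : Set Edg)) ((An a N).filter
          (fun e => ω t w e = true))} := by
    ext w
    exact and_congr (s_opE hA a N s w) (s_opE hA a N t w)
  rw [h2, h1]
  rfl

end

theorem sum_pow2 {c : ℝ} (hc : 0 < c) (hc1 : c ≤ 1) (n : ℕ) :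
    ∑ d ∈ Icc 1 n, (d:ℝ) ^ (c - 1) ≤ (n:ℝ) ^ c / c := by
  have h1 : ∑ d ∈ Icc 1 n, (d:ℝ) ^ (c - 1) = ∑ s ∈ range n, ((s:ℝ) + 1) ^ (c - 1) := by
    induction n with
    | zero => simp
    | succ n ih =>
      rw [Finset.sum_Icc_succ_top (by omega), ih, Finset.sum_range_succ]
      push_cast
      rfl
  rw [h1]
  exact sum_pow_le hc hc1 n

/-- The times of the grid of order `m` at which the arm event holds. -/
def gridT {Ω : Type*} (A : ℕ → ℕ → Set Edg → Prop) (ω : ℝ → Ω → Edg → Bool) (a N m : ℕ) (w : Ω) :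
    Set ℝ := {t | ∃ i : ℕ, i < 2 ^ m ∧ t = (i:ℝ) / 2 ^ m ∧ A a N (opE ω t w)}

theorem gridT_meas {Ω : Type*} [MeasurableSpace Ω] {μ : Measure Ω} {ω : ℝ → Ω → Edg → Bool}
    (hA : ArmEv A η) (h : IsDP μ ω) (a N m : ℕ) (Q : Set ℝ → Prop) :
    MeasurableSet {w | Q (gridT A ω a N m w)} := by
  classical
  have h1 : {w | Q (gridT A ω a N m w)} = (fun w => fun i : Fin (2 ^ m) =>
      decide (A a N (opE ω ((i:ℕ) / 2 ^ m : ℝ) w))) ⁻¹' {g | Q {t | ∃ i : Fin (2 ^ m),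
        t = ((i:ℕ):ℝ) / 2 ^ m ∧ g i = true}} := by
    ext w
    rw [Set.mem_preimage]
    show Q _ ↔ Q _
    have : gridT A ω a N m w = {t | ∃ i : Fin (2 ^ m), t = ((i:ℕ):ℝ) / 2 ^ m ∧
        decide (A a N (opE ω ((i:ℕ) / 2 ^ m : ℝ) w)) = true} := by
      ext t
      constructor
      · rintro ⟨i, hi, rfl, ht⟩
        exact ⟨⟨i, hi⟩, rfl, decide_eq_true ht⟩
      · rintro ⟨i, rfl, ht⟩
        exact ⟨i, i.2, rfl, of_decide_eq_true ht⟩
    rw [this]
  rw [h1]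
  refine measurable_pi_iff.2 (fun i => ?_) (Set.Finite.measurableSet (Set.toFinite _))
  refine measurable_to_bool ?_
  have h2 : (fun w => decide (A a N (opE ω ((i:ℕ) / 2 ^ m : ℝ) w))) ⁻¹' {true} =
      {w | A a N (opE ω ((i:ℕ) / 2 ^ m : ℝ) w)} := by
    ext w
    simp
  rw [h2]
  exact s_meas hA h a N _

/-- **Second moment.** -/
theorem grid_event (hA : ArmEv A η) (hlow : ∃ c : ℝ, 0 < c ∧ ∀ N : ℕ, 1 ≤ N →
      c * (N:ℝ) ^ (-η) ≤ pA A 1 N) {d : ℝ} (hd0 : 0 < d) (hd : d < 1 - 4/3 * η) :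
    ∃ c0 c1 : ℝ, 0 < c0 ∧ 0 < c1 ∧ ∀ (Ω : Type) [MeasurableSpace Ω] (μ : Measure Ω)
      [IsProbabilityMeasure μ] (ω : ℝ → Ω → Edg → Bool), IsDP μ ω → ∀ N : ℕ, 1 ≤ N →
      ∀ δ : ℝ, 0 < δ → ∃ m : ℕ, c0 ≤ μ.real {w | Good d δ c1 (gridT A ω 1 N m w)} := by
  have hη := hA.pos
  obtain ⟨C, hC, hq⟩ := g_bound hA
  obtain ⟨cl, hcl, hlow⟩ := hlow
  obtain ⟨s, hs⟩ : ∃ s : ℝ, s = d + 4/3 * η := ⟨_, rfl⟩
  have hs1 : s < 1 := by rw [hs]; linarith
  have hs0 : 0 < s := by rw [hs]; positivity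
  obtain ⟨B, hB⟩ : ∃ B : ℝ, B = C * 2 ^ (4/3 * η) / cl ^ 2 := ⟨_, rfl⟩
  have hB0 : 0 < B := by rw [hB]; positivity
  obtain ⟨K, hK⟩ : ∃ K : ℝ, K = 1 + 2 * B / (1 - s) := ⟨_, rfl⟩
  have h1s : 0 < 1 - s := by linarith
  have hK0 : 0 < K := by rw [hK]; positivity
  refine ⟨1 / (2 * K), 2 ^ (-d) / (16 * K), by positivity, by positivity, ?_⟩
  intro Ω _ μ _ ω h N hN δ hδ
  have hNr : (0:ℝ) < N := by exact_mod_cast hN
  have hp1 := hlow N hN
  have hp0 : 0 < pA A 1 N := lt_of_lt_of_le (by positivity) hp1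
  obtain ⟨p, hp⟩ : ∃ p : ℝ, p = pA A 1 N := ⟨_, rfl⟩
  rw [← hp] at hp0 hp1
  -- the order of the grid
  have h1d : 0 < 1 - d := by linarith
  obtain ⟨m, hm1, hm2⟩ : ∃ m : ℕ, (1:ℝ) / 2 ^ m ≤ δ ∧ 1 ≤ ((2:ℝ) ^ m) ^ (1 - d) * p := by
    have hb : 1 < (2:ℝ) ^ (1 - d) := Real.one_lt_rpow (by norm_num) h1d
    obtain ⟨m1, hm1⟩ := pow_unbounded_of_one_lt (1 / δ) (one_lt_two (α := ℝ))
    obtain ⟨m2, hm2⟩ := pow_unbounded_of_one_lt (1 / p) hb
    refine ⟨max m1 m2, ?_, ?_⟩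
    · have h3 : (2:ℝ) ^ m1 ≤ 2 ^ (max m1 m2) :=
        pow_le_pow_right₀ (by norm_num) (le_max_left _ _)
      rw [div_le_iff₀ (by positivity)]
      rw [div_lt_iff₀ hδ] at hm1
      nlinarith
    · have h3 : ((2:ℝ) ^ (1 - d)) ^ m2 ≤ ((2:ℝ) ^ (1 - d)) ^ (max m1 m2) :=
        pow_le_pow_right₀ hb.le (le_max_right _ _)
      have h4 : ((2:ℝ) ^ (max m1 m2)) ^ (1 - d) = ((2:ℝ) ^ (1 - d)) ^ (max m1 m2) := by
        rw [← Real.rpow_natCast, ← Real.rpow_natCast, ← Real.rpow_mul (by norm_num),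
          ← Real.rpow_mul (by norm_num), mul_comm]
      rw [h4]
      rw [div_lt_iff₀ hp0] at hm2
      nlinarith
  refine ⟨m, ?_⟩
  obtain ⟨M, hM⟩ : ∃ M : ℕ, M = 2 ^ m := ⟨_, rfl⟩
  have hMr : (M:ℝ) = 2 ^ m := by rw [hM]; push_cast; rfl
  have hM0 : (0:ℝ) < M := by rw [hMr]; positivity
  have hM1 : (1:ℝ) ≤ M := by rw [hMr]; exact one_le_pow₀ (by norm_num)
  rw [← hMr] at hm1 hm2
  -- the kernel
  obtain ⟨k, hk⟩ : ∃ k : ℕ → ℕ → ℝ, k = fun (i j : ℕ) =>
    (max (dist ((i:ℝ) / M) ((j:ℝ) / M)) (1 / M)) ^ (-d) := ⟨_, rfl⟩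
  obtain ⟨E, hE⟩ : ∃ E : ℕ → Set Ω, E = fun (i : ℕ) => {w | A 1 N (opE ω ((i:ℝ) / M) w)} := ⟨_, rfl⟩
  have hEm : ∀ i, MeasurableSet (E i) := fun i => by rw [hE]; exact s_meas hA h 1 N _
  have hE1 : ∀ i, μ.real (E i) = p := fun i => by
    rw [hE, hp]; exact s_one hA h (by positivity) 1 N
  have hsumE : ∑ i ∈ range M, μ.real (E i) = M * p := by
    rw [Finset.sum_congr rfl (fun i _ => hE1 i), Finset.sum_const, Finset.card_range,
      nsmul_eq_mul]
  have hk1 : ∀ i ∈ range M, ∀ j ∈ range M, 1 ≤ k i j := by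
    intro i hi j hj
    rw [Finset.mem_range] at hi hj
    rw [hk]
    refine Real.one_le_rpow_of_pos_of_le_one_of_nonpos ?_ ?_ (by linarith)
    · exact lt_of_lt_of_le (by positivity) (le_max_right _ _)
    · refine max_le ?_ ((div_le_one hM0).mpr hM1)
      rw [Real.dist_eq, ← sub_div, abs_div, abs_of_pos hM0, div_le_one hM0]
      have hi' : (i:ℝ) ≤ M := by exact_mod_cast hi.le
      have hj' : (j:ℝ) ≤ M := by exact_mod_cast hj.le
      have hi0 : (0:ℝ) ≤ i := Nat.cast_nonneg _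
      have hj0 : (0:ℝ) ≤ j := Nat.cast_nonneg _
      rw [abs_le]
      constructor <;> linarith
  obtain ⟨G, hG⟩ : ∃ G : ℕ → ℝ, G = fun (n : ℕ) => B * p ^ 2 * ((M:ℝ) ^ s * (n:ℝ) ^ (-s)) := ⟨_, rfl⟩
  have hG0 : ∀ n, 0 ≤ G n := fun n => by rw [hG]; positivity
  have hpair : ∀ i j : ℕ, i < j → j < M → k i j * μ.real (E i ∩ E j) ≤ G (j - i) := by
    intro i j hij hj
    have hst : (i:ℝ) / M ≤ (j:ℝ) / M := by
      have : (i:ℝ) ≤ j := by exact_mod_cast hij.le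
      gcongr
    have hE2 : μ.real (E i ∩ E j) = qA A (Real.exp (-((j:ℝ) / M - (i:ℝ) / M))) 1 N := by
      rw [hE]; exact s_two hA h (by positivity) hst 1 N
    obtain ⟨n, hn⟩ : ∃ n : ℕ, n = j - i := ⟨_, rfl⟩
    have hn1 : (1:ℝ) ≤ n := by exact_mod_cast (by omega : 1 ≤ n)
    have hnM : (n:ℝ) ≤ M := by exact_mod_cast (by omega : n ≤ M)
    have he : (j:ℝ) / M - (i:ℝ) / M = (n:ℝ) / M := by
      rw [hn, Nat.cast_sub hij.le]; ring
    have hkij : k i j = ((n:ℝ) / M) ^ (-d) := by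
      rw [hk]
      simp only
      congr 1
      rw [dist_comm, Real.dist_eq, he, abs_of_nonneg (by positivity)]
      exact max_eq_left (div_le_div_of_nonneg_right hn1 hM0.le)
    rw [hE2, he, hkij, ← hn]
    obtain ⟨u, hu⟩ : ∃ u : ℝ, u = (n:ℝ) / M := ⟨_, rfl⟩
    have hu0 : 0 < u := by rw [hu]; positivity
    have hu1 : u ≤ 1 := by rw [hu]; exact (div_le_one hM0).2 hnM
    rw [← hu]
    have h1 := F1c_exp hu0.le hu1
    have hx1 : Real.exp (-u) < 1 := by rw [Real.exp_lt_one_iff]; linarith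
    have h2 := hq 1 N (Real.exp (-u)) le_rfl hN (Real.exp_pos _).le hx1
    have h3 : (1 - Real.exp (-u)) ^ (-(4/3 * η) : ℝ) ≤ (u / 2) ^ (-(4/3 * η) : ℝ) :=
      Real.rpow_le_rpow_of_nonpos (by positivity) h1 (by linarith)
    have h4 : (u / 2) ^ (-(4/3 * η) : ℝ) = u ^ (-(4/3 * η) : ℝ) * 2 ^ (4/3 * η) := by
      rw [Real.div_rpow hu0.le (by norm_num), Real.rpow_neg (by norm_num : (0:ℝ) ≤ 2),
        div_inv_eq_mul]
    have h5 : (((1:ℕ):ℝ) / N) ^ (2 * η) ≤ p ^ 2 / cl ^ 2 := by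
      rw [le_div_iff₀ (by positivity)]
      have e : (((1:ℕ):ℝ) / N) ^ (2 * η) = ((N:ℝ) ^ (-η)) ^ 2 := by
        rw [Nat.cast_one, one_div, ← Real.rpow_natCast, ← Real.rpow_mul hNr.le,
          Real.inv_rpow hNr.le, ← Real.rpow_neg hNr.le]
        congr 1
        push_cast
        ring
      rw [e, ← mul_pow, mul_comm]
      exact pow_le_pow_left₀ (by positivity) hp1 2
    have h6 : qA A (Real.exp (-u)) 1 N ≤ B * p ^ 2 * u ^ (-(4/3 * η) : ℝ) := by
      calc qA A (Real.exp (-u)) 1 N ≤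
          C * (1 - Real.exp (-u)) ^ (-(4/3 * η) : ℝ) * (((1:ℕ):ℝ) / N) ^ (2 * η) := h2
        _ ≤ C * (u ^ (-(4/3 * η) : ℝ) * 2 ^ (4/3 * η)) * (p ^ 2 / cl ^ 2) := by
            refine mul_le_mul (mul_le_mul_of_nonneg_left (h3.trans h4.le) hC.le) h5
              (by positivity) (by positivity)
        _ = B * p ^ 2 * u ^ (-(4/3 * η) : ℝ) := by rw [hB]; ring
    calc u ^ (-d) * qA A (Real.exp (-u)) 1 N ≤ u ^ (-d) * (B * p ^ 2 * u ^ (-(4/3 * η) : ℝ)) :=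
          mul_le_mul_of_nonneg_left h6 (by positivity)
      _ = B * p ^ 2 * (u ^ (-d) * u ^ (-(4/3 * η) : ℝ)) := by ring
      _ = B * p ^ 2 * u ^ (-s) := by
          rw [← Real.rpow_add hu0, hs]
          congr 2
          ring
      _ = G n := by
          rw [hG, hu]
          simp only
          rw [Real.div_rpow (by positivity) hM0.le, Real.rpow_neg hM0.le, div_inv_eq_mul,
            mul_comm ((n:ℝ) ^ (-s))]
  have hdiag : ∀ i : ℕ, i < M → k i i * μ.real (E i ∩ E i) ≤ (M:ℝ) ^ d * p := by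
    intro i _
    rw [Set.inter_self, hE1, hk]
    simp only
    rw [dist_self, max_eq_right (by positivity), one_div, Real.inv_rpow hM0.le,
      Real.rpow_neg hM0.le, inv_inv]
  have hsum : ∑ i ∈ range M, ∑ j ∈ range M, k i j * μ.real (E i ∩ E j) ≤
      K * (∑ i ∈ range M, μ.real (E i)) ^ 2 := by
    have hksymm : ∀ i j, k i j = k j i := fun i j => by rw [hk]; simp only; rw [dist_comm]
    have h1 := H766SM.pair_sum M (fun i j => k i j * μ.real (E i ∩ E j)) G ((M:ℝ) ^ d * p) hG0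
      hdiag (fun i j hij hj => ⟨hpair i j hij hj, by
        rw [Set.inter_comm, hksymm]; exact hpair i j hij hj⟩)
    refine h1.trans ?_
    rw [hsumE]
    have h2 : ∑ n ∈ Icc 1 M, G n ≤ B * p ^ 2 * (M / (1 - s)) := by
      rw [hG]
      simp only
      rw [← Finset.mul_sum, ← Finset.mul_sum]
      refine mul_le_mul_of_nonneg_left ?_ (by positivity)
      have h3 := sum_pow2 h1s (by linarith) M
      rw [show (1 - s - 1 : ℝ) = -s by ring] at h3
      calc (M:ℝ) ^ s * ∑ n ∈ Icc 1 M, (n:ℝ) ^ (-s) ≤ (M:ℝ) ^ s * ((M:ℝ) ^ (1 - s) / (1 - s)) :=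
            mul_le_mul_of_nonneg_left h3 (by positivity)
        _ = ((M:ℝ) ^ s * (M:ℝ) ^ (1 - s)) / (1 - s) := by ring
        _ = M / (1 - s) := by
            rw [← Real.rpow_add hM0]
            norm_num
    have h4 : (M:ℝ) ^ d * p ≤ M * p ^ 2 := by
      have h5 : (M:ℝ) ^ d * ((M:ℝ) ^ (1 - d) * p) = M * p := by
        rw [← mul_assoc, ← Real.rpow_add hM0]
        norm_num
      calc (M:ℝ) ^ d * p = (M:ℝ) ^ d * 1 * p := by ring
        _ ≤ (M:ℝ) ^ d * ((M:ℝ) ^ (1 - d) * p) * p :=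
            mul_le_mul_of_nonneg_right (mul_le_mul_of_nonneg_left hm2 (by positivity)) hp0.le
        _ = M * p ^ 2 := by rw [h5]; ring
    have h6 : (M:ℝ) * ((M:ℝ) ^ d * p) ≤ M * (M * p ^ 2) := mul_le_mul_of_nonneg_left h4 hM0.le
    have h7 : 2 * (M:ℝ) * ∑ n ∈ Icc 1 M, G n ≤ 2 * M * (B * p ^ 2 * (M / (1 - s))) :=
      mul_le_mul_of_nonneg_left h2 (by positivity)
    have h8 : (M:ℝ) * (M * p ^ 2) + 2 * M * (B * p ^ 2 * (M / (1 - s))) = K * (M * p) ^ 2 := by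
      rw [hK]; field_simp
    linarith
  have hpos : 0 < ∑ i ∈ range M, μ.real (E i) := by rw [hsumE]; positivity
  refine energy_event μ (range M) E hEm k hk1 K hK0 hpos hsum _
    (gridT_meas hA h 1 N m (fun T => Good d δ (2 ^ (-d) / (16 * K)) T)) ?_
  intro w hw hen
  classical
  show Good d δ (2 ^ (-d) / (16 * K)) (gridT A ω 1 N m w)
  refine Good.anti ?_ hm1
  obtain ⟨S, hS⟩ : ∃ S : Finset ℝ, S = ((range M).filter (fun i => w ∈ E i)).image
      (fun i : ℕ => (i:ℝ) / M) := ⟨_, rfl⟩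
  have hinj : Set.InjOn (fun i : ℕ => (i:ℝ) / M) (↑((range M).filter (fun i => w ∈ E i)) : Set ℕ) := by
    intro i _ j _ hij
    have h1 : (i:ℝ) / M = (j:ℝ) / M := hij
    rw [div_left_inj' hM0.ne'] at h1
    exact_mod_cast h1
  have hcard : (S.card : ℝ) = ∑ i ∈ range M, (E i).indicator (1 : Ω → ℝ) w := by
    rw [hS, Finset.card_image_of_injOn hinj, Finset.card_filter]
    push_cast
    refine Finset.sum_congr rfl (fun i _ => ?_)
    by_cases h1 : w ∈ E i <;> simp [h1]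
  refine good_of_energy (by positivity) hd0.le (by positivity) S ?_ ?_ ?_
  · obtain ⟨i, hi, hwi⟩ := hw
    exact ⟨(i:ℝ) / M, by
      rw [hS]; exact Finset.mem_image_of_mem _ (Finset.mem_filter.mpr ⟨hi, hwi⟩)⟩
  · intro t ht
    rw [hS, Finset.coe_image] at ht
    obtain ⟨i, hi, rfl⟩ := ht
    rw [Finset.coe_filter] at hi
    obtain ⟨hi1, hi2⟩ := hi
    rw [Finset.mem_range, hM] at hi1
    rw [hE] at hi2
    refine ⟨i, hi1, by rw [hMr], hi2⟩
  · rw [hcard, hS]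
    rw [Finset.sum_image hinj]
    have h2 : ∀ i ∈ (range M).filter (fun i => w ∈ E i),
        ∑ y ∈ ((range M).filter (fun i => w ∈ E i)).image (fun i : ℕ => (i:ℝ) / M),
          (max (dist ((i:ℝ) / M) y) (1 / M)) ^ (-d) =
        ∑ j ∈ (range M).filter (fun i => w ∈ E i), k i j := by
      intro i _
      rw [Finset.sum_image hinj, hk]
    rw [Finset.sum_congr rfl h2]
    refine le_trans (le_of_eq ?_) hen
    rw [Finset.sum_filter]
    refine Finset.sum_congr rfl (fun i _ => ?_)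
    rw [Finset.sum_filter]
    by_cases h3 : w ∈ E i
    · rw [if_pos h3]
      refine Finset.sum_congr rfl (fun j _ => ?_)
      by_cases h4 : w ∈ E j
      · rw [if_pos h4]; simp [h3, h4]
      · rw [if_neg h4]; simp [h4]
    · rw [if_neg h3]
      symm
      refine Finset.sum_eq_zero (fun j _ => ?_)
      simp [h3]

end Pool.Agent.Y197.DP
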