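import Pool.Agent.TH291.NW.Slab
import Pool.Agent.Y197.DP.Piv

/-!
The pivotal edges of a connection event in a shell, for a fixed configuration outside of the
shell.
-/

set_option autoImplicit false

namespace Pool.Agent.Y197.DP

open H974 H12S H973N H973N.WHX Finset TH291.NW

open Classical in
theorem gen_sumO {q κ : ℝ} {n : ℕ} (h : Win q κ n) (S : Finset Edg) (I J : Set Vtx)
    (O : Set Edg) (hO : Disjoint O ↑S) (K : ℕ)
    (hK : 4 * 2^K ≤ n) (T : ℕ → Finset (ℤ × ℤ)) (R : Finset Edg)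
    (hR : ∀ g ∈ S, ¬ Good S I J 0 g → g ∈ R)
    (hT : ∀ g ∈ S, ∀ k ≤ K, Good S I J k g → (k < K → ¬ Good S I J (k + 1) g) →
      til (2^k) g ∈ T k) :
    ∑ g ∈ S, PQ q S (Pf (CO I J O) g) ≤ 3 * Real.sqrt R.card +
      784 * κ⁻¹ ^ 4 * ∑ k ∈ Finset.range (K + 1), (4:ℝ)^k * a4 q (2^k) * Real.sqrt (T k).card := by
  have h0 : 0 ≤ q := by linarith [h.lo]
  have h1 : q ≤ 1 := by linarith [h.hi]
  have hok : Ok (fun _ : Edg => q) := fun _ => ⟨h0, h1⟩
  obtain ⟨Cl, hCl⟩ : ∃ Cl : ℕ → Finset Edg, Cl = fun k => S.filter (fun g => Good S I J k g ∧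
    (k < K → ¬ Good S I J (k + 1) g)) := ⟨_, rfl⟩
  obtain ⟨R', hR'⟩ : ∃ R' : Finset Edg, R' = S.filter (fun g => ¬ Good S I J 0 g) := ⟨_, rfl⟩
  have hcover : ∀ g ∈ S, g ∈ R' ∨ ∃ k ∈ Finset.range (K + 1), g ∈ Cl k := by
    intro g hg
    by_cases hd : Good S I J 0 g
    · right
      obtain ⟨k, hk⟩ : ∃ k : ℕ, k = Nat.findGreatest (fun k => Good S I J k g) K := ⟨_, rfl⟩
      have hkK : k ≤ K := by rw [hk]; exact Nat.findGreatest_le K
      refine ⟨k, by rw [Finset.mem_range]; omega, ?_⟩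
      rw [hCl, Finset.mem_filter]
      refine ⟨hg, ?_, ?_⟩
      · have := Nat.findGreatest_spec (P := fun k => Good S I J k g) (m := 0)
          (Nat.zero_le K) hd
        rw [hk]
        exact this
      · intro hlt
        exact Nat.findGreatest_is_greatest (P := fun k => Good S I J k g)
          (n := K) (k := k + 1) (by omega) (by omega)
    · left
      rw [hR', Finset.mem_filter]
      exact ⟨hg, hd⟩
  have hsum : ∑ g ∈ S, PQ q S (Pf (CO I J O) g) ≤ ∑ g ∈ R', PQ q S (Pf (CO I J O) g) +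
      ∑ k ∈ Finset.range (K + 1), ∑ g ∈ Cl k, PQ q S (Pf (CO I J O) g) := by
    have e1 : ∑ g ∈ R', PQ q S (Pf (CO I J O) g) =
        ∑ g ∈ S, if g ∈ R' then PQ q S (Pf (CO I J O) g) else 0 := by
      rw [← Finset.sum_filter]
      congr 1
      ext g
      rw [hR']
      exact ⟨fun hg => Finset.mem_filter.mpr ⟨(Finset.mem_filter.mp hg).1, hg⟩,
        fun hg => (Finset.mem_filter.mp hg).2⟩
    have e2 : ∀ k, ∑ g ∈ Cl k, PQ q S (Pf (CO I J O) g) =
        ∑ g ∈ S, if g ∈ Cl k then PQ q S (Pf (CO I J O) g) else 0 := by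
      intro k
      rw [← Finset.sum_filter]
      congr 1
      ext g
      rw [hCl]
      exact ⟨fun hg => Finset.mem_filter.mpr ⟨(Finset.mem_filter.mp hg).1, hg⟩,
        fun hg => (Finset.mem_filter.mp hg).2⟩
    rw [e1, Finset.sum_congr rfl (fun k _ => e2 k), Finset.sum_comm, ← Finset.sum_add_distrib]
    apply Finset.sum_le_sum
    intro g hg
    have hp : 0 ≤ PQ q S (Pf (CO I J O) g) := Pr_nonneg hok _ _
    have hnn : ∀ k, 0 ≤ (if g ∈ Cl k then PQ q S (Pf (CO I J O) g) else 0) := by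
      intro k
      split_ifs
      · exact hp
      · exact le_rfl
    rcases hcover g hg with hg' | ⟨k, hk, hgk⟩
    · rw [if_pos hg']
      exact le_add_of_nonneg_right (Finset.sum_nonneg (fun k _ => hnn k))
    · have h5 := Finset.single_le_sum (f := fun k => if g ∈ Cl k then
        PQ q S (Pf (CO I J O) g) else 0) (fun k _ => hnn k) hk
      simp only [if_pos hgk] at h5
      refine h5.trans (le_add_of_nonneg_left ?_)
      split_ifs
      · exact hp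
      · exact le_rfl
  have hrest : ∑ g ∈ R', PQ q S (Pf (CO I J O) g) ≤ 3 * Real.sqrt R.card := by
    have hRS : R' ⊆ S := by rw [hR']; exact Finset.filter_subset _ _
    have hmono : ∀ F F' : Finset Edg, F ⊆ F' → CO I J O F → CO I J O F' := by
      intro F F' hF h
      refine BS_Cn_mono ?_ h
      exact Set.union_subset_union_left _ (by exact_mod_cast hF)
    have hE := edge_sum h.lo h.hi hRS (CO I J O) hmono
    have hRR : R' ⊆ R := by
      intro g hg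
      rw [hR', Finset.mem_filter] at hg
      exact hR g hg.1 hg.2
    refine hE.trans ?_
    have : Real.sqrt (R'.card : ℝ) ≤ Real.sqrt (R.card : ℝ) :=
      Real.sqrt_le_sqrt (by exact_mod_cast Finset.card_le_card hRR)
    linarith
  have hclass : ∀ k ∈ Finset.range (K + 1), ∑ g ∈ Cl k, PQ q S (Pf (CO I J O) g) ≤
      784 * κ⁻¹ ^ 4 * ((4:ℝ)^k * a4 q (2^k) * Real.sqrt (T k).card) := by
    intro k hk
    have hkK : k ≤ K := by rw [Finset.mem_range] at hk; omega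
    have hρ : 1 ≤ 2^k := Nat.one_le_two_pow
    have hKk : (2:ℕ)^k ≤ 2^K := Nat.pow_le_pow_right (by norm_num) hkK
    have hcs := class_sum h (O := O) (S := S) hO (I := I) (J := J) hρ
      (by omega) (Cl k) ?_ ?_ (T k) ?_
    · refine hcs.trans (le_of_eq ?_)
      push_cast
      rw [show (4:ℝ)^k = ((2:ℝ)^k)^2 by
        rw [← pow_mul, mul_comm k 2, pow_mul]; norm_num]
    · intro g hg
      rw [hCl, Finset.mem_filter] at hg
      exact hg.2.1.1
    · intro g hg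
      rw [hCl, Finset.mem_filter] at hg
      exact hg.2.1.2
    · intro g hg
      rw [hCl, Finset.mem_filter] at hg
      exact hT g hg.1 k hkK hg.2.1 hg.2.2
  rw [Finset.mul_sum]
  refine hsum.trans (add_le_add hrest (Finset.sum_le_sum hclass))


/-- the box `[-s,s]²` -/
def inB (s x y : ℤ) : Prop := -s ≤ x ∧ x ≤ s ∧ -s ≤ y ∧ y ≤ s

/-- the tiles near the boundary of `[-u,u]²` -/
noncomputable def rt (u : ℕ) : Finset (ℤ × ℤ) :=
  (Finset.Icc (-(u:ℤ) - 12) ((u:ℤ) + 12) ×ˢ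
      (Finset.Icc ((u:ℤ) - 12) ((u:ℤ) + 12) ∪ Finset.Icc (-(u:ℤ) - 12) (-(u:ℤ) + 12))) ∪
    ((Finset.Icc ((u:ℤ) - 12) ((u:ℤ) + 12) ∪ Finset.Icc (-(u:ℤ) - 12) (-(u:ℤ) + 12)) ×ˢ
      Finset.Icc (-(u:ℤ) - 12) ((u:ℤ) + 12))

theorem card_rt (u : ℕ) : (rt u).card ≤ 200 * u + 2500 := by
  have hB : (Finset.Icc (-(u:ℤ) - 12) ((u:ℤ) + 12)).card = 2 * u + 25 := by
    rw [Int.card_Icc]; omega
  have hE : (Finset.Icc ((u:ℤ) - 12) ((u:ℤ) + 12) ∪
      Finset.Icc (-(u:ℤ) - 12) (-(u:ℤ) + 12)).card ≤ 50 := by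
    refine (Finset.card_union_le _ _).trans ?_
    rw [Int.card_Icc, Int.card_Icc]
    omega
  unfold rt
  refine (Finset.card_union_le _ _).trans ?_
  rw [Finset.card_product, Finset.card_product, hB]
  have h1 := Nat.mul_le_mul_left (2 * u + 25) hE
  have h2 := Nat.mul_le_mul_right (2 * u + 25) hE
  refine (Nat.add_le_add h1 h2).trans ?_
  ring_nf
  exact le_rfl

theorem mem_rt {u : ℕ} {x y : ℤ} (h1 : inB (u + 12) x y) (h2 : ¬ inB (u - 13) x y) :
    (x, y) ∈ rt u := by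
  unfold inB at h1 h2
  unfold rt
  simp only [Finset.mem_union, Finset.mem_product, Finset.mem_Icc]
  omega

theorem mem_rt' {s m : ℕ} (hm : 1 ≤ m) {x y : ℤ} (h1 : inB (s + 10 * m) (m * x) (m * y))
    (h2 : ¬ inB (s - 10 * m - 1) (m * x) (m * y)) : (x, y) ∈ rt (s / m) := by
  obtain ⟨u, hu⟩ : ∃ u : ℕ, u = s / m := ⟨_, rfl⟩
  have hmZ : (0:ℤ) < m := by exact_mod_cast hm
  have e1 : m * u ≤ s := by rw [hu]; exact Nat.mul_div_le s m
  have e2 : s < m * (u + 1) := by rw [hu]; exact Nat.lt_mul_div_succ s hm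
  have e1' : (m:ℤ) * u ≤ s := by exact_mod_cast e1
  have e2' : (s:ℤ) < m * (u + 1) := by exact_mod_cast e2
  rw [← hu]
  have k1 : ∀ z : ℤ, (m:ℤ) * z ≤ s + 10 * m → z ≤ u + 12 := by
    intro z hz
    have : (m:ℤ) * z < m * (u + 11) := by
      have : (m:ℤ) * (u + 11) = m * (u + 1) + 10 * m := by ring
      omega
    have := lt_of_mul_lt_mul_left this hmZ.le
    omega
  have k2 : ∀ z : ℤ, -((s:ℤ) + 10 * m) ≤ m * z → -((u:ℤ) + 12) ≤ z := by
    intro z hz
    have := k1 (-z) (by rw [mul_neg]; omega)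
    omega
  have k3 : ∀ z : ℤ, (s:ℤ) - 10 * m - 1 < m * z → (u:ℤ) - 13 < z := by
    intro z hz
    have : (m:ℤ) * (u - 11) < m * z := by
      have : (m:ℤ) * (u - 11) = m * u - 10 * m - m := by ring
      omega
    have := lt_of_mul_lt_mul_left this hmZ.le
    omega
  have k4 : ∀ z : ℤ, (m:ℤ) * z < -((s:ℤ) - 10 * m - 1) → z < -((u:ℤ) - 13) := by
    intro z hz
    have := k3 (-z) (by rw [mul_neg]; omega)
    omega
  apply mem_rt
  · unfold inB at h1 ⊢
    exact ⟨k2 _ h1.1, k1 _ h1.2.1, k2 _ h1.2.2.1, k1 _ h1.2.2.2⟩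
  · intro h3
    apply h2
    unfold inB at h3 ⊢
    refine ⟨?_, ?_, ?_, ?_⟩
    · by_contra hc
      have := k4 x (by omega)
      omega
    · by_contra hc
      have := k3 x (by omega)
      omega
    · by_contra hc
      have := k4 y (by omega)
      omega
    · by_contra hc
      have := k3 y (by omega)
      omega

/-- a shell between the radii `r` and `ρ` -/
structure Shl (r ρ : ℕ) (S : Finset Edg) (I J : Set Vtx) : Prop where
  inn : ∀ g : Edg, ¬ inB (r + 3) g.1 g.2.1 → inB (ρ - 4) g.1 g.2.1 → g ∈ S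
  out : ∀ g ∈ S, inB (ρ + 3) g.1 g.2.1 ∧ ¬ inB (r - 4) g.1 g.2.1
  ver : ∀ v ∈ I ∪ J, inB (r + 3) v.1 v.2 ∨ ¬ inB (ρ - 4) v.1 v.2

theorem good_of {r ρ : ℕ} {S : Finset Edg} {I J : Set Vtx} (h : Shl r ρ S I J) {k : ℕ} {g : Edg}
    (h1 : ¬ inB (r + 3 + 8 * 2 ^ k) g.1 g.2.1) (h2 : inB (ρ - 4 - 8 * 2 ^ k) g.1 g.2.1) :
    Good S I J k g := by
  obtain ⟨p, hp⟩ : ∃ p : ℕ, p = 2 ^ k := ⟨_, rfl⟩
  have hp1 : 1 ≤ p := by rw [hp]; exact Nat.one_le_two_pow
  have hpZ : ((2:ℤ) ^ k) = p := by rw [hp]; push_cast; rfl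
  rw [hpZ] at h1 h2
  have ht := til_near hp1 g
  unfold Good
  rw [← hp]
  obtain ⟨c1, hc1⟩ : ∃ c1 : ℤ, c1 = ((2 * p : ℕ) : ℤ) * (til p g).1 := ⟨_, rfl⟩
  obtain ⟨c2, hc2⟩ : ∃ c2 : ℤ, c2 = ((2 * p : ℕ) : ℤ) * (til p g).2 := ⟨_, rfl⟩
  rw [← hc1, ← hc2] at ht ⊢
  have hw : ((3 * (2 * p) : ℕ) : ℤ) = 6 * p := by push_cast; ring
  have hw2 : 3 * ((2 * p : ℕ) : ℤ) = 6 * p := by push_cast; ring
  rw [hw2]
  constructor
  · rintro ⟨x, y, b⟩ he
    unfold blk at he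
    rw [hw] at he
    have hb : (c1 - 6 * p ≤ x ∧ x ≤ c1 + 6 * p) ∧ (c2 - 6 * p ≤ y ∧ y ≤ c2 + 6 * p) := by
      cases b
      · rw [mem_RE_false] at he; simp only at he; omega
      · rw [mem_RE_true] at he; simp only at he; omega
    apply h.inn
    · unfold inB at h1 ⊢; simp only; omega
    · unfold inB at h2 ⊢; simp only; omega
  · intro v hv hcon
    rcases h.ver v hv with h3 | h3
    · unfold inB at h1 h3; omega
    · unfold inB at h2 h3; omega

theorem tile_of {r ρ : ℕ} {S : Finset Edg} {I J : Set Vtx} (h : Shl r ρ S I J) {k : ℕ} {g : Edg}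
    (hg : g ∈ S) (hb : (¬ Good S I J (k + 1) g) ∨ ρ ≤ 2 ^ k) :
    til (2 ^ k) g ∈ rt (r / (2 * 2 ^ k)) ∪ rt (ρ / (2 * 2 ^ k)) := by
  obtain ⟨p, hp⟩ : ∃ p : ℕ, p = 2 ^ k := ⟨_, rfl⟩
  have hp1 : 1 ≤ p := by rw [hp]; exact Nat.one_le_two_pow
  have hpZ : ((2:ℤ) ^ (k + 1)) = 2 * p := by rw [hp, pow_succ]; push_cast; ring
  have ht := til_near hp1 g
  rw [← hp] at hb ⊢
  obtain ⟨t, htt⟩ : ∃ t : ℤ × ℤ, t = til p g := ⟨_, rfl⟩
  rw [← htt] at ht ⊢
  obtain ⟨c1, hc1⟩ : ∃ c1 : ℤ, c1 = ((2 * p : ℕ) : ℤ) * t.1 := ⟨_, rfl⟩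
  obtain ⟨c2, hc2⟩ : ∃ c2 : ℤ, c2 = ((2 * p : ℕ) : ℤ) * t.2 := ⟨_, rfl⟩
  rw [← hc1, ← hc2] at ht
  have ho := h.out g hg
  rw [Finset.mem_union]
  have hcase : (inB (r + 3 + 8 * (2 * p)) g.1 g.2.1) ∨
      ((¬ inB (ρ - 4 - 8 * (2 * p)) g.1 g.2.1) ∨ ρ ≤ p) := by
    by_contra hcon
    push Not at hcon
    rcases hb with hb | hb
    · apply hb
      apply good_of h
      · rw [hpZ]; exact hcon.1
      · rw [hpZ]; exact hcon.2.1
    · omega
  rcases hcase with h1 | h1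
  · left
    have : t = (t.1, t.2) := rfl
    rw [this]
    apply mem_rt' (by omega)
    · rw [← hc1, ← hc2]
      unfold inB at h1 ⊢
      push_cast
      omega
    · rw [← hc1, ← hc2]
      intro h2
      apply ho.2
      unfold inB at h2 ⊢
      push_cast at h2
      omega
  · right
    have : t = (t.1, t.2) := rfl
    rw [this]
    apply mem_rt' (by omega)
    · rw [← hc1, ← hc2]
      have h3 := ho.1
      unfold inB at h3 ⊢
      push_cast
      omega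
    · rw [← hc1, ← hc2]
      intro h2
      unfold inB at h1 h2
      push_cast at h2
      omega

end Pool.Agent.Y197.DP
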