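import Pool.Agent.Y197.DP.Sh0

/-!
The expected number of pivotal edges of a connection event in a shell is at most `C ρ ^ (3/4)`.
-/

set_option autoImplicit false

namespace Pool.Agent.Y197.DP

open H974 H12S H973N H973N.WHX Finset TH291.NW

theorem tile_card {r ρ k : ℕ} (hr : r ≤ ρ) (hk : 2 ^ k ≤ 2 * ρ) :
    Real.sqrt ((rt (r / (2 * 2 ^ k)) ∪ rt (ρ / (2 * 2 ^ k))).card : ℝ) ≤
      101 * (Real.sqrt ρ * ((2:ℝ) ^ k) ^ (-(1/2) : ℝ)) := by
  have hy : (0:ℝ) < (2:ℝ) ^ k := by positivity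
  have h1 : (rt (r / (2 * 2 ^ k)) ∪ rt (ρ / (2 * 2 ^ k))).card ≤
      400 * (ρ / (2 * 2 ^ k)) + 5000 := by
    refine (Finset.card_union_le _ _).trans ?_
    have a1 := card_rt (r / (2 * 2 ^ k))
    have a2 := card_rt (ρ / (2 * 2 ^ k))
    have a3 : r / (2 * 2 ^ k) ≤ ρ / (2 * 2 ^ k) := Nat.div_le_div_right hr
    omega
  have h2 : ((rt (r / (2 * 2 ^ k)) ∪ rt (ρ / (2 * 2 ^ k))).card : ℝ) ≤
      400 * ((ρ:ℝ) / (2 * 2 ^ k)) + 5000 := by
    have b1 : ((rt (r / (2 * 2 ^ k)) ∪ rt (ρ / (2 * 2 ^ k))).card : ℝ) ≤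
        ((400 * (ρ / (2 * 2 ^ k)) + 5000 : ℕ) : ℝ) := by exact_mod_cast h1
    have b2 : ((ρ / (2 * 2 ^ k) : ℕ) : ℝ) ≤ (ρ:ℝ) / ((2 * 2 ^ k : ℕ) : ℝ) := Nat.cast_div_le
    push_cast at b1 b2
    linarith
  have hk' : (2:ℝ) ^ k ≤ 2 * ρ := by exact_mod_cast hk
  have h3 : ((rt (r / (2 * 2 ^ k)) ∪ rt (ρ / (2 * 2 ^ k))).card : ℝ) ≤
      10201 * ((ρ:ℝ) / 2 ^ k) := by
    refine h2.trans ?_
    have c1 : (1:ℝ) ≤ 2 * ((ρ:ℝ) / 2 ^ k) := by
      rw [← mul_div_assoc, le_div_iff₀ hy, one_mul]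
      exact hk'
    have c2 : (ρ:ℝ) / (2 * 2 ^ k) = ((ρ:ℝ) / 2 ^ k) / 2 := by
      field_simp
    rw [c2]
    linarith
  refine (Real.sqrt_le_sqrt h3).trans (le_of_eq ?_)
  rw [Real.sqrt_mul (by norm_num), show (10201:ℝ) = 101 ^ 2 by norm_num,
    Real.sqrt_sq (by norm_num), Real.sqrt_div (Nat.cast_nonneg ρ), Real.rpow_neg hy.le,
    ← Real.sqrt_eq_rpow]
  ring

theorem rest_card {r ρ : ℕ} (hr : r ≤ ρ) (hρ : 1 ≤ ρ) :
    Real.sqrt ((((rt r ∪ rt ρ) ×ˢ (Finset.univ : Finset Bool)).image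
      (fun p => ((p.1.1, p.1.2, p.2) : Edg))).card : ℝ) ≤ 104 * Real.sqrt ρ := by
  have h1 : (((rt r ∪ rt ρ) ×ˢ (Finset.univ : Finset Bool)).image
      (fun p => ((p.1.1, p.1.2, p.2) : Edg))).card ≤ 10816 * ρ := by
    refine Finset.card_image_le.trans ?_
    rw [Finset.card_product]
    have h2 := Finset.card_union_le (rt r) (rt ρ)
    have h3 := card_rt r
    have h4 := card_rt ρ
    have h5 : (Finset.univ : Finset Bool).card = 2 := by simp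
    rw [h5]
    omega
  have h2 : ((((rt r ∪ rt ρ) ×ˢ (Finset.univ : Finset Bool)).image
      (fun p => ((p.1.1, p.1.2, p.2) : Edg))).card : ℝ) ≤ 10816 * ρ := by exact_mod_cast h1
  refine (Real.sqrt_le_sqrt h2).trans (le_of_eq ?_)
  rw [Real.sqrt_mul (by norm_num), show (10816:ℝ) = 104 ^ 2 by norm_num,
    Real.sqrt_sq (by norm_num)]

/-- The expected number of pivotal edges in a shell, for a fixed configuration `O` outside. -/
theorem shell : ∃ C : ℝ, 0 < C ∧ ∀ (r ρ : ℕ) (S : Finset Edg) (I J : Set Vtx) (O : Set Edg),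
    1 ≤ ρ → r ≤ ρ → Shl r ρ S I J → Disjoint O ↑S →
    ∑ g ∈ S, PQ (1/2) S (Pf (CO I J O) g) ≤ C * (ρ:ℝ) ^ (3/4 : ℝ) := by
  classical
  obtain ⟨κ, C0, hκ, hC0, hst⟩ := stU
  have hα : (1:ℝ) < (2:ℝ) ^ (1/4 : ℝ) := Real.one_lt_rpow (by norm_num) (by norm_num)
  refine ⟨312 + 784 * κ⁻¹ ^ 4 * (C0 * 101 * ((4:ℝ) ^ (1/4 : ℝ) / ((2:ℝ) ^ (1/4 : ℝ) - 1))),
    ?_, ?_⟩
  · have : 0 < (2:ℝ) ^ (1/4 : ℝ) - 1 := by linarith
    positivity
  intro r ρ S I J O hρ hr hS hO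
  have hρ0 : (0:ℝ) < ρ := by exact_mod_cast hρ
  have hρ1 : (1:ℝ) ≤ ρ := by exact_mod_cast hρ
  obtain ⟨K, hK1, hK2⟩ : ∃ K : ℕ, ρ ≤ 2 ^ K ∧ 2 ^ K ≤ 2 * ρ := by
    refine ⟨Nat.log 2 ρ + 1, (Nat.lt_pow_succ_log_self (by norm_num) ρ).le, ?_⟩
    have := Nat.pow_log_le_self 2 (show ρ ≠ 0 by omega)
    rw [pow_succ]
    omega
  have hn1 : 1 ≤ 4 * 2 ^ K := by have := Nat.one_le_two_pow (n := K); omega
  obtain ⟨hW, hA⟩ := hst (4 * 2 ^ K) hn1 (1/2) (by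
    rw [sub_self, abs_zero]
    positivity)
  have hmain := gen_sumO hW S I J O hO K le_rfl
    (fun k => rt (r / (2 * 2 ^ k)) ∪ rt (ρ / (2 * 2 ^ k)))
    (((rt r ∪ rt ρ) ×ˢ (Finset.univ : Finset Bool)).image (fun p => ((p.1.1, p.1.2, p.2) : Edg)))
    (by
      rintro ⟨x, y, b⟩ hg hb
      rw [Finset.mem_image]
      refine ⟨((x, y), b), ?_, rfl⟩
      rw [Finset.mem_product]
      refine ⟨?_, Finset.mem_univ _⟩
      have ho := hS.out _ hg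
      have hcase : (inB (r + 3 + 8 * 1) x y) ∨ (¬ inB (ρ - 4 - 8 * 1) x y) := by
        by_contra hcon
        push Not at hcon
        apply hb
        apply good_of hS
        · rw [pow_zero]; exact hcon.1
        · rw [pow_zero]; exact hcon.2
      rw [Finset.mem_union]
      rcases hcase with h1 | h1
      · left
        apply mem_rt
        · unfold inB at h1 ⊢; omega
        · intro h2
          apply ho.2
          unfold inB at h2 ⊢; simp only; omega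
      · right
        apply mem_rt
        · have h3 := ho.1
          unfold inB at h3 ⊢; simp only at h3; omega
        · intro h2
          apply h1
          unfold inB at h2 ⊢; omega)
    (by
      intro g hg k hk hgood hnext
      apply tile_of hS hg
      rcases Nat.lt_or_ge k K with h1 | h1
      · exact Or.inl (hnext h1)
      · right
        have : k = K := by omega
        rw [this]
        exact hK1)
  refine hmain.trans ?_
  have hsq : Real.sqrt ρ = (ρ:ℝ) ^ (1/2 : ℝ) := Real.sqrt_eq_rpow _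
  have hle : (ρ:ℝ) ^ (1/2 : ℝ) ≤ (ρ:ℝ) ^ (3/4 : ℝ) :=
    Real.rpow_le_rpow_of_exponent_le hρ1 (by norm_num)
  have hrest := rest_card hr hρ
  have hsc : ∑ k ∈ Finset.range (K + 1), (4:ℝ)^k * a4 (1/2) (2^k) *
      Real.sqrt ((rt (r / (2 * 2 ^ k)) ∪ rt (ρ / (2 * 2 ^ k))).card : ℝ) ≤
      C0 * 101 * ((4:ℝ) ^ (1/4 : ℝ) / ((2:ℝ) ^ (1/4 : ℝ) - 1)) * (ρ:ℝ) ^ (3/4 : ℝ) := by
    have hterm : ∀ k ∈ Finset.range (K + 1), (4:ℝ)^k * a4 (1/2) (2^k) *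
        Real.sqrt ((rt (r / (2 * 2 ^ k)) ∪ rt (ρ / (2 * 2 ^ k))).card : ℝ) ≤
        C0 * 101 * Real.sqrt ρ * (((2:ℝ) ^ k) ^ (1/4 : ℝ)) := by
      intro k hk
      have hkK : k ≤ K := by rw [Finset.mem_range] at hk; omega
      have hpk : 2 ^ k ≤ 2 ^ K := Nat.pow_le_pow_right (by norm_num) hkK
      have hy : (0:ℝ) < (2:ℝ) ^ k := by positivity
      have h1 := hA (2 ^ k) (by omega)
      have h2 := tile_card (r := r) (k := k) hr (by omega)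
      have h3 : a4 (1/2) (2^k) ≤ C0 * ((2:ℝ) ^ k) ^ (-(5/4) : ℝ) := by
        refine h1.trans (mul_le_mul_of_nonneg_left ?_ (by linarith))
        have h4 : (((2 ^ k : ℕ) : ℝ) + 1) ^ (-(5/4 : ℝ) + 0) ≤ ((2:ℝ) ^ k) ^ (-(5/4 : ℝ) + 0) := by
          apply Real.rpow_le_rpow_of_nonpos hy
          · push_cast; linarith
          · norm_num
        refine h4.trans (le_of_eq ?_)
        norm_num
      have h5 : (0:ℝ) ≤ a4 (1/2) (2^k) := a4_nonneg' (by norm_num) (by norm_num) _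
      have h6 : (4:ℝ) ^ k = ((2:ℝ) ^ k) ^ (2:ℝ) := by
        rw [show (2:ℝ) = ((2:ℕ):ℝ) by norm_num, Real.rpow_natCast, ← pow_mul, mul_comm k 2,
          pow_mul]
        norm_num
      calc (4:ℝ)^k * a4 (1/2) (2^k) *
          Real.sqrt ((rt (r / (2 * 2 ^ k)) ∪ rt (ρ / (2 * 2 ^ k))).card : ℝ)
          ≤ (4:ℝ)^k * (C0 * ((2:ℝ) ^ k) ^ (-(5/4) : ℝ)) *
            (101 * (Real.sqrt ρ * ((2:ℝ) ^ k) ^ (-(1/2) : ℝ))) := by
            apply mul_le_mul (mul_le_mul_of_nonneg_left h3 (by positivity)) h2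
              (Real.sqrt_nonneg _)
            have : (0:ℝ) ≤ C0 := by linarith
            positivity
        _ = C0 * 101 * Real.sqrt ρ * (((2:ℝ) ^ k) ^ (2:ℝ) * ((2:ℝ) ^ k) ^ (-(5/4) : ℝ) *
            ((2:ℝ) ^ k) ^ (-(1/2) : ℝ)) := by rw [h6]; ring
        _ = C0 * 101 * Real.sqrt ρ * (((2:ℝ) ^ k) ^ (1/4 : ℝ)) := by
            rw [← Real.rpow_add hy, ← Real.rpow_add hy]
            norm_num
    refine (Finset.sum_le_sum hterm).trans ?_
    rw [← Finset.mul_sum]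
    have h7 := scales_sum (α := 1/4) (x := 4 * ρ) (by norm_num) (K + 1) (by
      have : (2:ℝ) ^ K ≤ 2 * ρ := by exact_mod_cast hK2
      rw [pow_succ]; linarith)
    rw [Real.mul_rpow (by norm_num) hρ0.le] at h7
    have hC : 0 ≤ C0 * 101 * Real.sqrt ρ := by
      have : (0:ℝ) ≤ C0 := by linarith
      positivity
    refine (mul_le_mul_of_nonneg_left h7 hC).trans (le_of_eq ?_)
    rw [hsq]
    have h8 : (ρ:ℝ) ^ (3/4 : ℝ) = (ρ:ℝ) ^ (1/2 : ℝ) * (ρ:ℝ) ^ (1/4 : ℝ) := by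
      rw [← Real.rpow_add hρ0]; norm_num
    rw [h8]
    ring
  have hκ4 : 0 ≤ 784 * κ⁻¹ ^ 4 := by positivity
  have h9 := mul_le_mul_of_nonneg_left hsc hκ4
  have h10 : 3 * Real.sqrt ((((rt r ∪ rt ρ) ×ˢ (Finset.univ : Finset Bool)).image
      (fun p => ((p.1.1, p.1.2, p.2) : Edg))).card : ℝ) ≤ 312 * (ρ:ℝ) ^ (3/4 : ℝ) := by
    rw [hsq] at hrest
    linarith
  refine (add_le_add h10 h9).trans (le_of_eq ?_)
  ring

end Pool.Agent.Y197.DP
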