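import Pool.Agent.Y197.DP.Sh1
import Pool.Agent.Y197.DP.OA

/-!
The expected number of pivotal edges of the two-arm event in a shell.
-/

set_option autoImplicit false

namespace Pool.Agent.Y197.DP

open H389NS H974 H12S H973N H973N.WHX H985T Finset TH291.NW

/-- the primal connection -/
def Pc (a R : ℕ) (F : Finset Edg) : Prop := Cn {v | onB a v} {v | onB R v} (↑F : Set Edg)

/-- the dual connection in `U` -/
def Dd (U : Finset Edg) (I J : Set Vtx) (F : Finset Edg) : Prop :=
  ∃ w ∈ I, ∃ w' ∈ J, DReach (↑(U \ F) : Set Edg) w w'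

theorem AA_iff {a R : ℕ} {F : Finset Edg} (hF : F ⊆ An a R) :
    AA a R (↑F : Set Edg) ↔ Pc a R F ∧ Dd (An a R) {v | nb a v} {v | nb R v} F := by
  have e1 : (↑F : Set Edg) ∩ ↑(An a R) = ↑F :=
    Set.inter_eq_left.mpr (by exact_mod_cast hF)
  unfold H985T.AA Pc Dd Cn
  rw [e1, Finset.coe_sdiff]
  constructor
  · rintro ⟨⟨u, u', hu, hu', h⟩, w, w', hw, hw', h'⟩
    exact ⟨⟨u, hu, u', hu', h⟩, w, hw, w', hw', h'⟩
  · rintro ⟨⟨u, hu, u', hu', h⟩, w, hw, w', hw', h'⟩
    exact ⟨⟨u, u', hu, hu', h⟩, w, w', hw, hw', h'⟩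

theorem Pc_mono {a R : ℕ} {F G : Finset Edg} (h : F ⊆ G) (hF : Pc a R F) : Pc a R G := by
  obtain ⟨u, hu, v, hv, hr⟩ := hF
  exact ⟨u, hu, v, hv, hr.mono (by exact_mod_cast h)⟩

theorem Dd_anti {U : Finset Edg} {I J : Set Vtx} {F G : Finset Edg} (h : F ⊆ G)
    (hG : Dd U I J G) : Dd U I J F := by
  obtain ⟨u, hu, v, hv, hr⟩ := hG
  exact ⟨u, hu, v, hv, hr.mono (by
    exact_mod_cast Finset.sdiff_subset_sdiff (Finset.Subset.refl U) h)⟩

theorem piv_cases {a R : ℕ} {g : Edg} {F : Finset Edg} (hF : F ⊆ An a R) (hg : g ∈ An a R)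
    (h : Pvt (fun F : Finset Edg => AA a R (↑F : Set Edg)) g F) :
    (Pc a R (insert g F) ∧ ¬ Pc a R (F.erase g)) ∨
      (Dd (An a R) {v | nb a v} {v | nb R v} (F.erase g) ∧
        ¬ Dd (An a R) {v | nb a v} {v | nb R v} (insert g F)) := by
  by_contra hcon
  push Not at hcon
  apply h
  show AA a R (↑(insert g F) : Set Edg) ↔ AA a R (↑(F.erase g) : Set Edg)
  have hsub : F.erase g ⊆ insert g F :=
    (Finset.erase_subset _ _).trans (Finset.subset_insert _ _)
  rw [AA_iff (Finset.insert_subset hg hF), AA_iff ((Finset.erase_subset _ _).trans hF)]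
  constructor
  · rintro ⟨h1, h2⟩
    exact ⟨hcon.1 h1, Dd_anti hsub h2⟩
  · rintro ⟨h1, h2⟩
    exact ⟨Pc_mono hsub h1, hcon.2 h2⟩

theorem Dd_dl {U S G F : Finset Edg} (hSU : S ⊆ U) (hF : F ⊆ S) (hG : G ⊆ U \ S)
    (I J : Set Vtx) :
    Dd U I J (G ∪ F) ↔ CO I J (dl '' ↑((U \ S) \ G)) ((S \ F).map dl.toEmbedding) := by
  have e1 : U \ (G ∪ F) = (S \ F) ∪ ((U \ S) \ G) := by
    ext e
    simp only [Finset.mem_sdiff, Finset.mem_union]
    constructor
    · rintro ⟨h1, h2⟩
      by_cases hs : e ∈ S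
      · exact Or.inl ⟨hs, fun h => h2 (Or.inr h)⟩
      · exact Or.inr ⟨⟨h1, hs⟩, fun h => h2 (Or.inl h)⟩
    · rintro (⟨h1, h2⟩ | ⟨⟨h1, h2⟩, h3⟩)
      · refine ⟨hSU h1, ?_⟩
        rintro (h | h)
        · exact (Finset.mem_sdiff.mp (hG h)).2 h1
        · exact h2 h
      · refine ⟨h1, ?_⟩
        rintro (h | h)
        · exact h3 h
        · exact h2 (hF h)
  have e2 : (↑((S \ F).map dl.toEmbedding) : Set Edg) ∪ dl '' ↑((U \ S) \ G) =
      dl '' (↑(U \ (G ∪ F)) : Set Edg) := by
    rw [e1, Finset.coe_union, Set.image_union, Finset.coe_map]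
    rfl
  unfold Dd CO Cn
  rw [e2]
  constructor
  · rintro ⟨u, hu, v, hv, h⟩
    exact ⟨u, hu, v, hv, reach_dl.mpr h⟩
  · rintro ⟨u, hu, v, hv, h⟩
    exact ⟨u, hu, v, hv, reach_dl.mp h⟩

theorem dual_sum {U S G : Finset Edg} (hSU : S ⊆ U) (hG : G ⊆ U \ S) (I J : Set Vtx) :
    ∑ g ∈ S, Pr hp S (fun F => Dd U I J (G ∪ F.erase g) ∧ ¬ Dd U I J (G ∪ insert g F)) =
      ∑ g ∈ S.map dl.toEmbedding, PQ (1/2) (S.map dl.toEmbedding)
        (Pf (CO I J (dl '' ↑((U \ S) \ G))) g) := by
  rw [Finset.sum_map]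
  refine Finset.sum_congr rfl (fun g hg => ?_)
  obtain ⟨X, hX⟩ : ∃ X : Finset Edg → Prop, X = Pf (CO I J (dl '' ↑((U \ S) \ G)))
      (dl.toEmbedding g) := ⟨_, rfl⟩
  rw [← hX]
  have e1 : PQ (1/2) (S.map dl.toEmbedding) X = Pr hp S (fun F => X (F.map dl.toEmbedding)) :=
    Pr_map (fun _ => 1/2) dl.toEmbedding S X
  have e2 : Pr hp S (fun F => X (F.map dl.toEmbedding)) =
      Pr hp S (fun F => X ((S \ F).map dl.toEmbedding)) := by
    have h1 := Pr_compl (hp : Edg → ℝ) S (fun F => X (F.map dl.toEmbedding))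
    have h2 : (fun e : Edg => 1 - hp e) = hp := by
      funext e
      unfold hp
      norm_num
    rw [h2] at h1
    exact h1
  rw [e1, e2]
  apply Pr_congr
  intro F hF
  rw [hX]
  unfold Pf
  have e3 : insert (dl.toEmbedding g) ((S \ F).map dl.toEmbedding) =
      (S \ F.erase g).map dl.toEmbedding := by
    rw [← Finset.map_insert]
    congr 1
    ext e
    simp only [Finset.mem_insert, Finset.mem_sdiff, Finset.mem_erase]
    constructor
    · rintro (rfl | ⟨h1, h2⟩)
      · exact ⟨hg, fun h => h.1 rfl⟩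
      · exact ⟨h1, fun h => h2 h.2⟩
    · rintro ⟨h1, h2⟩
      by_cases h : e = g
      · exact Or.inl h
      · exact Or.inr ⟨h1, fun h3 => h2 ⟨h, h3⟩⟩
  have e4 : ((S \ F).map dl.toEmbedding).erase (dl.toEmbedding g) =
      (S \ insert g F).map dl.toEmbedding := by
    rw [← Finset.map_erase]
    congr 1
    ext e
    simp only [Finset.mem_insert, Finset.mem_sdiff, Finset.mem_erase]
    tauto
  rw [e3, e4, ← Dd_dl hSU ((Finset.erase_subset _ _).trans hF) hG,
    ← Dd_dl hSU (Finset.insert_subset hg hF) hG]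

theorem boxE_iff {m : ℕ} {x y : ℤ} {b : Bool} : ((x, y, b) : Edg) ∈ boxE m ↔
    inB m x y ∧ (b = true → x < m) ∧ (b = false → y < m) := by
  unfold boxE inB
  cases b
  · rw [mem_RE_false]
    simp only [Bool.false_eq_true, false_implies, true_and, true_implies]
    omega
  · rw [mem_RE_true]
    simp only [Bool.true_eq_false, false_implies, and_true, true_implies]
    omega

theorem shl_primal {a r ρ R : ℕ} (h1 : a ≤ r) (h3 : ρ ≤ R) :
    Shl r ρ (An r ρ) {v | onB a v} {v | onB R v} where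
  inn := by
    rintro ⟨x, y, b⟩ ha hb
    rw [INDI_memAn, boxE_iff, boxE_iff]
    unfold inB at ha hb ⊢
    simp only at ha hb
    constructor
    · refine ⟨by omega, fun _ => by omega, fun _ => by omega⟩
    · intro h; omega
  out := by
    rintro ⟨x, y, b⟩ hg
    rw [INDI_memAn, boxE_iff, boxE_iff] at hg
    obtain ⟨hg1, hg2⟩ := hg
    unfold inB at hg1 hg2 ⊢
    simp only
    refine ⟨by omega, fun h => hg2 ⟨by omega, fun _ => by omega, fun _ => by omega⟩⟩
  ver := by
    rintro v (hv | hv)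
    · left
      obtain ⟨h, _⟩ := hv
      unfold inR at h
      unfold inB
      omega
    · right
      obtain ⟨_, h⟩ := hv
      unfold inB
      omega

theorem shl_dual {a r ρ R : ℕ} (h1 : a ≤ r) (h3 : ρ ≤ R) :
    Shl r ρ ((An r ρ).map dl.toEmbedding) {v | nb a v} {v | nb R v} where
  inn := by
    rintro ⟨x, y, b⟩ ha hb
    rw [Finset.mem_map]
    refine ⟨dl.symm (x, y, b), ?_, by simp⟩
    unfold inB at ha hb
    simp only at ha hb
    cases b
    · rw [dls_f, INDI_memAn, boxE_iff, boxE_iff]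
      unfold inB
      constructor
      · refine ⟨by omega, fun _ => by omega, fun _ => by omega⟩
      · intro h; omega
    · rw [dls_t, INDI_memAn, boxE_iff, boxE_iff]
      unfold inB
      constructor
      · refine ⟨by omega, fun _ => by omega, fun _ => by omega⟩
      · intro h; omega
  out := by
    intro g hg
    rw [Finset.mem_map] at hg
    obtain ⟨⟨x, y, b⟩, hg, rfl⟩ := hg
    rw [INDI_memAn, boxE_iff, boxE_iff] at hg
    obtain ⟨hg1, hg2⟩ := hg
    unfold inB at hg1 hg2 ⊢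
    cases b
    · rw [Equiv.coe_toEmbedding, dl_f]
      simp only
      refine ⟨by omega, fun h => hg2 ⟨by omega, fun _ => by omega, fun _ => by omega⟩⟩
    · rw [Equiv.coe_toEmbedding, dl_t]
      simp only
      refine ⟨by omega, fun h => hg2 ⟨by omega, fun _ => by omega, fun _ => by omega⟩⟩
  ver := by
    rintro v (hv | hv)
    · left
      simp only [nb, Set.mem_setOf_eq] at hv
      unfold inB
      omega
    · right
      simp only [nb, Set.mem_setOf_eq] at hv
      unfold inB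
      omega

/-- The expected number of pivotal edges of the two-arm event in a shell. -/
theorem shell_AA : ∃ C : ℝ, 0 < C ∧ ∀ a r ρ R : ℕ, a ≤ r → r ≤ ρ → ρ ≤ R → 1 ≤ ρ →
    ∑ g ∈ An r ρ, Pr hp (An a R) (Pvt (fun F : Finset Edg => AA a R (↑F : Set Edg)) g) ≤
      C * (ρ:ℝ) ^ (3/4 : ℝ) * (pA AA a r * pA AA ρ R) := by
  classical
  obtain ⟨C, hC, hsh⟩ := shell
  refine ⟨2 * C, by positivity, ?_⟩
  intro a r ρ R h1 h2 h3 hρ
  obtain ⟨U, hU⟩ : ∃ U : Finset Edg, U = An a R := ⟨_, rfl⟩
  obtain ⟨S, hS⟩ : ∃ S : Finset Edg, S = An r ρ := ⟨_, rfl⟩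
  obtain ⟨T, hT⟩ : ∃ T : Finset Edg, T = U \ S := ⟨_, rfl⟩
  have hSU : S ⊆ U := by
    rw [hS, hU]
    rintro ⟨x, y, b⟩ he
    rw [INDI_memAn, boxE_iff, boxE_iff] at he ⊢
    obtain ⟨he1, he2⟩ := he
    unfold inB at he1 he2 ⊢
    refine ⟨⟨by omega, fun h => by have := he1.2.1 h; omega,
      fun h => by have := he1.2.2 h; omega⟩, fun h => he2 ⟨by omega, fun h4 => by
        have := h.2.1 h4; omega, fun h4 => by have := h.2.2 h4; omega⟩⟩
  have hd : Disjoint T S := by rw [hT]; exact Finset.sdiff_disjoint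
  have hTS : T ∪ S = U := by rw [hT]; exact Finset.sdiff_union_of_subset hSU
  have ha1 : An a r ⊆ T := by
    rw [hT, hU, hS]
    rintro ⟨x, y, b⟩ he
    rw [Finset.mem_sdiff]
    rw [INDI_memAn, boxE_iff, boxE_iff] at he ⊢
    rw [INDI_memAn, boxE_iff, boxE_iff]
    obtain ⟨he1, he2⟩ := he
    refine ⟨⟨?_, he2⟩, fun h => h.2 he1⟩
    unfold inB at he1 ⊢
    exact ⟨by omega, fun h => by have := he1.2.1 h; omega, fun h => by have := he1.2.2 h; omega⟩
  have ha2 : An ρ R ⊆ T := by
    rw [hT, hU, hS]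
    rintro ⟨x, y, b⟩ he
    rw [Finset.mem_sdiff]
    rw [INDI_memAn, boxE_iff, boxE_iff] at he ⊢
    rw [INDI_memAn, boxE_iff, boxE_iff]
    obtain ⟨he1, he2⟩ := he
    refine ⟨⟨he1, fun h => he2 ?_⟩, fun h => he2 h.1⟩
    unfold inB at h ⊢
    exact ⟨by omega, fun h4 => by have := h.2.1 h4; omega, fun h4 => by have := h.2.2 h4; omega⟩
  have ha3 : Disjoint (An a r) (An ρ R) := by
    rw [Finset.disjoint_left]
    rintro ⟨x, y, b⟩ he he'
    rw [INDI_memAn, boxE_iff, boxE_iff] at he he'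
    apply he'.2
    have h4 := he.1
    unfold inB at h4 ⊢
    exact ⟨by omega, fun h => by have := h4.2.1 h; omega, fun h => by have := h4.2.2 h; omega⟩
  -- the events
  obtain ⟨I, hI⟩ : ∃ I : Set Vtx, I = {v | onB a v} := ⟨_, rfl⟩
  obtain ⟨J, hJ⟩ : ∃ J : Set Vtx, J = {v | onB R v} := ⟨_, rfl⟩
  obtain ⟨I', hI'⟩ : ∃ I' : Set Vtx, I' = {v | nb a v} := ⟨_, rfl⟩
  obtain ⟨J', hJ'⟩ : ∃ J' : Set Vtx, J' = {v | nb R v} := ⟨_, rfl⟩
  have hsp := shl_primal (a := a) (R := R) h1 h3
  have hsd := shl_dual (a := a) (R := R) h1 h3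
  rw [← hS, ← hI, ← hJ] at hsp
  rw [← hS, ← hI', ← hJ'] at hsd
  have hG : ∀ G : Finset Edg, G ⊆ T →
      ∑ g ∈ S, Pr hp S (fun F => Pvt (fun F : Finset Edg => AA a R (↑F : Set Edg)) g (G ∪ F)) ≤
      ind (AA a r (↑G : Set Edg) ∧ AA ρ R (↑G : Set Edg)) * (2 * C * (ρ:ℝ) ^ (3/4 : ℝ)) := by
    intro G hGT
    by_cases hin : AA a r (↑G : Set Edg) ∧ AA ρ R (↑G : Set Edg)
    · rw [ind_of hin, one_mul]
      have hGd : Disjoint (↑G : Set Edg) ↑S := by
        exact_mod_cast Finset.disjoint_of_subset_left hGT hd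
      have p1 := hsh r ρ S I J (↑G) hρ h2 hsp hGd
      have hDd : Disjoint (dl '' (↑((U \ S) \ G) : Set Edg)) ↑(S.map dl.toEmbedding) := by
        rw [Finset.coe_map]
        have : Disjoint (dl '' (↑((U \ S) \ G) : Set Edg)) (dl '' (↑S : Set Edg)) := by
          rw [Set.disjoint_image_iff dl.injective]
          exact_mod_cast Finset.disjoint_of_subset_left (Finset.sdiff_subset)
            (Finset.sdiff_disjoint)
        exact this
      have p2 := hsh r ρ (S.map dl.toEmbedding) I' J' (dl '' ↑((U \ S) \ G)) hρ h2 hsd hDd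
      have hGT' : G ⊆ U \ S := by rw [← hT]; exact hGT
      rw [← dual_sum hSU hGT'] at p2
      have p3 : ∀ g ∈ S, Pr hp S (fun F => Pvt (fun F : Finset Edg => AA a R (↑F : Set Edg)) g
          (G ∪ F)) ≤ PQ (1/2) S (Pf (CO I J ↑G) g) +
          Pr hp S (fun F => Dd U I' J' (G ∪ F.erase g) ∧ ¬ Dd U I' J' (G ∪ insert g F)) := by
        intro g hg
        have hgG : g ∉ G := fun h => (Finset.mem_sdiff.mp (hGT' h)).2 hg
        refine (Pr_mono okhp (A := fun F => Pvt (fun F : Finset Edg => AA a R (↑F : Set Edg)) g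
          (G ∪ F)) (B := fun F => Pf (CO I J ↑G) g F ∨
          (Dd U I' J' (G ∪ F.erase g) ∧ ¬ Dd U I' J' (G ∪ insert g F))) ?_).trans ?_
        · intro F hF h
          have hGF : G ∪ F ⊆ An a R := by
            rw [← hU]
            exact Finset.union_subset (hGT'.trans Finset.sdiff_subset) (hF.trans hSU)
          have hc := piv_cases hGF (by rw [← hU]; exact hSU hg) h
          have e1 : insert g (G ∪ F) = G ∪ insert g F := by rw [Finset.union_insert]
          have e2 : (G ∪ F).erase g = G ∪ F.erase g := by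
            rw [Finset.erase_union_distrib, Finset.erase_eq_of_notMem hgG]
          rw [e1, e2, ← hI', ← hJ', ← hU] at hc
          rcases hc with hc | hc
          · left
            unfold Pf CO
            unfold Pc at hc
            rw [← hI, ← hJ, Finset.coe_union, Finset.coe_union, Set.union_comm,
              Set.union_comm (↑G : Set Edg)] at hc
            exact hc
          · right
            exact hc
        · exact Pr_or_le okhp _ _ _
      refine (Finset.sum_le_sum p3).trans ?_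
      rw [Finset.sum_add_distrib]
      linarith
    · rw [ind_not_of hin, zero_mul]
      apply le_of_eq
      apply Finset.sum_eq_zero
      intro g hg
      have hgS : g ∈ An r ρ := by rw [← hS]; exact hg
      have : ∀ F, F ⊆ S → (Pvt (fun F : Finset Edg => AA a R (↑F : Set Edg)) g (G ∪ F) ↔
          False) := by
        intro F hF
        rw [iff_false]
        intro h
        apply hin
        -- one of the two configurations has the arms
        have hor : ∃ H : Finset Edg, (H = insert g (G ∪ F) ∨ H = (G ∪ F).erase g) ∧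
            AA a R (↑H : Set Edg) := by
          by_contra hcon
          push Not at hcon
          apply h
          exact iff_of_false (hcon _ (Or.inl rfl)) (hcon _ (Or.inr rfl))
        obtain ⟨H, hH, hAA⟩ := hor
        have hloc : ∀ e, e ∉ S → (e ∈ H ↔ e ∈ G) := by
          intro e he
          have heg : e ≠ g := fun h => he (h ▸ hg)
          have heF : e ∉ F := fun h => he (hF h)
          rcases hH with rfl | rfl
          · simp [heg, heF]
          · simp [heg, heF]
        constructor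
        · have := AA_outerA h1 (h2.trans h3) hAA
          refine (AA_congr ?_).mp this
          ext e
          simp only [Set.mem_inter_iff, Finset.mem_coe]
          constructor
          · rintro ⟨q1, q2⟩
            exact ⟨(hloc e (Finset.disjoint_left.mp hd (ha1 q2))).mp q1, q2⟩
          · rintro ⟨q1, q2⟩
            exact ⟨(hloc e (Finset.disjoint_left.mp hd (ha1 q2))).mpr q1, q2⟩
        · have := AA_mono (h1.trans h2) h3 hAA
          refine (AA_congr ?_).mp this
          ext e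
          simp only [Set.mem_inter_iff, Finset.mem_coe]
          constructor
          · rintro ⟨q1, q2⟩
            exact ⟨(hloc e (Finset.disjoint_left.mp hd (ha2 q2))).mp q1, q2⟩
          · rintro ⟨q1, q2⟩
            exact ⟨(hloc e (Finset.disjoint_left.mp hd (ha2 q2))).mpr q1, q2⟩
      rw [Pr_congr this]
      unfold Pr
      have e0 : Ex hp S (fun _ => ind False) = Ex hp S (fun _ => (0:ℝ)) :=
        Ex_congr (fun _ _ => ind_not_of (fun h => h))
      rw [e0]
      unfold Ex
      simp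
  -- conditioning on the outside configuration
  have hsplit : ∀ g ∈ S, Pr hp U (Pvt (fun F : Finset Edg => AA a R (↑F : Set Edg)) g) =
      Ex hp T (fun G => Pr hp S (fun F =>
        Pvt (fun F : Finset Edg => AA a R (↑F : Set Edg)) g (G ∪ F))) := by
    intro g _
    conv_lhs => rw [← hTS]
    unfold Pr
    rw [Ex_union hd]
  rw [← hS, ← hU, Finset.sum_congr rfl hsplit, ← Ex_sum]
  have hfin : Ex hp T (fun G => ind (AA a r (↑G : Set Edg) ∧ AA ρ R (↑G : Set Edg)) *
      (2 * C * (ρ:ℝ) ^ (3/4 : ℝ))) =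
      2 * C * (ρ:ℝ) ^ (3/4 : ℝ) * (pA AA a r * pA AA ρ R) := by
    rw [Ex_mul_right]
    have e1 : Ex hp T (fun G => ind (AA a r (↑G : Set Edg) ∧ AA ρ R (↑G : Set Edg))) =
        pA AA a r * pA AA ρ R := by
      have e2 := Pr_indep (p := hp) ha1 ha2 ha3
        (A := fun G : Finset Edg => AA a r (↑G : Set Edg))
        (B := fun G : Finset Edg => AA ρ R (↑G : Set Edg))
        (fun F _ => g_loc arm_AA (Finset.Subset.refl _) F)
        (fun F _ => g_loc arm_AA (Finset.Subset.refl _) F)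
      have e3 : Pr hp T (fun G : Finset Edg => AA a r (↑G : Set Edg)) = pA AA a r :=
        Pr_local ha1 (fun F _ => g_loc arm_AA (Finset.Subset.refl _) F)
      have e4 : Pr hp T (fun G : Finset Edg => AA ρ R (↑G : Set Edg)) = pA AA ρ R :=
        Pr_local ha2 (fun F _ => g_loc arm_AA (Finset.Subset.refl _) F)
      rw [e3, e4] at e2
      exact e2
    rw [e1]
    ring
  rw [← hfin]
  exact Ex_mono okhp (fun G hGT => hG G hGT)

end Pool.Agent.Y197.DP
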