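import Pool.Agent.Y197.DP.Sh2

/-!
The two-arm event in dynamical percolation on a time interval: sharp upper bound.
-/

set_option autoImplicit false

namespace Pool.Agent.Y197.DP

open H389NS H974 H12S H973N H973N.WHX H985T Finset TH291.NW MeasureTheory Pool.Agent.Y197.NW

theorem An_split (a : ℕ) (f : Edg → ℝ) (J : ℕ) :
    ∑ g ∈ An a (a * 2 ^ J), f g =
      ∑ j ∈ Finset.range J, ∑ g ∈ An (a * 2 ^ j) (a * 2 ^ (j + 1)), f g := by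
  induction J with
  | zero =>
    rw [pow_zero, mul_one, Finset.sum_range_zero]
    apply Finset.sum_eq_zero
    intro g hg
    rw [INDI_memAn] at hg
    exact absurd hg.1 hg.2
  | succ J ih =>
    rw [Finset.sum_range_succ, ← ih, ← Finset.sum_union]
    · congr 1
      have hle : a ≤ a * 2 ^ J := Nat.le_mul_of_pos_right _ (by positivity)
      have hle2 : a * 2 ^ J ≤ a * 2 ^ (J + 1) := by
        apply Nat.mul_le_mul_left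
        exact Nat.pow_le_pow_right (by norm_num) (by omega)
      obtain ⟨p, hp⟩ : ∃ p : ℕ, p = a * 2 ^ J := ⟨_, rfl⟩
      obtain ⟨q, hq⟩ : ∃ q : ℕ, q = a * 2 ^ (J + 1) := ⟨_, rfl⟩
      rw [← hp] at hle hle2 ⊢
      rw [← hq] at hle2 ⊢
      ext ⟨x, y, b⟩
      rw [Finset.mem_union, INDI_memAn, INDI_memAn, INDI_memAn, boxE_iff, boxE_iff, boxE_iff]
      unfold inB
      constructor
      · rintro ⟨h1, h2⟩
        by_cases h3 : (-(p:ℤ) ≤ x ∧ x ≤ p ∧ -(p:ℤ) ≤ y ∧ y ≤ p) ∧ (b = true → x < p) ∧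
          (b = false → y < p)
        · exact Or.inl ⟨h3, h2⟩
        · exact Or.inr ⟨h1, h3⟩
      · rintro (⟨h1, h2⟩ | ⟨h1, h2⟩)
        · refine ⟨⟨by omega, fun h => by have := h1.2.1 h; omega,
            fun h => by have := h1.2.2 h; omega⟩, h2⟩
        · refine ⟨h1, fun h => h2 ⟨by omega, fun h4 => by have := h.2.1 h4; omega,
            fun h4 => by have := h.2.2 h4; omega⟩⟩
    · rw [Finset.disjoint_left]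
      intro g h1 h2
      rw [INDI_memAn] at h1 h2
      exact h2.2 h1.1

/-- The expected number of pivotal edges of the two-arm event. -/
theorem Inf_AA : ∃ C : ℝ, 0 < C ∧ ∀ a J : ℕ, 1 ≤ a →
    Inf (An a (a * 2 ^ J)) (fun F : Finset Edg => AA a (a * 2 ^ J) (↑F : Set Edg)) ≤
      C * ((a:ℝ) ^ (3/4 : ℝ) * ((2:ℝ) ^ J) ^ (1/2 : ℝ)) := by
  obtain ⟨C, hC, hsh⟩ := shell_AA
  obtain ⟨C', hC', hup⟩ := arm_AA.up
  have hα : (1:ℝ) < (2:ℝ) ^ (3/4 : ℝ) := Real.one_lt_rpow (by norm_num) (by norm_num)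
  have hα' : 0 < (2:ℝ) ^ (3/4 : ℝ) - 1 := by linarith
  refine ⟨2 * C * C' ^ 2 / ((2:ℝ) ^ (3/4 : ℝ) - 1), by positivity, ?_⟩
  intro a J ha
  have ha0 : (0:ℝ) < a := by exact_mod_cast ha
  unfold Inf
  rw [An_split]
  have hterm : ∀ j ∈ Finset.range J, ∑ g ∈ An (a * 2 ^ j) (a * 2 ^ (j + 1)),
      Pr hp (An a (a * 2 ^ J)) (Pvt (fun F : Finset Edg => AA a (a * 2 ^ J) (↑F : Set Edg)) g) ≤
      2 * C * C' ^ 2 * ((a:ℝ) ^ (3/4 : ℝ) * ((2:ℝ) ^ J) ^ (-(1/4) : ℝ)) *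
        ((2:ℝ) ^ j) ^ (3/4 : ℝ) := by
    intro j hj
    have hjJ : j + 1 ≤ J := by rw [Finset.mem_range] at hj; omega
    have e1 : a ≤ a * 2 ^ j := Nat.le_mul_of_pos_right _ (by positivity)
    have e2 : a * 2 ^ j ≤ a * 2 ^ (j + 1) :=
      Nat.mul_le_mul_left _ (Nat.pow_le_pow_right (by norm_num) (by omega))
    have e3 : a * 2 ^ (j + 1) ≤ a * 2 ^ J :=
      Nat.mul_le_mul_left _ (Nat.pow_le_pow_right (by norm_num) hjJ)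
    have h1 := hsh a (a * 2 ^ j) (a * 2 ^ (j + 1)) (a * 2 ^ J) e1 e2 e3 (by omega)
    have h2 : pA AA a (a * 2 ^ j) ≤ C' * ((2:ℝ) ^ j) ^ (-(1/4) : ℝ) := by
      refine (hup a (a * 2 ^ j) ha e1).trans (le_of_eq ?_)
      push_cast
      rw [Real.rpow_neg (by positivity), ← Real.inv_rpow (by positivity)]
      congr 2
      field_simp
    have h3 : pA AA (a * 2 ^ (j + 1)) (a * 2 ^ J) ≤
        C' * ((2 * (2:ℝ) ^ j) ^ (1/4 : ℝ) * ((2:ℝ) ^ J) ^ (-(1/4) : ℝ)) := by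
      refine (hup (a * 2 ^ (j + 1)) (a * 2 ^ J) (by omega) e3).trans (le_of_eq ?_)
      push_cast
      rw [Real.rpow_neg (by positivity), ← Real.inv_rpow (by positivity),
        ← Real.mul_rpow (by positivity) (by positivity), pow_succ]
      congr 2
      field_simp
    refine h1.trans ?_
    have p0 : 0 ≤ pA AA a (a * 2 ^ j) := Pr_nonneg okhp _ _
    have p1 : 0 ≤ pA AA (a * 2 ^ (j + 1)) (a * 2 ^ J) := Pr_nonneg okhp _ _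
    have h4 : pA AA a (a * 2 ^ j) * pA AA (a * 2 ^ (j + 1)) (a * 2 ^ J) ≤
        (C' * ((2:ℝ) ^ j) ^ (-(1/4) : ℝ)) *
        (C' * ((2 * (2:ℝ) ^ j) ^ (1/4 : ℝ) * ((2:ℝ) ^ J) ^ (-(1/4) : ℝ))) :=
      mul_le_mul h2 h3 p1 (by positivity)
    refine (mul_le_mul_of_nonneg_left h4 (by positivity)).trans (le_of_eq ?_)
    have e4 : (((a * 2 ^ (j + 1) : ℕ)) : ℝ) ^ (3/4 : ℝ) =
        (a:ℝ) ^ (3/4 : ℝ) * ((2:ℝ) ^ (3/4 : ℝ) * ((2:ℝ) ^ j) ^ (3/4 : ℝ)) := by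
      push_cast
      rw [pow_succ, Real.mul_rpow (by positivity) (by positivity),
        mul_comm ((2:ℝ) ^ j) 2, Real.mul_rpow (by positivity) (by positivity)]
    have e5 : (2 * (2:ℝ) ^ j) ^ (1/4 : ℝ) = (2:ℝ) ^ (1/4 : ℝ) * ((2:ℝ) ^ j) ^ (1/4 : ℝ) :=
      Real.mul_rpow (by positivity) (by positivity)
    have e6 : (2:ℝ) ^ (3/4 : ℝ) * (2:ℝ) ^ (1/4 : ℝ) = 2 := by
      rw [← Real.rpow_add (by norm_num)]
      norm_num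
    have e7 : ((2:ℝ) ^ j) ^ (-(1/4) : ℝ) * ((2:ℝ) ^ j) ^ (1/4 : ℝ) = 1 := by
      rw [← Real.rpow_add (by positivity)]
      norm_num
    rw [e4, e5]
    calc C * ((a:ℝ) ^ (3/4 : ℝ) * ((2:ℝ) ^ (3/4 : ℝ) * ((2:ℝ) ^ j) ^ (3/4 : ℝ))) *
        (C' * ((2:ℝ) ^ j) ^ (-(1/4) : ℝ) *
          (C' * ((2:ℝ) ^ (1/4 : ℝ) * ((2:ℝ) ^ j) ^ (1/4 : ℝ) * ((2:ℝ) ^ J) ^ (-(1/4) : ℝ))))
        = ((2:ℝ) ^ (3/4 : ℝ) * (2:ℝ) ^ (1/4 : ℝ)) *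
          (((2:ℝ) ^ j) ^ (-(1/4) : ℝ) * ((2:ℝ) ^ j) ^ (1/4 : ℝ)) * C * C' ^ 2 *
          ((a:ℝ) ^ (3/4 : ℝ) * ((2:ℝ) ^ J) ^ (-(1/4) : ℝ)) * ((2:ℝ) ^ j) ^ (3/4 : ℝ) := by ring
      _ = _ := by rw [e6, e7]; ring
  refine (Finset.sum_le_sum hterm).trans ?_
  rw [← Finset.mul_sum]
  have h7 := scales_sum (α := 3/4) (x := (2:ℝ) ^ J) (by norm_num) J le_rfl
  refine (mul_le_mul_of_nonneg_left h7 (by positivity)).trans (le_of_eq ?_)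
  have e8 : ((2:ℝ) ^ J) ^ (-(1/4) : ℝ) * ((2:ℝ) ^ J) ^ (3/4 : ℝ) = ((2:ℝ) ^ J) ^ (1/2 : ℝ) := by
    rw [← Real.rpow_add (by positivity)]
    norm_num
  rw [← e8]
  ring

theorem AA_opS {Ω : Type*} [MeasurableSpace Ω] {ω : ℝ → Ω → Edg → Bool} (a R : ℕ) (t : ℝ)
    (w : Ω) :
    AA a R (opE ω t w) ↔ AA a R (↑(opS (An a R) ω t w) : Set Edg) :=
  AA_opE1 a R t w

/-- **Two arms at some time of an interval**: sharp upper bound. -/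
theorem co_up : ∃ C : ℝ, 0 < C ∧ ∀ (Ω : Type) [MeasurableSpace Ω] (μ : Measure Ω)
    [IsProbabilityMeasure μ] (ω : ℝ → Ω → Edg → Bool), IsDP μ ω →
    ∀ a R : ℕ, 1 ≤ a → a ≤ R → ∀ b ε : ℝ, 0 ≤ b → 0 < ε →
    μ.real {w | ∃ t : ℝ, b ≤ t ∧ t ≤ b + ε ∧ AA a R (opE ω t w)} ≤
      C * ((a:ℝ) / R) ^ (1/4 : ℝ) * (1 + ε * (R:ℝ) ^ (3/4 : ℝ)) := by
  obtain ⟨C, hC, hI⟩ := Inf_AA
  obtain ⟨C', hC', hup⟩ := arm_AA.up
  refine ⟨2 * C' + C, by positivity, ?_⟩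
  intro Ω _ μ _ ω h a R ha haR b ε hb hε
  have ha0 : (0:ℝ) < a := by exact_mod_cast ha
  have hR0 : (0:ℝ) < R := by exact_mod_cast (lt_of_lt_of_le ha haR)
  obtain ⟨J, hJ1, hJ2⟩ : ∃ J : ℕ, a * 2 ^ J ≤ R ∧ R < a * 2 ^ (J + 1) := by
    have hq : R / a ≠ 0 := by
      have := (Nat.le_div_iff_mul_le ha).mpr (by simpa using haR : 1 * a ≤ R)
      omega
    refine ⟨Nat.log 2 (R / a), ?_, ?_⟩
    · have := Nat.pow_log_le_self 2 hq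
      exact (Nat.mul_le_mul_left a this).trans (Nat.mul_div_le R a)
    · have h1 := Nat.lt_pow_succ_log_self (b := 2) (by norm_num) (R / a)
      have h2 := Nat.lt_mul_div_succ R ha
      have h3 : R / a + 1 ≤ 2 ^ (Nat.log 2 (R / a) + 1) := h1
      exact h2.trans_le (Nat.mul_le_mul_left a h3)
  have e1 : a ≤ a * 2 ^ J := Nat.le_mul_of_pos_right _ (by positivity)
  have hsub : {w | ∃ t : ℝ, b ≤ t ∧ t ≤ b + ε ∧ AA a R (opE ω t w)} ⊆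
      {w | ∃ t : ℝ, b ≤ t ∧ t ≤ b + ε ∧
        (fun F : Finset Edg => AA a (a * 2 ^ J) (↑F : Set Edg))
          (opS (An a (a * 2 ^ J)) ω t w)} := by
    rintro w ⟨t, h1, h2, h3⟩
    exact ⟨t, h1, h2, (AA_opS a (a * 2 ^ J) t w).mp (AA_outerA e1 hJ1 h3)⟩
  have h1 := dyn_up h (An a (a * 2 ^ J)) (fun F : Finset Edg => AA a (a * 2 ^ J) (↑F : Set Edg))
    hb hε
  have h2 := hup a (a * 2 ^ J) ha e1
  have h3 := mul_le_mul_of_nonneg_left (hI a J ha) hε.le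
  have hJr : (a:ℝ) * 2 ^ J ≤ R := by exact_mod_cast hJ1
  have hJr2 : (R:ℝ) < a * 2 ^ (J + 1) := by exact_mod_cast hJ2
  have h4 : C' * ((a:ℝ) / ((a * 2 ^ J : ℕ) : ℝ)) ^ (1/4 : ℝ) ≤
      2 * C' * ((a:ℝ) / R) ^ (1/4 : ℝ) := by
    have q1 : (a:ℝ) / ((a * 2 ^ J : ℕ) : ℝ) ≤ 2 * ((a:ℝ) / R) := by
      push_cast
      rw [← mul_div_assoc, div_le_div_iff₀ (by positivity) hR0]
      rw [pow_succ] at hJr2
      nlinarith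
    have q2 := Real.rpow_le_rpow (z := 1/4) (by positivity) q1 (by norm_num)
    rw [Real.mul_rpow (by norm_num) (by positivity)] at q2
    have q3 : (2:ℝ) ^ (1/4 : ℝ) ≤ 2 := by
      calc (2:ℝ) ^ (1/4 : ℝ) ≤ (2:ℝ) ^ (1:ℝ) :=
        Real.rpow_le_rpow_of_exponent_le (by norm_num) (by norm_num)
        _ = 2 := Real.rpow_one 2
    have q4 : 0 ≤ ((a:ℝ) / R) ^ (1/4 : ℝ) := by positivity
    calc C' * ((a:ℝ) / ((a * 2 ^ J : ℕ) : ℝ)) ^ (1/4 : ℝ)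
        ≤ C' * ((2:ℝ) ^ (1/4 : ℝ) * ((a:ℝ) / R) ^ (1/4 : ℝ)) :=
          mul_le_mul_of_nonneg_left q2 hC'.le
      _ ≤ C' * (2 * ((a:ℝ) / R) ^ (1/4 : ℝ)) :=
          mul_le_mul_of_nonneg_left (mul_le_mul_of_nonneg_right q3 q4) hC'.le
      _ = 2 * C' * ((a:ℝ) / R) ^ (1/4 : ℝ) := by ring
  have h5 : ε * (C * ((a:ℝ) ^ (3/4 : ℝ) * ((2:ℝ) ^ J) ^ (1/2 : ℝ))) ≤
      C * ((a:ℝ) / R) ^ (1/4 : ℝ) * (ε * (R:ℝ) ^ (3/4 : ℝ)) := by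
    have q1 : (2:ℝ) ^ J ≤ (R:ℝ) / a := by
      rw [le_div_iff₀ ha0]
      linarith
    have q2 := Real.rpow_le_rpow (z := 1/2) (by positivity) q1 (by norm_num)
    have q3 : (a:ℝ) ^ (3/4 : ℝ) * ((R:ℝ) / a) ^ (1/2 : ℝ) =
        ((a:ℝ) / R) ^ (1/4 : ℝ) * (R:ℝ) ^ (3/4 : ℝ) := by
      rw [Real.div_rpow hR0.le ha0.le, Real.div_rpow ha0.le hR0.le]
      have r1 : (a:ℝ) ^ (3/4 : ℝ) = (a:ℝ) ^ (1/4 : ℝ) * (a:ℝ) ^ (1/2 : ℝ) := by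
        rw [← Real.rpow_add ha0]; norm_num
      have r2 : (R:ℝ) ^ (3/4 : ℝ) = (R:ℝ) ^ (1/4 : ℝ) * (R:ℝ) ^ (1/2 : ℝ) := by
        rw [← Real.rpow_add hR0]; norm_num
      rw [r1, r2]
      have r3 : (a:ℝ) ^ (1/2 : ℝ) ≠ 0 := (Real.rpow_pos_of_pos ha0 _).ne'
      have r4 : (R:ℝ) ^ (1/4 : ℝ) ≠ 0 := (Real.rpow_pos_of_pos hR0 _).ne'
      field_simp
    calc ε * (C * ((a:ℝ) ^ (3/4 : ℝ) * ((2:ℝ) ^ J) ^ (1/2 : ℝ)))
        ≤ ε * (C * ((a:ℝ) ^ (3/4 : ℝ) * ((R:ℝ) / a) ^ (1/2 : ℝ))) := by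
          gcongr
      _ = _ := by rw [q3]; ring
  calc μ.real {w | ∃ t : ℝ, b ≤ t ∧ t ≤ b + ε ∧ AA a R (opE ω t w)}
      ≤ _ := measureReal_mono hsub
    _ ≤ _ := h1
    _ ≤ C' * ((a:ℝ) / ((a * 2 ^ J : ℕ) : ℝ)) ^ (1/4 : ℝ) +
        ε * (C * ((a:ℝ) ^ (3/4 : ℝ) * ((2:ℝ) ^ J) ^ (1/2 : ℝ))) := add_le_add h2 h3
    _ ≤ 2 * C' * ((a:ℝ) / R) ^ (1/4 : ℝ) +
        C * ((a:ℝ) / R) ^ (1/4 : ℝ) * (ε * (R:ℝ) ^ (3/4 : ℝ)) := add_le_add h4 h5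
    _ ≤ (2 * C' + C) * ((a:ℝ) / R) ^ (1/4 : ℝ) * (1 + ε * (R:ℝ) ^ (3/4 : ℝ)) := by
        have q0 : 0 ≤ ((a:ℝ) / R) ^ (1/4 : ℝ) := by positivity
        have q1 : 0 ≤ ε * (R:ℝ) ^ (3/4 : ℝ) := by positivity
        have q2 : 0 ≤ ((a:ℝ) / R) ^ (1/4 : ℝ) * (ε * (R:ℝ) ^ (3/4 : ℝ)) := mul_nonneg q0 q1
        have q3 := mul_nonneg hC'.le q2
        have q4 := mul_nonneg hC.le q0
        nlinarith [q3, q4]

end Pool.Agent.Y197.DP
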